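import Mathlib

set_option autoImplicit false
set_option linter.unusedSectionVars false
set_option linter.unusedVariables false
set_option linter.unusedSimpArgs false
set_option linter.style.haveILetI false

namespace Pool.Agent.Lib_helper55.F4

open Finset

variable {V : Type*} [Fintype V] [DecidableEq V] (G : SimpleGraph V)

/-- `M` is a matching: a set of pairwise disjoint edges. -/
structure IsM (M : Finset (Sym2 V)) : Prop where
  sub : ∀ e ∈ M, e ∈ G.edgeSet
  disj : ∀ e ∈ M, ∀ f ∈ M, ∀ v, v ∈ e → v ∈ f → e = f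

/-- The set of vertices covered by `M`. -/
def cov (M : Finset (Sym2 V)) : Finset V := univ.filter (fun v => ∃ e ∈ M, v ∈ e)

variable {G}

theorem mem_cov {M : Finset (Sym2 V)} {v : V} : v ∈ cov M ↔ ∃ e ∈ M, v ∈ e := by
  simp [cov]

theorem mem_cov' {M : Finset (Sym2 V)} {v : V} : v ∈ cov M ↔ ∃ w, s(v, w) ∈ M := by
  rw [mem_cov]
  constructor
  · rintro ⟨e, he, hv⟩
    obtain ⟨w, rfl⟩ := Sym2.mem_iff_exists.1 hv
    exact ⟨w, he⟩
  · rintro ⟨w, hw⟩
    exact ⟨_, hw, Sym2.mem_mk_left v w⟩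

theorem cov_mono {M M' : Finset (Sym2 V)} (h : M ⊆ M') : cov M ⊆ cov M' := by
  intro v hv
  rw [mem_cov] at hv ⊢
  obtain ⟨e, he, hv⟩ := hv
  exact ⟨e, h he, hv⟩

theorem left_mem_cov {M : Finset (Sym2 V)} {a b : V} (h : s(a, b) ∈ M) : a ∈ cov M :=
  mem_cov'.2 ⟨b, h⟩

theorem right_mem_cov {M : Finset (Sym2 V)} {a b : V} (h : s(a, b) ∈ M) : b ∈ cov M :=
  mem_cov.2 ⟨_, h, Sym2.mem_mk_right a b⟩

theorem IsM.adj {M : Finset (Sym2 V)} (hM : IsM G M) {a b : V} (h : s(a, b) ∈ M) : G.Adj a b :=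
  hM.sub _ h

theorem IsM.ne {M : Finset (Sym2 V)} (hM : IsM G M) {a b : V} (h : s(a, b) ∈ M) : a ≠ b :=
  (hM.adj h).ne

theorem IsM.uniq {M : Finset (Sym2 V)} (hM : IsM G M) {a b c : V} (h : s(a, b) ∈ M)
    (h' : s(a, c) ∈ M) : b = c := by
  have := hM.disj _ h _ h' a (Sym2.mem_mk_left _ _) (Sym2.mem_mk_left _ _)
  rcases Sym2.eq_iff.1 this with ⟨_, h⟩ | ⟨h1, h2⟩
  · exact h
  · rw [h2, h1]

theorem isM_empty : IsM G (∅ : Finset (Sym2 V)) := ⟨by simp, by simp⟩

theorem cov_empty : cov (∅ : Finset (Sym2 V)) = ∅ := by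
  ext v; simp [mem_cov]

theorem IsM.subset {M M' : Finset (Sym2 V)} (hM : IsM G M) (h : M' ⊆ M) : IsM G M' :=
  ⟨fun e he => hM.sub e (h he), fun e he f hf v => hM.disj e (h he) f (h hf) v⟩

theorem cov_insert (M : Finset (Sym2 V)) (a b : V) :
    cov (insert s(a, b) M) = insert a (insert b (cov M)) := by
  ext v
  simp only [mem_cov, mem_insert]
  constructor
  · rintro ⟨e, rfl | he, hv⟩
    · rcases Sym2.mem_iff.1 hv with rfl | rfl <;> simp
    · exact Or.inr (Or.inr ⟨e, he, hv⟩)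
  · rintro (rfl | rfl | ⟨e, he, hv⟩)
    · exact ⟨_, Or.inl rfl, Sym2.mem_mk_left _ _⟩
    · exact ⟨_, Or.inl rfl, Sym2.mem_mk_right _ _⟩
    · exact ⟨e, Or.inr he, hv⟩

theorem cov_erase {M : Finset (Sym2 V)} (hM : IsM G M) {a b : V} (h : s(a, b) ∈ M) :
    cov (M.erase s(a, b)) = ((cov M).erase a).erase b := by
  ext v
  simp only [mem_cov, mem_erase]
  constructor
  · rintro ⟨e, ⟨hne, he⟩, hv⟩
    refine ⟨?_, ?_, e, he, hv⟩
    · rintro rfl
      exact hne (hM.disj e he _ h v hv (Sym2.mem_mk_right _ _))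
    · rintro rfl
      exact hne (hM.disj e he _ h v hv (Sym2.mem_mk_left _ _))
  · rintro ⟨hb, ha, e, he, hv⟩
    refine ⟨e, ⟨?_, he⟩, hv⟩
    rintro rfl
    rcases Sym2.mem_iff.1 hv with rfl | rfl
    · exact ha rfl
    · exact hb rfl

theorem IsM.insert {M : Finset (Sym2 V)} (hM : IsM G M) {a b : V} (hab : G.Adj a b)
    (ha : a ∉ cov M) (hb : b ∉ cov M) : IsM G (insert s(a, b) M) := by
  refine ⟨?_, ?_⟩
  · intro e he
    rcases mem_insert.1 he with rfl | he
    · exact hab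
    · exact hM.sub e he
  · intro e he f hf v hve hvf
    rcases mem_insert.1 he with rfl | he' <;> rcases mem_insert.1 hf with rfl | hf'
    · rfl
    · exfalso
      rcases Sym2.mem_iff.1 hve with rfl | rfl
      · exact ha (mem_cov.2 ⟨f, hf', hvf⟩)
      · exact hb (mem_cov.2 ⟨f, hf', hvf⟩)
    · exfalso
      rcases Sym2.mem_iff.1 hvf with rfl | rfl
      · exact ha (mem_cov.2 ⟨e, he', hve⟩)
      · exact hb (mem_cov.2 ⟨e, he', hve⟩)
    · exact hM.disj e he' f hf' v hve hvf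

theorem IsM.erase {M : Finset (Sym2 V)} (hM : IsM G M) (e : Sym2 V) : IsM G (M.erase e) :=
  hM.subset (erase_subset _ _)

theorem cov_union (M M' : Finset (Sym2 V)) : cov (M ∪ M') = cov M ∪ cov M' := by
  ext v
  simp only [mem_cov, mem_union]
  constructor
  · rintro ⟨e, he | he, hv⟩
    · exact Or.inl ⟨e, he, hv⟩
    · exact Or.inr ⟨e, he, hv⟩
  · rintro (⟨e, he, hv⟩ | ⟨e, he, hv⟩)
    · exact ⟨e, Or.inl he, hv⟩
    · exact ⟨e, Or.inr he, hv⟩

theorem IsM.union {M M' : Finset (Sym2 V)} (hM : IsM G M) (hM' : IsM G M')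
    (hd : Disjoint (cov M) (cov M')) : IsM G (M ∪ M') := by
  refine ⟨?_, ?_⟩
  · intro e he
    rcases mem_union.1 he with he | he
    · exact hM.sub e he
    · exact hM'.sub e he
  · intro e he f hf v hve hvf
    rcases mem_union.1 he with he | he <;> rcases mem_union.1 hf with hf | hf
    · exact hM.disj e he f hf v hve hvf
    · exfalso
      exact disjoint_left.1 hd (mem_cov.2 ⟨e, he, hve⟩) (mem_cov.2 ⟨f, hf, hvf⟩)
    · exfalso
      exact disjoint_left.1 hd (mem_cov.2 ⟨f, hf, hvf⟩) (mem_cov.2 ⟨e, he, hve⟩)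
    · exact hM'.disj e he f hf v hve hvf

/-- `M` is a maximal matching inside the vertex set `X`. -/
structure MaxM (G : SimpleGraph V) (X : Finset V) (M : Finset (Sym2 V)) : Prop where
  isM : IsM G M
  sub : cov M ⊆ X
  max : ∀ a ∈ X, ∀ b ∈ X, a ∉ cov M → b ∉ cov M → ¬ G.Adj a b

theorem exists_maxM (X : Finset V) {M : Finset (Sym2 V)} (hM : IsM G M) (hX : cov M ⊆ X) :
    ∃ M', M ⊆ M' ∧ MaxM G X M' := by
  classical
  let P : Finset (Finset (Sym2 V)) := univ.filter (fun N => M ⊆ N ∧ IsM G N ∧ cov N ⊆ X)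
  have hP : P.Nonempty := ⟨M, by simp [P, hM, hX]⟩
  obtain ⟨N, hN, hmax⟩ := exists_max_image P (fun N => N.card) hP
  simp only [P, mem_filter, mem_univ, true_and] at hN hmax
  refine ⟨N, hN.1, hN.2.1, hN.2.2, ?_⟩
  intro a ha b hb hac hbc hab
  have h1 := hmax (insert s(a, b) N) ⟨hN.1.trans (subset_insert _ _), hN.2.1.insert hab hac hbc, by
    rw [cov_insert]
    intro v hv
    simp only [mem_insert] at hv
    rcases hv with rfl | rfl | hv
    · exact ha
    · exact hb
    · exact hN.2.2 hv⟩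
  have h2 : s(a, b) ∉ N := fun h => hac (left_mem_cov h)
  rw [card_insert_of_notMem h2] at h1
  omega

/-- Cut-based connectivity of a vertex set. -/
def Conn (G : SimpleGraph V) (X : Finset V) : Prop :=
  ∀ Y ⊆ X, Y.Nonempty → Y ≠ X → ∃ a ∈ Y, ∃ b ∈ X, b ∉ Y ∧ G.Adj a b

theorem conn_singleton (v : V) : Conn G {v} := by
  intro Y hY hne hYX
  exfalso
  rcases subset_singleton_iff.1 hY with h | h
  · exact hne.ne_empty h
  · exact hYX h

theorem Conn.insert {X : Finset V} (hX : Conn G X) {v w : V} (hw : w ∈ X) (hvw : G.Adj v w) :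
    Conn G (insert v X) := by
  by_cases hvX : v ∈ X
  · rwa [insert_eq_of_mem hvX]
  intro Y hY hne hYX
  by_cases hvY : v ∈ Y
  · by_cases hwY : w ∈ Y
    · -- Y ∩ X is a nonempty subset of X
      have h1 : Y.erase v ⊆ X := by
        intro a ha
        rw [mem_erase] at ha
        rcases mem_insert.1 (hY ha.2) with h | h
        · exact absurd h ha.1
        · exact h
      have h2 : (Y.erase v).Nonempty := ⟨w, by
        rw [mem_erase]
        exact ⟨hvw.ne', hwY⟩⟩
      have h3 : Y.erase v ≠ X := by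
        intro h
        apply hYX
        rw [← h, insert_erase hvY]
      obtain ⟨a, ha, b, hb, hbY, hab⟩ := hX _ h1 h2 h3
      refine ⟨a, mem_of_mem_erase ha, b, mem_insert_of_mem hb, ?_, hab⟩
      intro hbY'
      apply hbY
      rw [mem_erase]
      exact ⟨fun h => hvX (h ▸ hb), hbY'⟩
    · exact ⟨v, hvY, w, mem_insert_of_mem hw, hwY, hvw⟩
  · have h1 : Y ⊆ X := by
      intro a ha
      rcases mem_insert.1 (hY ha) with h | h
      · exact absurd (h ▸ ha) hvY
      · exact h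
    by_cases h2 : Y = X
    · subst h2
      exact ⟨w, hw, v, mem_insert_self _ _, hvY, hvw.symm⟩
    · obtain ⟨a, ha, b, hb, hbY, hab⟩ := hX _ h1 hne h2
      exact ⟨a, ha, b, mem_insert_of_mem hb, hbY, hab⟩

/-- A set closed under adjacency inside `Z`. -/
def Closed (G : SimpleGraph V) (Z C : Finset V) : Prop :=
  ∀ a ∈ C, ∀ b ∈ Z, G.Adj a b → b ∈ C

open Classical in
/-- The component of `z` in the vertex set `Z`. -/
noncomputable def comp (G : SimpleGraph V) (Z : Finset V) (z : V) : Finset V :=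
  @Finset.filter V (fun w => ∀ C ⊆ Z, z ∈ C → Closed G Z C → w ∈ C) (Classical.decPred _) Z

theorem comp_subset (Z : Finset V) (z : V) : comp G Z z ⊆ Z := by
  intro w hw
  simp only [comp, mem_filter] at hw
  exact hw.1

theorem mem_comp_self {Z : Finset V} {z : V} (hz : z ∈ Z) : z ∈ comp G Z z := by
  classical
  simp only [comp, mem_filter]
  exact ⟨hz, fun C _ h _ => h⟩

theorem comp_closed (Z : Finset V) (z : V) : Closed G Z (comp G Z z) := by
  classical
  intro a ha b hb hab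
  simp only [comp, mem_filter] at ha ⊢
  exact ⟨hb, fun C hC hzC hcl => hcl a (ha.2 C hC hzC hcl) b hb hab⟩

theorem comp_minimal {Z C : Finset V} {z : V} (hC : C ⊆ Z) (hz : z ∈ C) (hcl : Closed G Z C) :
    comp G Z z ⊆ C := by
  classical
  intro w hw
  simp only [comp, mem_filter] at hw
  exact hw.2 C hC hz hcl

theorem Closed.symm_compl {Z C : Finset V} (hcl : Closed G Z C) (hC : C ⊆ Z) :
    Closed G Z (Z \ C) := by
  intro a ha b hb hab
  rw [mem_sdiff] at ha ⊢
  refine ⟨hb, fun hbC => ha.2 (hcl b hbC a ha.1 hab.symm)⟩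

theorem comp_conn {Z : Finset V} {z : V} (hz : z ∈ Z) : Conn G (comp G Z z) := by
  classical
  intro Y hY hne hYne
  by_contra hcon
  push Not at hcon
  -- Y is closed in Z
  have hYZ : Y ⊆ Z := hY.trans (comp_subset Z z)
  have hYcl : Closed G Z Y := by
    intro a ha b hb hab
    by_contra hbY
    exact hcon a ha b (comp_closed Z z a (hY ha) b hb hab) hbY hab
  by_cases hzY : z ∈ Y
  · exact hYne (Subset.antisymm hY (comp_minimal hYZ hzY hYcl))
  · have h1 : Closed G Z (comp G Z z \ Y) := by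
      intro a ha b hb hab
      rw [mem_sdiff] at ha ⊢
      exact ⟨comp_closed Z z a ha.1 b hb hab, fun hbY => ha.2 (hYcl b hbY a
        (comp_subset Z z ha.1) hab.symm)⟩
    have h2 := comp_minimal (G := G) (sdiff_subset.trans (comp_subset Z z))
      (mem_sdiff.2 ⟨mem_comp_self hz, hzY⟩) h1
    obtain ⟨y, hy⟩ := hne
    exact (mem_sdiff.1 (h2 (hY hy))).2 hy

theorem comp_eq_of_mem {Z : Finset V} {z w : V} (hz : z ∈ Z) (hw : w ∈ comp G Z z) :
    comp G Z w = comp G Z z := by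
  have h1 : comp G Z w ⊆ comp G Z z :=
    comp_minimal (comp_subset Z z) hw (comp_closed Z z)
  apply Subset.antisymm h1
  by_contra hcon
  -- z ∉ comp w, otherwise equality
  have hwZ := comp_subset Z z hw
  by_cases hzw : z ∈ comp G Z w
  · exact hcon (comp_minimal (comp_subset Z w) hzw (comp_closed Z w))
  · have h2 : Closed G Z (comp G Z z \ comp G Z w) := by
      intro a ha b hb hab
      rw [mem_sdiff] at ha ⊢
      exact ⟨comp_closed Z z a ha.1 b hb hab, fun hbY => ha.2 (comp_closed Z w b hbY a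
        (comp_subset Z z ha.1) hab.symm)⟩
    have h3 := comp_minimal (G := G) (sdiff_subset.trans (comp_subset Z z))
      (mem_sdiff.2 ⟨mem_comp_self hz, hzw⟩) h2
    exact (mem_sdiff.1 (h3 hw)).2 (mem_comp_self hwZ)

end Pool.Agent.Lib_helper55.F4
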