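import Pool.Agent.Lib_helper55.F4Swap

set_option autoImplicit false
set_option linter.unusedSectionVars false
set_option linter.unusedVariables false
set_option linter.unusedSimpArgs false

namespace Pool.Agent.Lib_helper55.F4

open Finset

variable {V : Type*} [Fintype V] [DecidableEq V] {G : SimpleGraph V}

/-- Replace the part of the matching `M` inside `F` by `N`. -/
theorem replace {M N : Finset (Sym2 V)} (hM : IsM G M) {F : Finset V}
    (hcl : ∀ a b, s(a, b) ∈ M → a ∈ F → b ∈ F) (hN : IsM G N) (hNF : cov N ⊆ F) :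
    ∃ M', IsM G M' ∧ (∀ v, v ∈ cov M' ↔ (v ∈ cov M ∧ v ∉ F) ∨ v ∈ cov N) ∧
      (∀ a b, s(a, b) ∈ M' ↔ s(a, b) ∈ N ∨ (s(a, b) ∈ M ∧ a ∉ F)) := by
  classical
  let M1 : Finset (Sym2 V) := M.filter (fun e => ∀ v ∈ e, v ∉ F)
  have hmem : ∀ a b, s(a, b) ∈ M1 ↔ s(a, b) ∈ M ∧ a ∉ F := by
    intro a b
    simp only [M1, mem_filter, Sym2.mem_iff, forall_eq_or_imp, forall_eq]
    constructor
    · rintro ⟨h1, h2, -⟩
      exact ⟨h1, h2⟩
    · rintro ⟨h1, h2⟩
      exact ⟨h1, h2, fun h3 => h2 (hcl b a (by rw [Sym2.eq_swap]; exact h1) h3)⟩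
  have hcov1 : ∀ v, v ∈ cov M1 ↔ v ∈ cov M ∧ v ∉ F := by
    intro v
    rw [mem_cov', mem_cov']
    constructor
    · rintro ⟨w, hw⟩
      rw [hmem] at hw
      exact ⟨⟨w, hw.1⟩, hw.2⟩
    · rintro ⟨⟨w, hw⟩, hv⟩
      exact ⟨w, (hmem v w).2 ⟨hw, hv⟩⟩
  have hM1 : IsM G M1 := hM.subset (filter_subset _ _)
  have hd : Disjoint (cov M1) (cov N) := by
    rw [disjoint_left]
    intro v hv hv'
    exact ((hcov1 v).1 hv).2 (hNF hv')
  refine ⟨M1 ∪ N, hM1.union hN hd, ?_, ?_⟩
  · intro v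
    rw [cov_union, mem_union, hcov1]
  · intro a b
    rw [mem_union, hmem]
    tauto

/-- The local situation of the proof. -/
structure Loc (G : SimpleGraph V) (D : ℕ) (S R : Finset V) : Prop where
  hD : 3 ≤ D
  hdeg : ∀ v ∈ S, (nb G S v).card ≤ D
  hdegR : ∀ v ∈ R, (nb G S v).card + 1 ≤ D
  hRS : R ⊆ S
  hRne : R.Nonempty
  conn : ∀ C ⊆ S, C.Nonempty → (∀ a ∈ C, a ∉ R) → ∃ a ∈ C, ∃ b ∈ S, b ∉ C ∧ G.Adj a b
  key : ∀ y M, IsM G M → cov M ⊆ S → y ∈ S → y ∉ R → y ∉ cov M →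
    (∀ w ∈ S, G.Adj y w → w ∈ cov M) →
    ∀ v ∈ R, ∃ w, s(v, w) ∈ M ∧ (G.Adj v y ∨ G.Adj w y)

theorem case1 {D : ℕ} {S R : Finset V} (h : Loc G D S R) {u : V} (hR : R = {u}) :
    S.card ≤ 2 * (D - 1) ^ 2 + 1 := by
  classical
  have huR : u ∈ R := by rw [hR]; exact mem_singleton_self u
  have huS : u ∈ S := h.hRS huR
  set S' : Finset V := S.erase u with hS'
  set E : Finset V := nb G S u with hE
  have hmemS' : ∀ v, v ∈ S' ↔ v ≠ u ∧ v ∈ S := by intro v; rw [hS', mem_erase]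
  have hmemE : ∀ v, v ∈ E ↔ v ∈ S ∧ G.Adj u v := by intro v; rw [hE, mem_nb]
  have hEcard : E.card + 1 ≤ D := h.hdegR u huR
  have hES' : ∀ v ∈ E, v ∈ S' := by
    intro v hv
    rw [hmemE] at hv
    rw [hmemS']
    exact ⟨hv.2.ne', hv.1⟩
  -- a maximum matching of S'
  obtain ⟨M0, hM0, hsub0, hmax0⟩ : ∃ M0, IsM G M0 ∧ cov M0 ⊆ S' ∧
      ∀ M', IsM G M' → cov M' ⊆ S' → (cov M').card ≤ (cov M0).card := by
    let P : Finset (Finset (Sym2 V)) := univ.filter (fun N => IsM G N ∧ cov N ⊆ S')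
    have hP : P.Nonempty := ⟨∅, by simp [P, isM_empty, cov_empty]⟩
    obtain ⟨N, hN, hmax⟩ := exists_max_image P (fun N => (cov N).card) hP
    simp only [P, mem_filter, mem_univ, true_and] at hN hmax
    exact ⟨N, hN.1, hN.2, fun M' h1 h2 => hmax M' ⟨h1, h2⟩⟩
  -- (1.1)
  have key1 : ∀ M', IsM G M' → cov M' ⊆ S' → ∀ y ∈ S', y ∉ E → y ∉ cov M' →
      ∃ w ∈ S', G.Adj y w ∧ w ∉ cov M' := by
    intro M' hM' hsub y hy hyE hyc
    by_contra hcon
    push Not at hcon
    have hyS := (hmemS' y).1 hy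
    have hyR : y ∉ R := by rw [hR, mem_singleton]; exact hyS.1
    have hcl : ∀ w ∈ S, G.Adj y w → w ∈ cov M' := by
      intro w hw hyw
      apply hcon w _ hyw
      rw [hmemS']
      refine ⟨?_, hw⟩
      rintro rfl
      exact hyE ((hmemE y).2 ⟨hyS.2, hyw.symm⟩)
    obtain ⟨w, hw, -⟩ := h.key y M' hM' (hsub.trans (erase_subset _ _)) hyS.2 hyR hyc hcl u huR
    exact ((hmemS' u).1 (hsub (left_mem_cov hw))).1 rfl
  -- maximum implies no edge between uncovered vertices
  have hmaxl : ∀ M', IsM G M' → cov M' ⊆ S' → (cov M').card = (cov M0).card →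
      ∀ a ∈ S', ∀ b ∈ S', a ∉ cov M' → b ∉ cov M' → ¬ G.Adj a b := by
    intro M' hM' hsub hcard a ha b hb hac hbc hab
    have h1 := hmax0 (insert s(a, b) M') (hM'.insert hab hac hbc) (by
      rw [cov_insert]
      intro v hv
      simp only [mem_insert] at hv
      rcases hv with rfl | rfl | hv
      · exact ha
      · exact hb
      · exact hsub hv)
    rw [cov_insert, card_insert_of_notMem, card_insert_of_notMem hbc] at h1
    · omega
    · rw [mem_insert]
      rintro (h2 | h2)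
      · exact hab.ne h2
      · exact hac h2
  -- (1.2)
  have h12 : ∀ y ∈ S', y ∉ cov M0 → y ∈ E := by
    intro y hy hyc
    by_contra hyE
    obtain ⟨w, hw, hyw, hwc⟩ := key1 M0 hM0 hsub0 y hy hyE hyc
    exact hmaxl M0 hM0 hsub0 rfl y hy w hw hyc hwc hyw
  -- (1.3)
  have h13 : ∀ z z', s(z, z') ∈ M0 → z' ∉ E → ∀ w ∈ S', w ∉ cov M0 → ¬ G.Adj z w := by
    intro z z' hz hz'E w hw hwc hzw
    have hM1 := hM0.erase s(z, z')
    have hcz : ∀ v, v ∈ cov (M0.erase s(z, z')) ↔ v ∈ cov M0 ∧ v ≠ z ∧ v ≠ z' := by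
      intro v
      rw [cov_erase hM0 hz]
      simp only [mem_erase]
      tauto
    have hz1 : z ∉ cov (M0.erase s(z, z')) := by rw [hcz]; tauto
    have hw1 : w ∉ cov (M0.erase s(z, z')) := by rw [hcz]; tauto
    have hM2 := hM1.insert hzw hz1 hw1
    have hzz' := hM0.ne hz
    have hwz : w ≠ z := hzw.ne'
    have hz'w : z' ≠ w := by
      rintro rfl
      exact hwc (right_mem_cov hz)
    have hc2 : cov (insert s(z, w) (M0.erase s(z, z'))) = insert w ((cov M0).erase z') := by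
      ext v
      rw [cov_insert]
      simp only [mem_insert, mem_erase, hcz]
      constructor
      · rintro (rfl | rfl | hv)
        · exact Or.inr ⟨hzz', left_mem_cov hz⟩
        · exact Or.inl rfl
        · exact Or.inr ⟨hv.2.2, hv.1⟩
      · rintro (rfl | ⟨h1, h2⟩)
        · exact Or.inr (Or.inl rfl)
        · by_cases hvz : v = z
          · exact Or.inl hvz
          · exact Or.inr (Or.inr ⟨h2, hvz, h1⟩)
    have hsub2 : cov (insert s(z, w) (M0.erase s(z, z'))) ⊆ S' := by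
      rw [hc2]
      intro v hv
      rcases mem_insert.1 hv with rfl | hv
      · exact hw
      · exact hsub0 (mem_of_mem_erase hv)
    have hcard2 : (cov (insert s(z, w) (M0.erase s(z, z')))).card = (cov M0).card := by
      rw [hc2, card_insert_of_notMem, card_erase_of_mem (right_mem_cov hz)]
      · have := card_pos.2 ⟨z', right_mem_cov hz⟩
        omega
      · rw [mem_erase]
        exact fun h => hwc h.2
    have hz'S : z' ∈ S' := hsub0 (right_mem_cov hz)
    have hz'c : z' ∉ cov (insert s(z, w) (M0.erase s(z, z'))) := by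
      rw [hc2, mem_insert, mem_erase]
      rintro (h1 | h1)
      · exact hz'w h1
      · exact h1.1 rfl
    obtain ⟨w2, hw2, hzw2, hw2c⟩ := key1 _ hM2 hsub2 z' hz'S hz'E hz'c
    exact hmaxl _ hM2 hsub2 hcard2 z' hz'S w2 hw2 hz'c hw2c hzw2
  -- clean vertices
  set Z : Finset V := (cov M0).filter (fun z => z ∉ E ∧ ∀ z', s(z, z') ∈ M0 → z' ∉ E) with hZ
  have hmemZ : ∀ z, z ∈ Z ↔ z ∈ cov M0 ∧ z ∉ E ∧ ∀ z', s(z, z') ∈ M0 → z' ∉ E := by
    intro z; rw [hZ, mem_filter]
  have hZpart : ∀ z z', s(z, z') ∈ M0 → z ∈ Z → z' ∈ Z := by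
    intro z z' hz hzZ
    rw [hmemZ] at hzZ ⊢
    refine ⟨right_mem_cov hz, hzZ.2.2 z' hz, ?_⟩
    intro z'' hz''
    have : z = z'' := hM0.uniq (a := z') (by rw [Sym2.eq_swap]; exact hz) hz''
    rw [← this]
    exact hzZ.2.1
  have hZS : ∀ z ∈ Z, z ∈ S' := fun z hz => hsub0 ((hmemZ z).1 hz).1
  have hZU : ∀ z ∈ Z, ∀ w ∈ S', w ∉ cov M0 → ¬ G.Adj z w := by
    intro z hz w hw hwc
    obtain ⟨z', hz'⟩ := mem_cov'.1 ((hmemZ z).1 hz).1
    exact h13 z z' hz' (((hmemZ z).1 hz).2.2 z' hz') w hw hwc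
  have hcomppart : ∀ z ∈ Z, ∀ a b, s(a, b) ∈ M0 → a ∈ comp G Z z → b ∈ comp G Z z := by
    intro z hz a b hab ha
    exact comp_closed Z z a ha b (hZpart a b hab (comp_subset Z z ha)) (hM0.adj hab)
  -- (1.4)
  have h14 : ∀ z ∈ Z, ∀ N, MaxM G (comp G Z z) N → cov N = comp G Z z := by
    intro z hz N hN
    apply Subset.antisymm hN.sub
    intro y hy
    by_contra hyc
    obtain ⟨M', hM', hcov', -⟩ := replace hM0 (hcomppart z hz) hN.isM hN.sub
    have hyZ := comp_subset Z z hy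
    have hsub' : cov M' ⊆ S' := by
      intro v hv
      rcases (hcov' v).1 hv with hv | hv
      · exact hsub0 hv.1
      · exact hZS v (comp_subset Z z (hN.sub hv))
    have hyc' : y ∉ cov M' := by
      rw [hcov']
      tauto
    obtain ⟨w, hw, hyw, hwc⟩ := key1 M' hM' hsub' y (hZS y hyZ) ((hmemZ y).1 hyZ).2.1 hyc'
    rw [hcov'] at hwc
    push Not at hwc
    by_cases hwF : w ∈ comp G Z z
    · exact hN.max y hy w hwF hyc hwc.2 hyw
    · have : w ∉ cov M0 := fun h1 => hwF (hwc.1 h1)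
      exact hZU y hyZ w hw this hyw
  -- (1.5)
  have h15 : ∀ z ∈ Z, ∀ c ∈ comp G Z z, ∀ e ∈ S', e ∉ comp G Z z → G.Adj c e →
      ∀ e', s(e, e') ∈ M0 → ∀ c' ∈ nb G (comp G Z z) c, G.Adj c' e' := by
    intro z hz c hc e he heF hce e' hee' c' hc'
    rw [mem_nb] at hc'
    have hs : IsM G ({s(c, c')} : Finset (Sym2 V)) := by
      have := (isM_empty (G := G)).insert hc'.2 (by rw [cov_empty]; simp) (by rw [cov_empty]; simp)
      simpa using this
    have hcs : cov ({s(c, c')} : Finset (Sym2 V)) ⊆ comp G Z z := by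
      have : ({s(c, c')} : Finset (Sym2 V)) = insert s(c, c') ∅ := by simp
      rw [this, cov_insert, cov_empty]
      intro v hv
      simp only [mem_insert, notMem_empty, or_false] at hv
      rcases hv with rfl | rfl
      · exact hc
      · exact hc'.1
    obtain ⟨N, hsN, hN⟩ := exists_maxM _ hs hcs
    have hNcov := h14 z hz N hN
    obtain ⟨M1, hM1, hcov1, hmem1⟩ := replace hM0 (hcomppart z hz) hN.isM hN.sub
    have hcov1' : ∀ v, v ∈ cov M1 ↔ v ∈ cov M0 := by
      intro v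
      rw [hcov1, hNcov]
      constructor
      · rintro (h1 | h1)
        · exact h1.1
        · exact ((hmemZ v).1 (comp_subset Z z h1)).1
      · intro h1
        by_cases h2 : v ∈ comp G Z z
        · exact Or.inr h2
        · exact Or.inl ⟨h1, h2⟩
    have e'F : e' ∉ comp G Z z := by
      intro h1
      exact heF (hcomppart z hz e' e (by rw [Sym2.eq_swap]; exact hee') h1)
    have hcc' : s(c', c) ∈ M1 := by
      rw [hmem1, Sym2.eq_swap]
      exact Or.inl (hsN (mem_singleton_self _))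
    have he'e : s(e', e) ∈ M1 := by
      rw [hmem1]
      refine Or.inr ⟨?_, e'F⟩
      rw [Sym2.eq_swap]; exact hee'
    have hne : s(c', c) ≠ s(e', e) := by
      intro h1
      rcases Sym2.eq_iff.1 h1 with ⟨h2, h3⟩ | ⟨h2, h3⟩
      · exact e'F (h2 ▸ hc'.1)
      · exact heF (h2 ▸ hc'.1)
    obtain ⟨M', hM', hcov', -⟩ := swap2 hM1 hcc' he'e hne hce
    have hsub' : cov M' ⊆ S' := by
      intro v hv
      rw [hcov', hcov1'] at hv
      exact hsub0 hv.1
    have hc'Z := comp_subset Z z hc'.1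
    have hc'c : c' ∉ cov M' := by rw [hcov']; tauto
    obtain ⟨w, hw, hcw, hwc⟩ := key1 M' hM' hsub' c' (hZS c' hc'Z) ((hmemZ c').1 hc'Z).2.1 hc'c
    rw [hcov', hcov1'] at hwc
    by_cases h1 : w ∈ cov M0
    · have h2 : w = c' ∨ w = e' := by tauto
      rcases h2 with rfl | rfl
      · exact absurd hcw (G.irrefl)
      · exact hcw
    · exact absurd hcw (hZU c' hc'Z w hw h1)
  -- (1.6)
  have h16 : ∀ z1 ∈ Z, ∀ z2 ∈ Z, comp G Z z1 ≠ comp G Z z2 → ∀ c1 ∈ comp G Z z1,
      ∀ c2 ∈ comp G Z z2, ∀ e e', s(e, e') ∈ M0 → e ∉ Z → G.Adj c1 e → G.Adj c2 e' → False := by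
    intro z1 hz1 z2 hz2 hne c1 hc1 c2 hc2 e e' hee' heZ h1 h2
    have hc1Z := comp_subset Z z1 hc1
    have hc2Z := comp_subset Z z2 hc2
    have he'Z : e' ∉ Z := fun h3 => heZ (hZpart e' e (by rw [Sym2.eq_swap]; exact hee') h3)
    obtain ⟨c1', hc1'⟩ := mem_cov'.1 ((hmemZ c1).1 hc1Z).1
    obtain ⟨c2', hc2'⟩ := mem_cov'.1 ((hmemZ c2).1 hc2Z).1
    have hc1'F := hcomppart z1 hz1 c1 c1' hc1' hc1
    have hc2'F := hcomppart z2 hz2 c2 c2' hc2' hc2
    have hc1'Z := comp_subset Z z1 hc1'F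
    have hc2'Z := comp_subset Z z2 hc2'F
    have hdisj : ∀ v, v ∈ comp G Z z1 → v ∈ comp G Z z2 → False := by
      intro v hv1 hv2
      exact hne ((comp_eq_of_mem hz1 hv1).symm.trans (comp_eq_of_mem hz2 hv2))
    have hs1 : s(c1', c1) ∈ M0 := by rw [Sym2.eq_swap]; exact hc1'
    have hs2 : s(c2', c2) ∈ M0 := by rw [Sym2.eq_swap]; exact hc2'
    have n1 : s(c1', c1) ≠ s(e, e') := by
      intro h3
      rcases Sym2.eq_iff.1 h3 with ⟨h4, h5⟩ | ⟨h4, h5⟩
      · exact heZ (h4 ▸ hc1'Z)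
      · exact heZ (h5 ▸ hc1Z)
    have n2 : s(c1', c1) ≠ s(c2', c2) := by
      intro h3
      rcases Sym2.eq_iff.1 h3 with ⟨h4, h5⟩ | ⟨h4, h5⟩
      · exact hdisj c1 hc1 (h5 ▸ hc2)
      · exact hdisj c1 hc1 (h5 ▸ hc2'F)
    have n3 : s(e, e') ≠ s(c2', c2) := by
      intro h3
      rcases Sym2.eq_iff.1 h3 with ⟨h4, h5⟩ | ⟨h4, h5⟩
      · exact heZ (h4 ▸ hc2'Z)
      · exact heZ (h4 ▸ hc2Z)
    obtain ⟨M', hM', hcov'⟩ := swap3 hM0 hs1 hee' hs2 n1 n2 n3 h1 h2.symm
    have hsub' : cov M' ⊆ S' := by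
      intro v hv
      rw [hcov'] at hv
      exact hsub0 hv.1
    have hc'c : c1' ∉ cov M' := by rw [hcov']; tauto
    obtain ⟨w, hw, hcw, hwc⟩ := key1 M' hM' hsub' c1' (hZS c1' hc1'Z)
      ((hmemZ c1').1 hc1'Z).2.1 hc'c
    rw [hcov'] at hwc
    by_cases h1 : w ∈ cov M0
    · have h2 : w = c1' ∨ w = c2' := by tauto
      rcases h2 with rfl | rfl
      · exact absurd hcw (G.irrefl)
      · exact hdisj _ (comp_closed Z z1 c1' hc1'F _ hc2'Z hcw) hc2'F
    · exact absurd hcw (hZU c1' hc1'Z w hw h1)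
  -- the covering family
  let T : V → Finset V := fun e => insert e (S'.filter (fun v => s(e, v) ∈ M0) ∪
    Z.filter (fun z => ∃ c ∈ comp G Z z, G.Adj c e))
  have hpcard : ∀ e, (S'.filter (fun v => s(e, v) ∈ M0)).card ≤ 1 := by
    intro e
    rw [card_le_one]
    intro a ha b hb
    rw [mem_filter] at ha hb
    exact hM0.uniq ha.2 hb.2
  have hD := h.hD
  have hTcard : ∀ e ∈ E, (T e).card ≤ 2 * (D - 1) := by
    intro e he
    by_cases hQ : (Z.filter (fun z => ∃ c ∈ comp G Z z, G.Adj c e)) = ∅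
    · have h1 : (T e).card ≤ 2 := by
        simp only [T, hQ, union_empty]
        have := card_insert_le e (S'.filter (fun v => s(e, v) ∈ M0))
        have := hpcard e
        omega
      omega
    · obtain ⟨z, hz⟩ := nonempty_iff_ne_empty.2 hQ
      rw [mem_filter] at hz
      obtain ⟨hzZ, c, hc, hce⟩ := hz
      have heZ : e ∉ Z := fun h1 => ((hmemZ e).1 h1).2.1 he
      have heS' := hES' e he
      have heF : e ∉ comp G Z z := fun h1 => heZ (comp_subset Z z h1)
      have hecov : e ∈ cov M0 := by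
        by_contra h1
        exact hZU c (comp_subset Z z hc) e heS' h1 hce
      obtain ⟨e', hee'⟩ := mem_cov'.1 hecov
      have he'e : s(e', e) ∈ M0 := by rw [Sym2.eq_swap]; exact hee'
      obtain ⟨c', hcc'⟩ := mem_cov'.1 ((hmemZ c).1 (comp_subset Z z hc)).1
      have hc'F := hcomppart z hzZ c c' hcc' hc
      have hc'e' : G.Adj c' e' := h15 z hzZ c hc e heS' heF hce e' hee' c'
        (mem_nb.2 ⟨hc'F, hM0.adj hcc'⟩)
      have he'Z : e' ∉ Z := fun h3 => heZ (hZpart e' e he'e h3)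
      have he'F : e' ∉ comp G Z z := fun h1 => he'Z (comp_subset Z z h1)
      have he'S' : e' ∈ S' := hsub0 (right_mem_cov hee')
      -- Q e ⊆ F
      have hQF : Z.filter (fun z => ∃ c ∈ comp G Z z, G.Adj c e) ⊆ comp G Z z := by
        intro z2 hz2
        rw [mem_filter] at hz2
        obtain ⟨hz2Z, c2, hc2, hc2e⟩ := hz2
        by_contra hz2F
        have hne : comp G Z z ≠ comp G Z z2 := by
          intro h1
          exact hz2F (h1 ▸ mem_comp_self hz2Z)
        obtain ⟨c2', hc2'⟩ := mem_cov'.1 ((hmemZ c2).1 (comp_subset Z z2 hc2)).1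
        have hc2'F := hcomppart z2 hz2Z c2 c2' hc2' hc2
        have heF2 : e ∉ comp G Z z2 := fun h1 => heZ (comp_subset Z z2 h1)
        have h2 : G.Adj c2' e' := h15 z2 hz2Z c2 hc2 e heS' heF2 hc2e e' hee' c2'
          (mem_nb.2 ⟨hc2'F, hM0.adj hc2'⟩)
        exact h16 z hzZ z2 hz2Z hne c hc c2' hc2'F e e' hee' heZ hce h2
      -- |F| ≤ 2 (D - 2)
      have hFcard : (comp G Z z).card ≤ 2 * (nb G (comp G Z z) c').card :=
        sumner (comp_conn hzZ) (h14 z hzZ) hc'F
      have hnb : nb G (comp G Z z) c' ⊆ nb G (comp G Z z) e := by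
        intro c'' hc''
        have := h15 z hzZ c' hc'F e' he'S' he'F hc'e' e he'e c'' hc''
        exact mem_nb.2 ⟨(mem_nb.1 hc'').1, this.symm⟩
      have hue : G.Adj u e := ((hmemE e).1 he).2
      have hnb2 : (nb G (comp G Z z) e).card + 2 ≤ (nb G S e).card := by
        have h1 : insert u (insert e' (nb G (comp G Z z) e)) ⊆ nb G S e := by
          intro v hv
          simp only [mem_insert] at hv
          rcases hv with rfl | rfl | hv
          · exact mem_nb.2 ⟨huS, hue.symm⟩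
          · exact mem_nb.2 ⟨((hmemS' _).1 he'S').2, hM0.adj hee'⟩
          · rw [mem_nb] at hv ⊢
            exact ⟨((hmemS' _).1 (hZS v (comp_subset Z z hv.1))).2, hv.2⟩
        have h2 := card_le_card h1
        rw [card_insert_of_notMem, card_insert_of_notMem] at h2
        · exact h2
        · rw [mem_nb]
          exact fun h3 => he'F h3.1
        · rw [mem_insert, mem_nb]
          rintro (h3 | h3)
          · exact ((hmemS' _).1 he'S').1 h3.symm
          · exact ((hmemS' u).1 (hZS u (comp_subset Z z h3.1))).1 rfl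
      have hdeg := h.hdeg e ((hmemS' e).1 heS').2
      have h3 := card_le_card hnb
      have h4 := card_le_card hQF
      have h5 : (T e).card ≤ 1 + (1 + (Z.filter (fun z => ∃ c ∈ comp G Z z, G.Adj c e)).card) := by
        simp only [T]
        have h6 := card_insert_le e (S'.filter (fun v => s(e, v) ∈ M0) ∪
          Z.filter (fun z => ∃ c ∈ comp G Z z, G.Adj c e))
        have h7 := card_union_le (S'.filter (fun v => s(e, v) ∈ M0))
          (Z.filter (fun z => ∃ c ∈ comp G Z z, G.Adj c e))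
        have h8 := hpcard e
        omega
      omega
  have hcover : S' ⊆ E.biUnion T := by
    intro v hv
    rw [mem_biUnion]
    by_cases hvc : v ∈ cov M0
    · by_cases hvZ : v ∈ Z
      · -- component of v
        have hCS : comp G Z v ⊆ S := by
          intro w hw
          exact ((hmemS' w).1 (hZS w (comp_subset Z v hw))).2
        have hCR : ∀ a ∈ comp G Z v, a ∉ R := by
          intro a ha
          rw [hR, mem_singleton]
          exact ((hmemS' a).1 (hZS a (comp_subset Z v ha))).1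
        obtain ⟨c, hc, b, hb, hbF, hcb⟩ := h.conn _ hCS ⟨v, mem_comp_self hvZ⟩ hCR
        have hcZ := comp_subset Z v hc
        have hbu : b ≠ u := by
          rintro rfl
          exact ((hmemZ c).1 hcZ).2.1 ((hmemE c).2 ⟨hCS hc, hcb.symm⟩)
        have hbS' : b ∈ S' := (hmemS' b).2 ⟨hbu, hb⟩
        have hbcov : b ∈ cov M0 := by
          by_contra h1
          exact hZU c hcZ b hbS' h1 hcb
        have hbZ : b ∉ Z := fun h1 => hbF (comp_closed Z v c hc b h1 hcb)
        by_cases hbE : b ∈ E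
        · refine ⟨b, hbE, ?_⟩
          simp only [T, mem_insert, mem_union, mem_filter]
          exact Or.inr (Or.inr ⟨hvZ, c, hc, hcb⟩)
        · have h1 : ∃ b', s(b, b') ∈ M0 ∧ b' ∈ E := by
            by_contra h2
            push Not at h2
            exact hbZ ((hmemZ b).2 ⟨hbcov, hbE, h2⟩)
          obtain ⟨b', hbb', hb'E⟩ := h1
          refine ⟨b', hb'E, ?_⟩
          obtain ⟨c', hcc'⟩ := mem_cov'.1 ((hmemZ c).1 hcZ).1
          have hc'F := hcomppart v hvZ c c' hcc' hc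
          have hc'b' : G.Adj c' b' := h15 v hvZ c hc b hbS' hbF hcb b' hbb' c'
            (mem_nb.2 ⟨hc'F, hM0.adj hcc'⟩)
          simp only [T, mem_insert, mem_union, mem_filter]
          exact Or.inr (Or.inr ⟨hvZ, c', hc'F, hc'b'⟩)
      · by_cases hvE : v ∈ E
        · exact ⟨v, hvE, by simp [T]⟩
        · have h1 : ∃ v', s(v, v') ∈ M0 ∧ v' ∈ E := by
            by_contra h2
            push Not at h2
            exact hvZ ((hmemZ v).2 ⟨hvc, hvE, h2⟩)
          obtain ⟨v', hvv', hv'E⟩ := h1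
          refine ⟨v', hv'E, ?_⟩
          simp only [T, mem_insert, mem_union, mem_filter]
          refine Or.inr (Or.inl ⟨hv, ?_⟩)
          rw [Sym2.eq_swap]; exact hvv'
    · exact ⟨v, h12 v hv hvc, by simp [T]⟩
  have h1 := card_le_card hcover
  have h2 := card_biUnion_le_card_mul E T (2 * (D - 1)) hTcard
  have h3 : S'.card + 1 = S.card := card_erase_add_one huS
  obtain ⟨d, rfl⟩ : ∃ d, D = d + 1 := ⟨D - 1, by omega⟩
  have h4 : E.card * (2 * (d + 1 - 1)) ≤ d * (2 * (d + 1 - 1)) :=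
    Nat.mul_le_mul_right _ (by omega)
  simp only [Nat.add_sub_cancel] at h1 h2 h3 h4 ⊢
  nlinarith

end Pool.Agent.Lib_helper55.F4
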