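import Pool.Agent.Lib_helper55.F4Case1

set_option autoImplicit false
set_option linter.unusedSectionVars false
set_option linter.unusedVariables false
set_option linter.unusedSimpArgs false

namespace Pool.Agent.Lib_helper55.F4

open Finset

variable {V : Type*} [Fintype V] [DecidableEq V] {G : SimpleGraph V}

/-- Summing a bound over the components of `Z`. -/
theorem sum_comp {Z : Finset V} {v : V}
    (h : ∀ z ∈ Z, (comp G Z z).card ≤ 2 * (nb G (comp G Z z) v).card) :
    Z.card ≤ 2 * (nb G Z v).card := by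
  classical
  have h1 : Z.card = ∑ F ∈ Z.image (comp G Z), (Z.filter (fun z => comp G Z z = F)).card :=
    card_eq_sum_card_fiberwise (fun x hx => mem_image_of_mem _ hx)
  have h2 : (nb G Z v).card =
      ∑ F ∈ Z.image (comp G Z), ((nb G Z v).filter (fun z => comp G Z z = F)).card :=
    card_eq_sum_card_fiberwise (fun x hx => mem_image_of_mem _ (mem_nb.1 hx).1)
  rw [h1, h2, mul_sum]
  apply sum_le_sum
  intro F hF
  obtain ⟨z, hz, rfl⟩ := mem_image.1 hF
  have h3 : Z.filter (fun w => comp G Z w = comp G Z z) ⊆ comp G Z z := by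
    intro w hw
    rw [mem_filter] at hw
    rw [← hw.2]
    exact mem_comp_self hw.1
  have h4 : nb G (comp G Z z) v ⊆ (nb G Z v).filter (fun w => comp G Z w = comp G Z z) := by
    intro w hw
    rw [mem_nb] at hw
    rw [mem_filter, mem_nb]
    exact ⟨⟨comp_subset Z z hw.1, hw.2⟩, comp_eq_of_mem hz hw.1⟩
  exact (card_le_card h3).trans ((h z hz).trans (Nat.mul_le_mul_left 2 (card_le_card h4)))

theorem case2 {D : ℕ} {S R : Finset V} (h : Loc G D S R) {u1 v1 : V} (hu1 : u1 ∈ R)
    (hv1 : v1 ∈ R) (huv1 : u1 ≠ v1) {M : Finset (Sym2 V)} (hM : IsM G M) (hMS : cov M ⊆ S)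
    (hind : ∀ a ∈ S, ∀ b ∈ S, a ∉ cov M → b ∉ cov M → ¬ G.Adj a b)
    (hRM : R ⊆ cov M)
    (hne : ∃ x ∈ S, x ∉ cov M)
    (hopt : ∀ M', IsM G M' → cov M' ⊆ S → R ⊆ cov M' →
      (∀ a ∈ S, ∀ b ∈ S, a ∉ cov M' → b ∉ cov M' → ¬ G.Adj a b) → (cov M).card ≤ (cov M').card) :
    S.card ≤ (2 * (D - 1) ^ 2 + 1) * (S \ cov M).card := by
  classical
  set A : Finset V := S \ cov M with hA
  have hmemA : ∀ x, x ∈ A ↔ x ∈ S ∧ x ∉ cov M := by intro x; rw [hA, mem_sdiff]
  set B : Finset V := S.filter (fun b => ∃ x ∈ A, G.Adj x b) with hB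
  have hmemB : ∀ b, b ∈ B ↔ b ∈ S ∧ ∃ x ∈ A, G.Adj x b := by intro b; rw [hB, mem_filter]
  obtain ⟨x0, hx0S, hx0c⟩ := hne
  have hx0A : x0 ∈ A := (hmemA x0).2 ⟨hx0S, hx0c⟩
  have hBcov : ∀ b ∈ B, b ∈ cov M := by
    intro b hb
    obtain ⟨hbS, x, hx, hxb⟩ := (hmemB b).1 hb
    by_contra hbc
    exact hind x ((hmemA x).1 hx).1 b hbS ((hmemA x).1 hx).2 hbc hxb
  have hAR : ∀ x ∈ A, x ∉ R := fun x hx hxR => ((hmemA x).1 hx).2 (hRM hxR)
  -- key for x in A
  have keyA : ∀ x ∈ A, ∀ v ∈ R, ∃ w, s(v, w) ∈ M ∧ (G.Adj v x ∨ G.Adj w x) := by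
    intro x hx
    apply h.key x M hM hMS ((hmemA x).1 hx).1 (hAR x hx) ((hmemA x).1 hx).2
    intro w hw hxw
    exact hBcov w ((hmemB w).2 ⟨hw, x, hx, hxw⟩)
  have hRB : ∀ v ∈ R, ∀ w, s(v, w) ∈ M → v ∈ B ∨ w ∈ B := by
    intro v hv w hvw
    obtain ⟨w', hvw', hadj⟩ := keyA x0 hx0A v hv
    have : w = w' := hM.uniq hvw hvw'
    subst this
    rcases hadj with h1 | h1
    · exact Or.inl ((hmemB v).2 ⟨h.hRS hv, x0, hx0A, h1.symm⟩)
    · exact Or.inr ((hmemB w).2 ⟨hMS (right_mem_cov hvw), x0, hx0A, h1.symm⟩)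
  -- clean vertices
  set Z : Finset V := (cov M).filter (fun z => (z ∉ B ∧ z ∉ R) ∧
    ∀ z', s(z, z') ∈ M → z' ∉ B ∧ z' ∉ R) with hZ
  have hmemZ : ∀ z, z ∈ Z ↔ z ∈ cov M ∧ (z ∉ B ∧ z ∉ R) ∧
    ∀ z', s(z, z') ∈ M → z' ∉ B ∧ z' ∉ R := by
    intro z; rw [hZ, mem_filter]
  have hZpart : ∀ z z', s(z, z') ∈ M → z ∈ Z → z' ∈ Z := by
    intro z z' hz hzZ
    rw [hmemZ] at hzZ ⊢
    refine ⟨right_mem_cov hz, hzZ.2.2 z' hz, ?_⟩
    intro z'' hz''
    have : z = z'' := hM.uniq (a := z') (by rw [Sym2.eq_swap]; exact hz) hz''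
    rw [← this]
    exact hzZ.2.1
  have hZS : ∀ z ∈ Z, z ∈ S := fun z hz => hMS ((hmemZ z).1 hz).1
  have hZA : ∀ z ∈ Z, ∀ x ∈ A, ¬ G.Adj x z := by
    intro z hz x hx hxz
    exact ((hmemZ z).1 hz).2.1.1 ((hmemB z).2 ⟨hZS z hz, x, hx, hxz⟩)
  have hcomppart : ∀ z ∈ Z, ∀ a b, s(a, b) ∈ M → a ∈ comp G Z z → b ∈ comp G Z z := by
    intro z hz a b hab ha
    exact comp_closed Z z a ha b (hZpart a b hab (comp_subset Z z ha)) (hM.adj hab)
  -- Fact 1
  have f1 : ∀ z ∈ Z, ∀ N, MaxM G (comp G Z z) N → cov N = comp G Z z := by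
    intro z hz N hN
    obtain ⟨M', hM', hcov', -⟩ := replace hM (hcomppart z hz) hN.isM hN.sub
    have hFcov : ∀ w ∈ comp G Z z, w ∈ cov M := fun w hw => ((hmemZ w).1 (comp_subset Z z hw)).1
    have hsub' : cov M' ⊆ cov M := by
      intro v hv
      rcases (hcov' v).1 hv with hv | hv
      · exact hv.1
      · exact hFcov v (hN.sub hv)
    have hR' : R ⊆ cov M' := by
      intro v hv
      rw [hcov']
      refine Or.inl ⟨hRM hv, fun h1 => ((hmemZ v).1 (comp_subset Z z h1)).2.1.2 hv⟩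
    have hunc : ∀ v ∈ S, v ∉ cov M' → v ∈ A ∨ (v ∈ comp G Z z ∧ v ∉ cov N) := by
      intro v hv hvc
      rw [hcov'] at hvc
      push Not at hvc
      by_cases h1 : v ∈ cov M
      · exact Or.inr ⟨hvc.1 h1, hvc.2⟩
      · exact Or.inl ((hmemA v).2 ⟨hv, h1⟩)
    have hle := hopt M' hM' (hsub'.trans hMS) hR' (by
      intro a ha b hb hac hbc hab
      rcases hunc a ha hac with h1 | h1 <;> rcases hunc b hb hbc with h2 | h2
      · exact hind a ha b hb ((hmemA a).1 h1).2 ((hmemA b).1 h2).2 hab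
      · exact hZA b (comp_subset Z z h2.1) a h1 hab
      · exact hZA a (comp_subset Z z h1.1) b h2 hab.symm
      · exact hN.max a h1.1 b h2.1 h1.2 h2.2 hab)
    have heq : cov M' = cov M := eq_of_subset_of_card_le hsub' hle
    apply Subset.antisymm hN.sub
    intro w hw
    have h1 : w ∈ cov M' := by rw [heq]; exact hFcov w hw
    rw [hcov'] at h1
    tauto
  -- a matching containing a prescribed edge of a component
  have fpick : ∀ z ∈ Z, ∀ c ∈ comp G Z z, ∀ c' ∈ nb G (comp G Z z) c,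
      ∃ M1, IsM G M1 ∧ (∀ v, v ∈ cov M1 ↔ v ∈ cov M) ∧ s(c', c) ∈ M1 ∧
        (∀ a b, a ∉ comp G Z z → (s(a, b) ∈ M1 ↔ s(a, b) ∈ M)) := by
    intro z hz c hc c' hc'
    rw [mem_nb] at hc'
    have hs : IsM G ({s(c, c')} : Finset (Sym2 V)) := by
      have := (isM_empty (G := G)).insert hc'.2 (by rw [cov_empty]; simp) (by rw [cov_empty]; simp)
      simpa using this
    have hcs : cov ({s(c, c')} : Finset (Sym2 V)) ⊆ comp G Z z := by
      have : ({s(c, c')} : Finset (Sym2 V)) = insert s(c, c') ∅ := by simp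
      rw [this, cov_insert, cov_empty]
      intro v hv
      simp only [mem_insert, notMem_empty, or_false] at hv
      rcases hv with rfl | rfl
      · exact hc
      · exact hc'.1
    obtain ⟨N, hsN, hN⟩ := exists_maxM _ hs hcs
    have hNcov := f1 z hz N hN
    obtain ⟨M1, hM1, hcov1, hmem1⟩ := replace hM (hcomppart z hz) hN.isM hN.sub
    refine ⟨M1, hM1, ?_, ?_, ?_⟩
    · intro v
      rw [hcov1, hNcov]
      constructor
      · rintro (h1 | h1)
        · exact h1.1
        · exact ((hmemZ v).1 (comp_subset Z z h1)).1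
      · intro h1
        by_cases h2 : v ∈ comp G Z z
        · exact Or.inr h2
        · exact Or.inl ⟨h1, h2⟩
    · rw [hmem1, Sym2.eq_swap]
      exact Or.inl (hsN (mem_singleton_self _))
    · intro a b ha
      rw [hmem1]
      constructor
      · rintro (h1 | h1)
        · exact absurd (hN.sub (left_mem_cov h1)) ha
        · exact h1.1
      · intro h1
        exact Or.inr ⟨h1, ha⟩
  -- every attachment is to a covered nonclean vertex
  have fatt : ∀ z ∈ Z, ∀ c ∈ comp G Z z, ∀ e ∈ S, e ∉ comp G Z z → G.Adj c e →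
      e ∉ Z ∧ e ∈ cov M := by
    intro z hz c hc e he heF hce
    refine ⟨fun h1 => heF (comp_closed Z z c hc e h1 hce), ?_⟩
    by_contra h1
    exact hZA c (comp_subset Z z hc) e ((hmemA e).2 ⟨he, h1⟩) hce.symm
  -- Fact 2a
  have f2a : ∀ z ∈ Z, ∀ c ∈ comp G Z z, ∀ e e', s(e, e') ∈ M → e ∉ Z → G.Adj c e →
      e' ∉ B → e' ∉ R → ∀ c' ∈ nb G (comp G Z z) c, G.Adj c' e' := by
    intro z hz c hc e e' hee' heZ hce he'B he'R c' hc'
    obtain ⟨M1, hM1, hcov1, hcc', hout⟩ := fpick z hz c hc c' hc'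
    rw [mem_nb] at hc'
    have he'e : s(e', e) ∈ M := by rw [Sym2.eq_swap]; exact hee'
    have he'Z : e' ∉ Z := fun h3 => heZ (hZpart e' e he'e h3)
    have he'F : e' ∉ comp G Z z := fun h1 => he'Z (comp_subset Z z h1)
    have he'e1 : s(e', e) ∈ M1 := (hout e' e he'F).2 he'e
    have hne : s(c', c) ≠ s(e', e) := by
      intro h1
      rcases Sym2.eq_iff.1 h1 with ⟨h2, h3⟩ | ⟨h2, h3⟩
      · exact he'F (h2 ▸ hc'.1)
      · exact he'F (h3 ▸ hc)
    by_contra hcon
    obtain ⟨M', hM', hcov', -⟩ := swap2 hM1 hcc' he'e1 hne hce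
    have hc'Z := comp_subset Z z hc'.1
    have hsub' : cov M' ⊆ cov M := by
      intro v hv
      rw [hcov', hcov1] at hv
      exact hv.1
    have hR' : R ⊆ cov M' := by
      intro v hv
      rw [hcov', hcov1]
      refine ⟨hRM hv, ?_, ?_⟩
      · rintro rfl
        exact ((hmemZ v).1 hc'Z).2.1.2 hv
      · rintro rfl
        exact he'R hv
    have hunc : ∀ v ∈ S, v ∉ cov M' → v ∈ A ∨ v = c' ∨ v = e' := by
      intro v hv hvc
      rw [hcov', hcov1] at hvc
      by_cases h1 : v ∈ cov M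
      · right; tauto
      · exact Or.inl ((hmemA v).2 ⟨hv, h1⟩)
    have he'A : ∀ x ∈ A, ¬ G.Adj x e' := by
      intro x hx hxe
      exact he'B ((hmemB e').2 ⟨hMS (right_mem_cov hee'), x, hx, hxe⟩)
    have hle := hopt M' hM' (hsub'.trans hMS) hR' (by
      intro a ha b hb hac hbc hab
      rcases hunc a ha hac with h1 | rfl | rfl <;> rcases hunc b hb hbc with h2 | rfl | rfl
      · exact hind a ha b hb ((hmemA a).1 h1).2 ((hmemA b).1 h2).2 hab
      · exact hZA _ hc'Z a h1 hab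
      · exact he'A a h1 hab
      · exact hZA _ hc'Z b h2 hab.symm
      · exact G.irrefl hab
      · exact hcon hab
      · exact he'A b h2 hab.symm
      · exact hcon hab.symm
      · exact G.irrefl hab)
    have heq : cov M' = cov M := eq_of_subset_of_card_le hsub' hle
    have h1 : c' ∈ cov M' := by rw [heq]; exact ((hmemZ c').1 hc'Z).1
    rw [hcov'] at h1
    exact h1.2.1 rfl
  -- Fact 2b
  have f2b : ∀ z ∈ Z, ∀ c ∈ comp G Z z, ∀ e e', s(e, e') ∈ M → e ∉ Z → G.Adj c e →
      e' ∉ B → e' ∈ R → False := by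
    intro z hz c hc e e' hee' heZ hce he'B he'R
    have hcZ := comp_subset Z z hc
    obtain ⟨c', hcc'⟩ := mem_cov'.1 ((hmemZ c).1 hcZ).1
    have hc'F := hcomppart z hz c c' hcc' hc
    have hc'Z := comp_subset Z z hc'F
    have he'e : s(e', e) ∈ M := by rw [Sym2.eq_swap]; exact hee'
    have hc'c : s(c', c) ∈ M := by rw [Sym2.eq_swap]; exact hcc'
    have he'Z : e' ∉ Z := fun h3 => heZ (hZpart e' e he'e h3)
    have hne : s(c', c) ≠ s(e', e) := by
      intro h1
      rcases Sym2.eq_iff.1 h1 with ⟨h2, h3⟩ | ⟨h2, h3⟩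
      · exact he'Z (h2 ▸ hc'Z)
      · exact he'Z (h3 ▸ hcZ)
    obtain ⟨M', hM', hcov', -⟩ := swap2 hM hc'c he'e hne hce
    have hsub' : cov M' ⊆ S := by
      intro v hv
      rw [hcov'] at hv
      exact hMS hv.1
    have hx0M' : x0 ∉ cov M' := by
      rw [hcov']
      exact fun h1 => hx0c h1.1
    obtain ⟨w, hw, -⟩ := h.key x0 M' hM' hsub' hx0S (hAR x0 hx0A) hx0M' (by
      intro w hw hxw
      rw [hcov']
      refine ⟨hBcov w ((hmemB w).2 ⟨hw, x0, hx0A, hxw⟩), ?_, ?_⟩
      · rintro rfl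
        exact hZA _ hc'Z x0 hx0A hxw
      · rintro rfl
        exact he'B ((hmemB _).2 ⟨hw, x0, hx0A, hxw⟩)) e' he'R
    have h1 := left_mem_cov hw
    rw [hcov'] at h1
    exact h1.2.2 rfl
  -- Fact 2c
  have f2c : ∀ z ∈ Z, ∀ c ∈ comp G Z z, ∀ e e', s(e, e') ∈ M → e ∉ Z → G.Adj c e →
      e' ∈ B → ∀ c' ∈ nb G (comp G Z z) c, ∀ v ∈ R, v ≠ e → (v = e' → G.Adj c' v) ∧
        (v ≠ e' → ∃ w, s(v, w) ∈ M ∧ (G.Adj c' v ∨ G.Adj c' w)) := by
    intro z hz c hc e e' hee' heZ hce he'B c' hc' v hv hve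
    obtain ⟨M1, hM1, hcov1, hcc', hout⟩ := fpick z hz c hc c' hc'
    rw [mem_nb] at hc'
    have hc'Z := comp_subset Z z hc'.1
    have hcZ := comp_subset Z z hc
    obtain ⟨he'S, x, hx, hxe'⟩ := (hmemB e').1 he'B
    have he'e : s(e', e) ∈ M := by rw [Sym2.eq_swap]; exact hee'
    have he'Z : e' ∉ Z := fun h3 => heZ (hZpart e' e he'e h3)
    have he'F : e' ∉ comp G Z z := fun h1 => he'Z (comp_subset Z z h1)
    have he'e1 : s(e', e) ∈ M1 := (hout e' e he'F).2 he'e
    have hne : s(c', c) ≠ s(e', e) := by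
      intro h1
      rcases Sym2.eq_iff.1 h1 with ⟨h2, h3⟩ | ⟨h2, h3⟩
      · exact he'F (h2 ▸ hc'.1)
      · exact he'F (h3 ▸ hc)
    have hxc : x ∉ cov M1 := by rw [hcov1]; exact ((hmemA x).1 hx).2
    obtain ⟨M', hM', hcov', hmem'⟩ := switch hM1 hcc' he'e1 hne hce hxe'.symm hxc
    have hsub' : cov M' ⊆ S := by
      intro v hv
      rw [hcov', hcov1] at hv
      rcases hv with hv | rfl
      · exact hMS hv.1
      · exact ((hmemA _).1 hx).1
    have hc'x : c' ≠ x := by
      rintro rfl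
      exact ((hmemA _).1 hx).2 ((hmemZ _).1 hc'Z).1
    have hc'M' : c' ∉ cov M' := by
      rw [hcov']
      rintro (h1 | h1)
      · exact h1.2 rfl
      · exact hc'x h1
    obtain ⟨w, hw, hadj⟩ := h.key c' M' hM' hsub' (hZS c' hc'Z) ((hmemZ c').1 hc'Z).2.1.2 hc'M' (by
      intro w hw hcw
      rw [hcov', hcov1]
      by_cases h1 : w ∈ cov M
      · exact Or.inl ⟨h1, hcw.ne'⟩
      · exact absurd hcw.symm (hZA c' hc'Z w ((hmemA w).2 ⟨hw, h1⟩))) v hv
    have hvF : v ∉ comp G Z z := fun h1 => ((hmemZ v).1 (comp_subset Z z h1)).2.1.2 hv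
    have hvx : v ≠ x := by
      rintro rfl
      exact hAR _ hx hv
    rw [hmem'] at hw
    rcases hw with hw | hw | hw
    · -- s(v,w) = s(e',x)
      rcases Sym2.eq_iff.1 hw with ⟨h1, h2⟩ | ⟨h1, h2⟩
      · subst h1; subst h2
        refine ⟨fun _ => ?_, fun h3 => absurd rfl h3⟩
        rcases hadj with h3 | h3
        · exact h3.symm
        · exact absurd h3 (hZA c' hc'Z _ hx)
      · exact absurd h1 hvx
    · rcases Sym2.eq_iff.1 hw with ⟨h1, h2⟩ | ⟨h1, h2⟩
      · exact absurd (h1 ▸ hc) hvF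
      · exact absurd h1 hve
    · have hw' : s(v, w) ∈ M := (hout v w hvF).1 hw.1
      refine ⟨?_, fun _ => ⟨w, hw', ?_⟩⟩
      · intro h1
        exfalso
        subst h1
        have : w = e := hM.uniq hw' he'e
        subst this
        exact hw.2.2 rfl
      · rcases hadj with h1 | h1
        · exact Or.inl h1.symm
        · exact Or.inr h1.symm
  -- Fact 3
  have f3 : ∀ z ∈ Z, ∀ v ∈ R, ∃ w, s(v, w) ∈ M ∧ ∃ c ∈ comp G Z z, (G.Adj c v ∨ G.Adj c w) := by
    intro z hz v hv
    have hCS : comp G Z z ⊆ S := fun w hw => hZS w (comp_subset Z z hw)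
    have hCR : ∀ a ∈ comp G Z z, a ∉ R := fun a ha => ((hmemZ a).1 (comp_subset Z z ha)).2.1.2
    obtain ⟨c, hc, e, he, heF, hce⟩ := h.conn _ hCS ⟨z, mem_comp_self hz⟩ hCR
    obtain ⟨heZ, hecov⟩ := fatt z hz c hc e he heF hce
    obtain ⟨e', hee'⟩ := mem_cov'.1 hecov
    have he'e : s(e', e) ∈ M := by rw [Sym2.eq_swap]; exact hee'
    have he'Z : e' ∉ Z := fun h3 => heZ (hZpart e' e he'e h3)
    obtain ⟨c', hcc'⟩ := mem_cov'.1 ((hmemZ c).1 (comp_subset Z z hc)).1
    have hc'F := hcomppart z hz c c' hcc' hc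
    have hc'nb : c' ∈ nb G (comp G Z z) c := mem_nb.2 ⟨hc'F, hM.adj hcc'⟩
    have hcnb : c ∈ nb G (comp G Z z) c' := mem_nb.2 ⟨hc, (hM.adj hcc').symm⟩
    by_cases he'B : e' ∈ B
    · by_cases hve : v = e
      · subst hve
        exact ⟨e', hee', c, hc, Or.inl hce⟩
      · obtain ⟨h1, h2⟩ := f2c z hz c hc e e' hee' heZ hce he'B c' hc'nb v hv hve
        by_cases hve' : v = e'
        · have h3 := h1 hve'
          subst hve'
          exact ⟨e, he'e, c', hc'F, Or.inl h3⟩
        · obtain ⟨w, hw, hadj⟩ := h2 hve'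
          exact ⟨w, hw, c', hc'F, hadj⟩
    · by_cases he'R : e' ∈ R
      · exact (f2b z hz c hc e e' hee' heZ hce he'B he'R).elim
      · have hc'e' := f2a z hz c hc e e' hee' heZ hce he'B he'R c' hc'nb
        have heB : e ∈ B := by
          by_cases heR : e ∈ R
          · rcases hRB e heR e' hee' with h1 | h1
            · exact h1
            · exact absurd h1 he'B
          · by_contra heB
            apply heZ
            rw [hmemZ]
            refine ⟨hecov, ⟨heB, heR⟩, ?_⟩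
            intro e'' he''
            have : e' = e'' := hM.uniq hee' he''
            rw [← this]
            exact ⟨he'B, he'R⟩
        have hve' : v ≠ e' := by
          rintro rfl
          exact he'R hv
        obtain ⟨h1, h2⟩ := f2c z hz c' hc'F e' e he'e he'Z hc'e' heB c hcnb v hv hve'
        by_cases hve : v = e
        · subst hve
          exact ⟨e', hee', c, hc, Or.inl hce⟩
        · obtain ⟨w, hw, hadj⟩ := h2 hve
          exact ⟨w, hw, c, hc, hadj⟩
  -- Fact 4
  have f4 : ∀ z1 ∈ Z, ∀ z2 ∈ Z, comp G Z z1 ≠ comp G Z z2 → ∀ c1 ∈ comp G Z z1,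
      ∀ c2 ∈ comp G Z z2, ∀ e e', s(e, e') ∈ M → e ∉ Z → G.Adj c1 e → G.Adj c2 e' → False := by
    intro z1 hz1 z2 hz2 hne c1 hc1 c2 hc2 e e' hee' heZ h1 h2
    have hc1Z := comp_subset Z z1 hc1
    have hc2Z := comp_subset Z z2 hc2
    have he'Z : e' ∉ Z := fun h3 => heZ (hZpart e' e (by rw [Sym2.eq_swap]; exact hee') h3)
    obtain ⟨c1', hc1'⟩ := mem_cov'.1 ((hmemZ c1).1 hc1Z).1
    obtain ⟨c2', hc2'⟩ := mem_cov'.1 ((hmemZ c2).1 hc2Z).1
    have hc1'F := hcomppart z1 hz1 c1 c1' hc1' hc1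
    have hc2'F := hcomppart z2 hz2 c2 c2' hc2' hc2
    have hc1'Z := comp_subset Z z1 hc1'F
    have hc2'Z := comp_subset Z z2 hc2'F
    have hdisj : ∀ v, v ∈ comp G Z z1 → v ∈ comp G Z z2 → False := by
      intro v hv1 hv2
      exact hne ((comp_eq_of_mem hz1 hv1).symm.trans (comp_eq_of_mem hz2 hv2))
    have hs1 : s(c1', c1) ∈ M := by rw [Sym2.eq_swap]; exact hc1'
    have hs2 : s(c2', c2) ∈ M := by rw [Sym2.eq_swap]; exact hc2'
    have n1 : s(c1', c1) ≠ s(e, e') := by
      intro h3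
      rcases Sym2.eq_iff.1 h3 with ⟨h4, h5⟩ | ⟨h4, h5⟩
      · exact heZ (h4 ▸ hc1'Z)
      · exact heZ (h5 ▸ hc1Z)
    have n2 : s(c1', c1) ≠ s(c2', c2) := by
      intro h3
      rcases Sym2.eq_iff.1 h3 with ⟨h4, h5⟩ | ⟨h4, h5⟩
      · exact hdisj c1 hc1 (h5 ▸ hc2)
      · exact hdisj c1 hc1 (h5 ▸ hc2'F)
    have n3 : s(e, e') ≠ s(c2', c2) := by
      intro h3
      rcases Sym2.eq_iff.1 h3 with ⟨h4, h5⟩ | ⟨h4, h5⟩
      · exact heZ (h4 ▸ hc2'Z)
      · exact heZ (h4 ▸ hc2Z)
    obtain ⟨M', hM', hcov'⟩ := swap3 hM hs1 hee' hs2 n1 n2 n3 h1 h2.symm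
    have hsub' : cov M' ⊆ cov M := by
      intro v hv
      rw [hcov'] at hv
      exact hv.1
    have hR' : R ⊆ cov M' := by
      intro v hv
      rw [hcov']
      refine ⟨hRM hv, ?_, ?_⟩
      · rintro rfl
        exact ((hmemZ v).1 hc1'Z).2.1.2 hv
      · rintro rfl
        exact ((hmemZ v).1 hc2'Z).2.1.2 hv
    have hunc : ∀ v ∈ S, v ∉ cov M' → v ∈ A ∨ v = c1' ∨ v = c2' := by
      intro v hv hvc
      rw [hcov'] at hvc
      by_cases h1 : v ∈ cov M
      · right; tauto
      · exact Or.inl ((hmemA v).2 ⟨hv, h1⟩)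
    have hnadj : ¬ G.Adj c1' c2' := fun h3 =>
      hdisj _ (comp_closed Z z1 c1' hc1'F _ hc2'Z h3) hc2'F
    have hle := hopt M' hM' (hsub'.trans hMS) hR' (by
      intro a ha b hb hac hbc hab
      rcases hunc a ha hac with h1 | rfl | rfl <;> rcases hunc b hb hbc with h2 | rfl | rfl
      · exact hind a ha b hb ((hmemA a).1 h1).2 ((hmemA b).1 h2).2 hab
      · exact hZA _ hc1'Z a h1 hab
      · exact hZA _ hc2'Z a h1 hab
      · exact hZA _ hc1'Z b h2 hab.symm
      · exact G.irrefl hab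
      · exact hnadj hab
      · exact hZA _ hc2'Z b h2 hab.symm
      · exact hnadj hab.symm
      · exact G.irrefl hab)
    have heq : cov M' = cov M := eq_of_subset_of_card_le hsub' hle
    have h1 : c1' ∈ cov M' := by rw [heq]; exact ((hmemZ c1').1 hc1'Z).1
    rw [hcov'] at h1
    exact h1.2.1 rfl
  have hRZ : ∀ v ∈ R, v ∉ Z := fun v hv h1 => ((hmemZ v).1 h1).2.1.2 hv
  have hD := h.hD
  -- the number of nonclean vertices
  have hBcard : B.card ≤ A.card * D := by
    have h1 : B ⊆ A.biUnion (fun x => nb G S x) := by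
      intro b hb
      obtain ⟨hbS, x, hx, hxb⟩ := (hmemB b).1 hb
      rw [mem_biUnion]
      exact ⟨x, hx, mem_nb.2 ⟨hbS, hxb⟩⟩
    exact (card_le_card h1).trans (card_biUnion_le_card_mul A _ D
      (fun x hx => h.hdeg x ((hmemA x).1 hx).1))
  set NC : Finset V := cov M \ Z with hNC
  have hNCmem : ∀ v ∈ NC, v ∈ B ∨ ∃ w ∈ B, s(v, w) ∈ M := by
    intro v hv
    rw [hNC, mem_sdiff] at hv
    obtain ⟨w, hw⟩ := mem_cov'.1 hv.1
    by_contra hcon
    push Not at hcon
    have hvB := hcon.1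
    have hwB : w ∉ B := fun h1 => hcon.2 w h1 hw
    apply hv.2
    rw [hmemZ]
    have hw' : s(w, v) ∈ M := by rw [Sym2.eq_swap]; exact hw
    refine ⟨hv.1, ⟨hvB, ?_⟩, ?_⟩
    · intro hvR
      rcases hRB v hvR w hw with h1 | h1
      · exact hvB h1
      · exact hwB h1
    · intro w' hw''
      have : w = w' := hM.uniq hw hw''
      subst this
      refine ⟨hwB, ?_⟩
      intro hwR
      rcases hRB w hwR v hw' with h1 | h1
      · exact hwB h1
      · exact hvB h1
  have hNCsd : (NC \ B).card ≤ (B.filter (fun b => ∃ b', s(b, b') ∈ M ∧ b' ∉ B)).card := by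
    apply Finset.card_le_card_of_forall_subsingleton (fun v w => s(v, w) ∈ M)
    · intro v hv
      rw [mem_sdiff] at hv
      rcases hNCmem v hv.1 with h1 | ⟨w, hw, hvw⟩
      · exact absurd h1 hv.2
      · refine ⟨w, ?_, hvw⟩
        rw [mem_filter]
        exact ⟨hw, v, by rw [Sym2.eq_swap]; exact hvw, hv.2⟩
    · intro w hw v hv v' hv'
      have h1 : s(w, v) ∈ M := by rw [Sym2.eq_swap]; exact hv.2
      have h2 : s(w, v') ∈ M := by rw [Sym2.eq_swap]; exact hv'.2
      exact hM.uniq h1 h2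
  have hNCle : NC.card ≤ B.card + (B.filter (fun b => ∃ b', s(b, b') ∈ M ∧ b' ∉ B)).card := by
    have h1 : NC ⊆ B ∪ (NC \ B) := by
      intro v hv
      rw [mem_union, mem_sdiff]
      tauto
    have h2 := card_le_card h1
    have h3 := card_union_le B (NC \ B)
    omega
  have hNCle2 : NC.card ≤ 2 * (A.card * D) := by
    have := card_le_card (filter_subset (fun b => ∃ b', s(b, b') ∈ M ∧ b' ∉ B) B)
    omega
  have hScard : S.card = A.card + NC.card + Z.card := by
    have h1 : A.card + (cov M).card = S.card := card_sdiff_add_card_eq_card hMS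
    have h2 : NC.card + Z.card = (cov M).card :=
      card_sdiff_add_card_eq_card (filter_subset _ _)
    omega
  have hApos : 1 ≤ A.card := card_pos.2 ⟨x0, hx0A⟩
  -- attached vertex in a component
  have fattv : ∀ z ∈ Z, ∃ c ∈ comp G Z z, (nb G (comp G Z z) c).card + 1 ≤ D := by
    intro z hz
    have hCS : comp G Z z ⊆ S := fun w hw => hZS w (comp_subset Z z hw)
    have hCR : ∀ a ∈ comp G Z z, a ∉ R := fun a ha => ((hmemZ a).1 (comp_subset Z z ha)).2.1.2
    obtain ⟨c, hc, e, he, heF, hce⟩ := h.conn _ hCS ⟨z, mem_comp_self hz⟩ hCR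
    refine ⟨c, hc, ?_⟩
    have h1 : insert e (nb G (comp G Z z) c) ⊆ nb G S c := by
      intro v hv
      rcases mem_insert.1 hv with rfl | hv
      · exact mem_nb.2 ⟨he, hce⟩
      · rw [mem_nb] at hv ⊢
        exact ⟨hCS hv.1, hv.2⟩
    have h2 := card_le_card h1
    rw [card_insert_of_notMem (fun h3 => heF (mem_nb.1 h3).1)] at h2
    exact h2.trans (h.hdeg c (hCS hc))
  by_cases hmulti : ∃ z1 ∈ Z, ∃ z2 ∈ Z, comp G Z z1 ≠ comp G Z z2
  · -- at least two components
    obtain ⟨z1, hz1, z2, hz2, hne12⟩ := hmulti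
    -- Fact 5
    have f5 : ∀ v ∈ R, ∃ w, s(v, w) ∈ M ∧ w ∈ B ∧ w ∉ R ∧ (∀ z ∈ Z, ¬ G.Adj z w) ∧
        (∀ z ∈ Z, ∃ c ∈ comp G Z z, G.Adj c v) := by
      intro v hv
      obtain ⟨v', hvv', c1, hc1, hadj1⟩ := f3 z1 hz1 v hv
      have hvZ := hRZ v hv
      have hv'v : s(v', v) ∈ M := by rw [Sym2.eq_swap]; exact hvv'
      have hv'Z : v' ∉ Z := fun h3 => hvZ (hZpart v' v hv'v h3)
      -- general statement for an end w with partner w'
      have gen : ∀ w w', s(w, w') ∈ M → w ∉ Z → w' ∉ Z → (v = w ∨ v = w') →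
          (∃ c ∈ comp G Z z1, G.Adj c w) →
          (∀ z ∈ Z, ¬ G.Adj z w') ∧ w' ∈ B ∧ w' ∉ R := by
        intro w w' hww' hwZ hw'Z hvw hatt
        obtain ⟨c1, hc1, hc1w⟩ := hatt
        have hw'w : s(w', w) ∈ M := by rw [Sym2.eq_swap]; exact hww'
        have hno : ∀ z ∈ Z, ¬ G.Adj z w' := by
          intro z hz hzw'
          by_cases hF : comp G Z z1 = comp G Z z
          · -- z in F1
            obtain ⟨w2, hw2, c2, hc2, hadj2⟩ := f3 z2 hz2 v hv
            have hzF1 : z ∈ comp G Z z1 := by rw [hF]; exact mem_comp_self hz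
            have h5 : G.Adj c2 w ∨ G.Adj c2 w' := by
              rcases hvw with rfl | rfl
              · have : w2 = w' := hM.uniq hw2 hww'
                subst this
                exact hadj2
              · have : w2 = w := hM.uniq hw2 hw'w
                subst this
                exact hadj2.symm
            rcases h5 with h5 | h5
            · exact f4 z2 hz2 z1 hz1 hne12.symm c2 hc2 z hzF1 w w' hww' hwZ h5 hzw'
            · exact f4 z1 hz1 z2 hz2 hne12 c1 hc1 c2 hc2 w w' hww' hwZ hc1w h5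
          · exact f4 z1 hz1 z hz hF c1 hc1 z (mem_comp_self hz) w w' hww' hwZ hc1w hzw'
        obtain ⟨c1', hcc'⟩ := mem_cov'.1 ((hmemZ c1).1 (comp_subset Z z1 hc1)).1
        have hc1'F := hcomppart z1 hz1 c1 c1' hcc' hc1
        have hc1'nb : c1' ∈ nb G (comp G Z z1) c1 := mem_nb.2 ⟨hc1'F, hM.adj hcc'⟩
        have hc1'Z := comp_subset Z z1 hc1'F
        have hw'B : w' ∈ B := by
          by_contra hw'B
          by_cases hw'R : w' ∈ R
          · exact f2b z1 hz1 c1 hc1 w w' hww' hwZ hc1w hw'B hw'R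
          · exact hno c1' hc1'Z (f2a z1 hz1 c1 hc1 w w' hww' hwZ hc1w hw'B hw'R c1' hc1'nb)
        refine ⟨hno, hw'B, ?_⟩
        intro hw'R
        obtain ⟨h6, -⟩ := f2c z1 hz1 c1 hc1 w w' hww' hwZ hc1w hw'B c1' hc1'nb w' hw'R
          (hM.ne hw'w)
        exact hno c1' hc1'Z (h6 rfl)
      rcases hadj1 with h6 | h6
      · obtain ⟨h7, h8, h9⟩ := gen v v' hvv' hvZ hv'Z (Or.inl rfl) ⟨c1, hc1, h6⟩
        refine ⟨v', hvv', h8, h9, h7, ?_⟩
        intro z hz
        obtain ⟨w, hw, c, hc, hadj⟩ := f3 z hz v hv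
        have : w = v' := hM.uniq hw hvv'
        subst this
        rcases hadj with h10 | h10
        · exact ⟨c, hc, h10⟩
        · exact absurd h10 (h7 c (comp_subset Z z hc))
      · obtain ⟨h7, h8, h9⟩ := gen v' v hv'v hv'Z hvZ (Or.inr rfl) ⟨c1, hc1, h6⟩
        exact absurd hv h9
    -- Fact 6
    obtain ⟨u', huu', hu'B, hu'R, hu'no, hu'at⟩ := f5 u1 hu1
    obtain ⟨v', hvv', hv'B, hv'R, hv'no, hv'at⟩ := f5 v1 hv1
    have hu1Z := hRZ u1 hu1
    have hv1Z := hRZ v1 hv1
    have hZle : Z.card ≤ 2 * (nb G Z v1).card := by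
      apply sum_comp
      intro z hz
      obtain ⟨c, hc, hcu⟩ := hu'at z hz
      have h1 := sumner (comp_conn hz) (f1 z hz) hc
      have h2 : nb G (comp G Z z) c ⊆ nb G (comp G Z z) v1 := by
        intro c' hc'
        have hc'F := (mem_nb.1 hc').1
        obtain ⟨-, h3⟩ := f2c z hz c hc u1 u' huu' hu1Z hcu hu'B c' hc' v1 hv1 huv1.symm
        have hv1u' : v1 ≠ u' := by
          rintro rfl
          exact hu'R hv1
        obtain ⟨w, hw, hadj⟩ := h3 hv1u'
        have : w = v' := hM.uniq hw hvv'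
        subst this
        rcases hadj with h4 | h4
        · exact mem_nb.2 ⟨hc'F, h4.symm⟩
        · exact absurd h4 (hv'no c' (comp_subset Z z hc'F))
      have h3 := card_le_card h2
      omega
    have hnbv : (nb G Z v1).card + 2 ≤ D := by
      have h1 : insert v' (nb G Z v1) ⊆ nb G S v1 := by
        intro w hw
        rcases mem_insert.1 hw with rfl | hw
        · exact mem_nb.2 ⟨hMS (right_mem_cov hvv'), hM.adj hvv'⟩
        · rw [mem_nb] at hw ⊢
          exact ⟨hZS w hw.1, hw.2⟩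
      have h2 := card_le_card h1
      have hv'Z : v' ∉ Z := fun h3 => ((hmemZ v').1 h3).2.1.1 hv'B
      rw [card_insert_of_notMem (fun h3 => hv'Z (mem_nb.1 h3).1)] at h2
      have := h.hdegR v1 hv1
      omega
    obtain ⟨d, rfl⟩ : ∃ d, D = d + 3 := ⟨D - 3, by omega⟩
    have e1 : d + 3 - 1 = d + 2 := by omega
    rw [e1]
    have h3 : S.card ≤ A.card + 2 * (A.card * (d + 3)) + 2 * (d + 1) := by omega
    nlinarith [Nat.mul_le_mul_right d hApos, Nat.mul_le_mul_right (d ^ 2) hApos]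
  · -- at most one component
    push Not at hmulti
    have hZone : ∀ z ∈ Z, Z ⊆ comp G Z z := by
      intro z hz w hw
      rw [hmulti z hz w hw]
      exact mem_comp_self hw
    have hZle : Z.card ≤ 2 * (D - 1) := by
      by_cases hZe : Z = ∅
      · rw [hZe, card_empty]; omega
      · obtain ⟨z, hz⟩ := nonempty_iff_ne_empty.2 hZe
        obtain ⟨c, hc, hcard⟩ := fattv z hz
        have h1 := sumner (comp_conn hz) (f1 z hz) hc
        have h2 := card_le_card (hZone z hz)
        omega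
    by_cases hbig : 4 ≤ D ∨ 2 ≤ A.card
    · obtain ⟨d, rfl⟩ : ∃ d, D = d + 3 := ⟨D - 3, by omega⟩
      have e1 : d + 3 - 1 = d + 2 := by omega
      rw [e1] at hZle ⊢
      have h3 : S.card ≤ A.card + 2 * (A.card * (d + 3)) + 2 * (d + 2) := by omega
      rcases hbig with h4 | h4
      · have h5 : 1 ≤ d := by omega
        nlinarith [Nat.mul_le_mul_right d hApos, Nat.mul_le_mul_right (d ^ 2) hApos,
          Nat.mul_le_mul h5 h5]
      · nlinarith [Nat.mul_le_mul_right d h4, Nat.mul_le_mul_right (d ^ 2) h4]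
    · push Not at hbig
      have hD3 : D = 3 := by omega
      have hA1 : A.card = 1 := by omega
      subst hD3
      rw [hA1]
      by_contra hcon
      push Not at hcon
      norm_num at hcon hZle hNCle2
      rw [hA1] at hBcard hNCle2 hScard
      -- every vertex of B has its partner outside B
      have hBout : ∀ b ∈ B, ∀ b', s(b, b') ∈ M → b' ∉ B := by
        intro b hb b' hbb' hb'
        have h1 : B.filter (fun b => ∃ b', s(b, b') ∈ M ∧ b' ∉ B) ⊆ (B.erase b).erase b' := by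
          intro w hw
          rw [mem_filter] at hw
          obtain ⟨hwB, w', hww', hw'B⟩ := hw
          rw [mem_erase, mem_erase]
          refine ⟨?_, ?_, hwB⟩
          · rintro rfl
            have : w' = b := hM.uniq hww' (by rw [Sym2.eq_swap]; exact hbb')
            subst this
            exact hw'B hb
          · rintro rfl
            have : w' = b' := hM.uniq hww' hbb'
            subst this
            exact hw'B hb'
        have h2 := card_le_card h1
        rw [card_erase_of_mem (mem_erase.2 ⟨(hM.ne hbb').symm, hb'⟩), card_erase_of_mem hb] at h2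
        omega
      -- Z is a single component with at least three vertices
      have hZ3 : 3 ≤ Z.card := by omega
      obtain ⟨z, hz⟩ : Z.Nonempty := card_pos.1 (by omega)
      have hZF : Z.card ≤ (comp G Z z).card := card_le_card (hZone z hz)
      have hnb2 : ∀ c ∈ comp G Z z, 2 ≤ (nb G (comp G Z z) c).card := by
        intro c hc
        have h1 := sumner (comp_conn hz) (f1 z hz) hc
        omega
      have hFnb : ∀ c ∈ comp G Z z, ∃ c', c' ∈ nb G (comp G Z z) c := by
        intro c hc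
        have := hnb2 c hc
        exact card_pos.1 (by omega)
      -- vertices of R are not in B
      have hRnB : ∀ v ∈ R, v ∉ B := by
        intro v hv hvB
        obtain ⟨-, x, hx, hxv⟩ := (hmemB v).1 hvB
        obtain ⟨w, hvw, c, hc, hadj⟩ := f3 z hz v hv
        have hwv : s(w, v) ∈ M := by rw [Sym2.eq_swap]; exact hvw
        have hwZ : w ∉ Z := fun h3 => hRZ v hv (hZpart w v hwv h3)
        have hno : ∀ c ∈ comp G Z z, ¬ G.Adj c v := by
          intro c hc hcv
          have hcZ := comp_subset Z z hc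
          have h1 : insert c (insert w {x}) ⊆ nb G S v := by
            intro a ha
            simp only [mem_insert, mem_singleton] at ha
            rcases ha with rfl | rfl | rfl
            · exact mem_nb.2 ⟨hZS _ hcZ, hcv.symm⟩
            · exact mem_nb.2 ⟨hMS (right_mem_cov hvw), hM.adj hvw⟩
            · exact mem_nb.2 ⟨((hmemA _).1 hx).1, hxv.symm⟩
          have h2 := card_le_card h1
          have hwx : w ≠ x := by
            rintro rfl
            exact ((hmemA _).1 hx).2 (right_mem_cov hvw)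
          have hcw : c ≠ w := by
            rintro rfl
            exact hwZ hcZ
          have hcx : c ≠ x := by
            rintro rfl
            exact ((hmemA _).1 hx).2 ((hmemZ _).1 hcZ).1
          rw [card_insert_of_notMem, card_insert_of_notMem, card_singleton] at h2
          · have := h.hdegR v hv
            omega
          · rw [mem_singleton]; exact hwx
          · rw [mem_insert, mem_singleton]
            rintro (h3 | h3)
            · exact hcw h3
            · exact hcx h3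
        rcases hadj with h1 | h1
        · exact hno c hc h1
        · obtain ⟨c', hc'⟩ := hFnb c hc
          obtain ⟨h2, -⟩ := f2c z hz c hc w v hwv hwZ h1 hvB c' hc' v hv (hM.ne hvw)
          exact hno c' (mem_nb.1 hc').1 (h2 rfl)
      -- attachments to v only at v
      have hRat : ∀ v ∈ R, ∃ w, s(v, w) ∈ M ∧ w ∈ B ∧ (∀ c ∈ comp G Z z, ¬ G.Adj c w) ∧
          ∃ c ∈ comp G Z z, G.Adj c v := by
        intro v hv
        obtain ⟨w, hvw, c, hc, hadj⟩ := f3 z hz v hv
        have hwv : s(w, v) ∈ M := by rw [Sym2.eq_swap]; exact hvw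
        have hwZ : w ∉ Z := fun h3 => hRZ v hv (hZpart w v hwv h3)
        have hvB := hRnB v hv
        have hwB : w ∈ B := by
          rcases hRB v hv w hvw with h1 | h1
          · exact absurd h1 hvB
          · exact h1
        have hno : ∀ c ∈ comp G Z z, ¬ G.Adj c w := by
          intro c hc hcw
          exact f2b z hz c hc w v hwv hwZ hcw hvB hv
        refine ⟨w, hvw, hwB, hno, ?_⟩
        rcases hadj with h1 | h1
        · exact ⟨c, hc, h1⟩
        · exact absurd h1 (hno c hc)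
      obtain ⟨u', huu', hu'B, hu'no, cu, hcu, hcuu⟩ := hRat u1 hu1
      obtain ⟨v', hvv', hv'B, hv'no, cv, hcv, hcvv⟩ := hRat v1 hv1
      have h1 : nb G (comp G Z z) cu ⊆ nb G (comp G Z z) v1 := by
        intro c' hc'
        have hc'F := (mem_nb.1 hc').1
        obtain ⟨-, h3⟩ := f2c z hz cu hcu u1 u' huu' (hRZ u1 hu1) hcuu hu'B c' hc' v1 hv1 huv1.symm
        have hv1u' : v1 ≠ u' := by
          rintro rfl
          exact hRnB _ hv1 hu'B
        obtain ⟨w, hw, hadj⟩ := h3 hv1u'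
        have : w = v' := hM.uniq hw hvv'
        subst this
        rcases hadj with h4 | h4
        · exact mem_nb.2 ⟨hc'F, h4.symm⟩
        · exact absurd h4 (hv'no c' hc'F)
      have h2 := card_le_card h1
      have h3 := hnb2 cu hcu
      have h4 : (nb G (comp G Z z) v1).card + 1 ≤ (nb G S v1).card := by
        have h5 : insert v' (nb G (comp G Z z) v1) ⊆ nb G S v1 := by
          intro w hw
          rcases mem_insert.1 hw with rfl | hw
          · exact mem_nb.2 ⟨hMS (right_mem_cov hvv'), hM.adj hvv'⟩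
          · rw [mem_nb] at hw ⊢
            exact ⟨hZS w (comp_subset Z z hw.1), hw.2⟩
        have h6 := card_le_card h5
        have hv'Z : v' ∉ comp G Z z := fun h7 =>
          ((hmemZ v').1 (comp_subset Z z h7)).2.1.1 hv'B
        rw [card_insert_of_notMem (fun h7 => hv'Z (mem_nb.1 h7).1)] at h6
        exact h6
      have := h.hdegR v1 hv1
      omega

end Pool.Agent.Lib_helper55.F4
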