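import Mathlib

set_option autoImplicit false

namespace Pool.Agent.Lib_helper55.F4

/-- The elements of a graph `G` are its vertices and its edges, i.e. the terms of
`V ⊕ G.edgeSet`. Two distinct elements are *joint* if they are two adjacent vertices, two edges
sharing an endpoint, or a vertex and an edge incident with it. -/
def Joint {V : Type} (G : SimpleGraph V) : V ⊕ G.edgeSet → V ⊕ G.edgeSet → Prop
  | Sum.inl u, Sum.inl v => G.Adj u v
  | Sum.inl u, Sum.inr e => u ∈ (e : Sym2 V)
  | Sum.inr e, Sum.inl u => u ∈ (e : Sym2 V)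
  | Sum.inr e, Sum.inr f => e ≠ f ∧ ∃ v, v ∈ (e : Sym2 V) ∧ v ∈ (f : Sym2 V)

/-- `G` contains `r` mutually joint elements. -/
def HasJoint {V : Type} (G : SimpleGraph V) (r : ℕ) : Prop :=
  ∃ T : Finset (V ⊕ G.edgeSet), T.card = r ∧ ∀ x ∈ T, ∀ y ∈ T, x ≠ y → Joint G x y

/-- `G` contains `s` mutually disjoint elements (distinct elements that are not joint). -/
def HasDisjoint {V : Type} (G : SimpleGraph V) (s : ℕ) : Prop :=
  ∃ T : Finset (V ⊕ G.edgeSet), T.card = s ∧ ∀ x ∈ T, ∀ y ∈ T, x ≠ y → ¬ Joint G x y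

/-- Every connected graph of order `p` contains `r` mutually joint elements or `s` mutually
disjoint elements. -/
def Forces (r s p : ℕ) : Prop :=
  ∀ (V : Type) [Fintype V] (G : SimpleGraph V), Fintype.card V = p → G.Connected →
    HasJoint G r ∨ HasDisjoint G s

end Pool.Agent.Lib_helper55.F4
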