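import Pool.Agent.Lib_helper55.F4Case2

set_option autoImplicit false
set_option linter.unusedSectionVars false
set_option linter.unusedVariables false
set_option linter.unusedSimpArgs false

namespace Pool.Agent.Lib_helper55.F4

open Finset

variable {V : Type*} [Fintype V] [DecidableEq V] {G : SimpleGraph V}

/-- Restrict a matching to the edges meeting the neighbourhood of `y`. -/
theorem restrict {M : Finset (Sym2 V)} (hM : IsM G M) (y : V) :
    ∃ M', IsM G M' ∧ M' ⊆ M ∧ (∀ w, G.Adj y w → w ∈ cov M → w ∈ cov M') ∧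
      (∀ v w, s(v, w) ∈ M' → G.Adj v y ∨ G.Adj w y) := by
  classical
  refine ⟨M.filter (fun e => ∃ a ∈ e, G.Adj y a), hM.subset (filter_subset _ _),
    filter_subset _ _, ?_, ?_⟩
  · intro w hyw hw
    obtain ⟨w', hw'⟩ := mem_cov'.1 hw
    rw [mem_cov']
    exact ⟨w', mem_filter.2 ⟨hw', w, Sym2.mem_mk_left _ _, hyw⟩⟩
  · intro v w hvw
    obtain ⟨-, a, ha, hya⟩ := mem_filter.1 hvw
    rcases Sym2.mem_iff.1 ha with rfl | rfl
    · exact Or.inl hya.symm
    · exact Or.inr hya.symm

theorem restrict_card {M : Finset (Sym2 V)} (hM : IsM G M) (X : Finset V) (y : V)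
    (hX : cov M ⊆ X) (h : ∀ v w, s(v, w) ∈ M → G.Adj v y ∨ G.Adj w y) :
    (cov M).card ≤ 2 * (nb G X y).card := by
  classical
  have h1 : (cov M \ nb G X y).card ≤ (nb G X y).card := by
    apply Finset.card_le_card_of_forall_subsingleton (fun v w => s(v, w) ∈ M)
    · intro v hv
      rw [mem_sdiff, mem_nb] at hv
      obtain ⟨w, hvw⟩ := mem_cov'.1 hv.1
      refine ⟨w, mem_nb.2 ⟨hX (right_mem_cov hvw), ?_⟩, hvw⟩
      rcases h v w hvw with h2 | h2
      · exact absurd ⟨hX hv.1, h2.symm⟩ hv.2
      · exact h2.symm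
    · intro w hw v hv v' hv'
      have h1 : s(w, v) ∈ M := by rw [Sym2.eq_swap]; exact hv.2
      have h2 : s(w, v') ∈ M := by rw [Sym2.eq_swap]; exact hv'.2
      exact hM.uniq h1 h2
  have h2 : cov M ⊆ nb G X y ∪ (cov M \ nb G X y) := by
    intro v hv
    rw [mem_union, mem_sdiff]
    tauto
  have h3 := card_le_card h2
  have h4 := card_union_le (nb G X y) (cov M \ nb G X y)
  omega

theorem upper (G : SimpleGraph V) {D : ℕ} (hD : 3 ≤ D) (hdeg : ∀ v, (nb G univ v).card ≤ D) :
    ∀ (n : ℕ) (X : Finset V), X.card = n → X.Nonempty → Conn G X →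
      (∃ M, MaxM G X M ∧ X.card ≤ (2 * (D - 1) ^ 2 + 1) * (X \ cov M).card + 2 * (D - 1)) ∨
      ((∀ v ∈ X, D ≤ (nb G X v).card) ∧ X.card ≤ 2 * D) := by
  classical
  intro n
  induction n using Nat.strong_induction_on with
  | _ n ih =>
  intro X hXn hXne hX
  have hnbX : ∀ (Y : Finset V) v, (nb G Y v).card ≤ D := fun Y v =>
    (card_le_card (nb_mono (subset_univ Y) v)).trans (hdeg v)
  by_cases ht : ∀ M, MaxM G X M → cov M = X
  · have hs : ∀ c ∈ X, X.card ≤ 2 * (nb G X c).card := fun c hc => sumner hX ht hc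
    by_cases hc : ∃ c ∈ X, (nb G X c).card < D
    · obtain ⟨c, hc, hlt⟩ := hc
      left
      obtain ⟨M, -, hM⟩ := exists_maxM (G := G) X isM_empty
        (by rw [cov_empty]; exact empty_subset _)
      refine ⟨M, hM, ?_⟩
      have := hs c hc
      have h2 : X.card ≤ 2 * (D - 1) := by omega
      exact h2.trans (Nat.le_add_left _ _)
    · push Not at hc
      right
      obtain ⟨c, hcX⟩ := hXne
      refine ⟨hc, (hs c hcX).trans ?_⟩
      have := hnbX X c
      omega
  · left
    push Not at ht
    obtain ⟨M1, hM1, hM1ne⟩ := ht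
    obtain ⟨y1, hy1X, hy1c⟩ : ∃ y ∈ X, y ∉ cov M1 := by
      by_contra hcon
      push Not at hcon
      exact hM1ne (Subset.antisymm hM1.sub hcon)
    let W : Finset V → Prop := fun L => L ⊆ X ∧ (L = ∅ ∨ Conn G L) ∧ ∃ y M', IsM G M' ∧
      cov M' ⊆ X ∧ y ∈ X ∧ y ∉ cov M' ∧ (∀ w ∈ X, G.Adj y w → w ∈ cov M') ∧
      (∀ v ∈ L, v ≠ y ∧ v ∉ cov M')
    have hW0 : W ∅ := by
      refine ⟨empty_subset _, Or.inl rfl, y1, M1, hM1.isM, hM1.sub, hy1X, hy1c, ?_, ?_⟩
      · intro w hw hyw
        by_contra h1
        exact hM1.max y1 hy1X w hw hy1c h1 hyw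
      · intro v hv
        simp at hv
    obtain ⟨L, hLW, hLmax⟩ : ∃ L, W L ∧ ∀ L', W L' → L'.card ≤ L.card := by
      let P : Finset (Finset V) := univ.filter (fun L => W L)
      have hP : P.Nonempty := ⟨∅, by simp only [P, mem_filter, mem_univ, true_and]; exact hW0⟩
      obtain ⟨L, hL, hmax⟩ := exists_max_image P (fun N => N.card) hP
      simp only [P, mem_filter, mem_univ, true_and] at hL hmax
      exact ⟨L, hL, hmax⟩
    obtain ⟨hLX, hLc, y, M', hM', hM'X, hyX, hyc, hycl, hLd⟩ := hLW
    by_cases hLe : L = ∅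
    · -- X is small
      subst hLe
      obtain ⟨M2, hM2, hM2M, hM2n, hM2e⟩ := restrict hM' y
      have hsub2 : cov M2 ⊆ X := (cov_mono hM2M).trans hM'X
      have hXsub : X ⊆ insert y (cov M2) := by
        intro v hv
        by_contra hvc
        rw [mem_insert] at hvc
        push Not at hvc
        have h1 : W {v} := by
          refine ⟨singleton_subset_iff.2 hv, Or.inr (conn_singleton v), y, M2, hM2, hsub2, hyX,
            fun h => hyc (cov_mono hM2M h), ?_, ?_⟩
          · intro w hw hyw
            exact hM2n w hyw (hycl w hw hyw)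
          · intro v' hv'
            rw [mem_singleton] at hv'
            subst hv'
            exact hvc
        have := hLmax _ h1
        simp at this
      refine ⟨M1, hM1, ?_⟩
      have h1 := card_le_card hXsub
      have h2 := card_insert_le y (cov M2)
      have h3 := restrict_card hM2 X y hsub2 hM2e
      have h4 := hnbX X y
      have h5 : 1 ≤ (X \ cov M1).card := card_pos.2 ⟨y1, mem_sdiff.2 ⟨hy1X, hy1c⟩⟩
      have h6 : X.card ≤ 2 * D + 1 := by omega
      obtain ⟨d, rfl⟩ : ∃ d, D = d + 3 := ⟨D - 3, by omega⟩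
      have e1 : d + 3 - 1 = d + 2 := by omega
      rw [e1]
      have h7 : (2 * (d + 2) ^ 2 + 1) * 1 ≤ (2 * (d + 2) ^ 2 + 1) * (X \ cov M1).card :=
        Nat.mul_le_mul_left _ h5
      nlinarith
    · have hLconn : Conn G L := by
        rcases hLc with h1 | h1
        · exact absurd h1 hLe
        · exact h1
      have hLne : L.Nonempty := nonempty_iff_ne_empty.2 hLe
      set S : Finset V := X \ L with hS
      have hmemS : ∀ v, v ∈ S ↔ v ∈ X ∧ v ∉ L := by intro v; rw [hS, mem_sdiff]
      set R : Finset V := S.filter (fun v => ∃ l ∈ L, G.Adj v l) with hR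
      have hmemR : ∀ v, v ∈ R ↔ v ∈ S ∧ ∃ l ∈ L, G.Adj v l := by intro v; rw [hR, mem_filter]
      have hyS : y ∈ S := (hmemS y).2 ⟨hyX, fun h1 => (hLd y h1).1 rfl⟩
      have hM'S : cov M' ⊆ S := fun v hv => (hmemS v).2 ⟨hM'X hv, fun h1 => (hLd v h1).2 hv⟩
      -- growing L
      have grow : ∀ v ∈ R, ∀ y M, IsM G M → cov M ⊆ S → y ∈ S → y ∉ cov M →
          (∀ w ∈ X, G.Adj y w → w ∈ cov M) → v ≠ y → v ∈ cov M := by
        intro v hv y M hM hMS hyS hyc hcl hvy
        by_contra hvc
        obtain ⟨hvS, l, hl, hvl⟩ := (hmemR v).1 hv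
        have h1 : W (insert v L) := by
          refine ⟨?_, Or.inr (hLconn.insert hl hvl), y, M, hM, hMS.trans sdiff_subset,
            ((hmemS y).1 hyS).1, hyc, hcl, ?_⟩
          · intro w hw
            rcases mem_insert.1 hw with rfl | hw
            · exact ((hmemS w).1 hvS).1
            · exact hLX hw
          · intro w hw
            rcases mem_insert.1 hw with rfl | hw
            · exact ⟨hvy, hvc⟩
            · refine ⟨?_, ?_⟩
              · rintro rfl
                exact ((hmemS w).1 hyS).2 hw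
              · intro h2
                exact ((hmemS w).1 (hMS h2)).2 hw
        have h2 := hLmax _ h1
        rw [card_insert_of_notMem ((hmemS v).1 hvS).2] at h2
        omega
      have hloc : Loc G D S R := by
        refine ⟨hD, fun v _ => hnbX S v, ?_, filter_subset _ _, ?_, ?_, ?_⟩
        · intro v hv
          obtain ⟨hvS, l, hl, hvl⟩ := (hmemR v).1 hv
          have h1 : insert l (nb G S v) ⊆ nb G univ v := by
            intro w hw
            rcases mem_insert.1 hw with rfl | hw
            · exact mem_nb.2 ⟨mem_univ _, hvl⟩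
            · exact mem_nb.2 ⟨mem_univ _, (mem_nb.1 hw).2⟩
          have h2 := card_le_card h1
          rw [card_insert_of_notMem (fun h3 => ((hmemS l).1 (mem_nb.1 h3).1).2 hl)] at h2
          exact h2.trans (hdeg v)
        · obtain ⟨a, ha, b, hb, hbL, hab⟩ := hX L hLX hLne (by
            rintro rfl
            exact ((hmemS y).1 hyS).2 hyX)
          exact ⟨b, (hmemR b).2 ⟨(hmemS b).2 ⟨hb, hbL⟩, a, ha, hab.symm⟩⟩
        · intro C hCS hCne hCR
          obtain ⟨a, ha, b, hb, hbC, hab⟩ := hX C (hCS.trans sdiff_subset) hCne (by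
            rintro rfl
            obtain ⟨l, hl⟩ := hLne
            exact ((hmemS l).1 (hCS (hLX hl))).2 hl)
          refine ⟨a, ha, b, (hmemS b).2 ⟨hb, ?_⟩, hbC, hab⟩
          intro hbL
          exact hCR a ha ((hmemR a).2 ⟨hCS ha, b, hbL, hab⟩)
        · intro y M hM hMS hyS hyR hyc hcl v hv
          obtain ⟨M2, hM2, hM2M, hM2n, hM2e⟩ := restrict hM y
          have h1 : v ∈ cov M2 := by
            apply grow v hv y M2 hM2 ((cov_mono hM2M).trans hMS) hyS
              (fun h => hyc (cov_mono hM2M h))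
            · intro w hw hyw
              apply hM2n w hyw
              apply hcl w _ hyw
              rw [hmemS]
              exact ⟨hw, fun h2 => hyR ((hmemR y).2 ⟨hyS, w, h2, hyw⟩)⟩
            · rintro rfl
              exact hyR hv
          obtain ⟨w, hw⟩ := mem_cov'.1 h1
          exact ⟨w, hM2M hw, hM2e v w hw⟩
      have hyR : y ∉ R := by
        intro h1
        obtain ⟨-, l, hl, hyl⟩ := (hmemR y).1 h1
        exact (hLd l hl).2 (hycl l (hLX hl) hyl)
      have hRM' : R ⊆ cov M' := by
        intro v hv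
        apply grow v hv y M' hM' hM'S hyS hyc hycl
        rintro rfl
        exact hyR hv
      obtain ⟨M3, hM'3, hM3⟩ := exists_maxM S hM' hM'S
      have hy3 : y ∉ cov M3 := by
        intro h1
        obtain ⟨w, hw⟩ := mem_cov'.1 h1
        have h2 : w ∈ cov M' := hycl w ((hmemS w).1 (hM3.sub (right_mem_cov hw))).1
          (hM3.isM.adj hw)
        obtain ⟨w', hw'⟩ := mem_cov'.1 h2
        have h3 : y = w' := hM3.isM.uniq (a := w) (by rw [Sym2.eq_swap]; exact hw) (hM'3 hw')
        subst h3
        exact hyc (right_mem_cov hw')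
      -- the optimal matching on S
      obtain ⟨M4, ⟨hM4, hM4S, hRM4, hM4i⟩, hM4opt⟩ : ∃ M4, (IsM G M4 ∧ cov M4 ⊆ S ∧ R ⊆ cov M4 ∧
          (∀ a ∈ S, ∀ b ∈ S, a ∉ cov M4 → b ∉ cov M4 → ¬ G.Adj a b)) ∧
          ∀ M', IsM G M' → cov M' ⊆ S → R ⊆ cov M' →
            (∀ a ∈ S, ∀ b ∈ S, a ∉ cov M' → b ∉ cov M' → ¬ G.Adj a b) →
            (cov M4).card ≤ (cov M').card := by
        let P : Finset (Finset (Sym2 V)) := univ.filter (fun N => IsM G N ∧ cov N ⊆ S ∧
          R ⊆ cov N ∧ (∀ a ∈ S, ∀ b ∈ S, a ∉ cov N → b ∉ cov N → ¬ G.Adj a b))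
        have hP : P.Nonempty := ⟨M3, by
          simp only [P, mem_filter, mem_univ, true_and]
          exact ⟨hM3.isM, hM3.sub, hRM'.trans (cov_mono hM'3), hM3.max⟩⟩
        obtain ⟨N, hN, hmin⟩ := exists_min_image P (fun N => (cov N).card) hP
        simp only [P, mem_filter, mem_univ, true_and] at hN hmin
        exact ⟨N, hN, fun M' h1 h2 h3 h4 => hmin M' ⟨h1, h2, h3, h4⟩⟩
      have hM4ne : ∃ x ∈ S, x ∉ cov M4 := by
        by_contra hcon
        push Not at hcon
        have h1 := hM4opt M3 hM3.isM hM3.sub (hRM'.trans (cov_mono hM'3)) hM3.max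
        have h2 : cov M3 ⊂ S := ⟨hM3.sub, fun h3 => hy3 (h3 hyS)⟩
        have h3 := card_lt_card h2
        have h4 := card_le_card (show S ⊆ cov M4 from hcon)
        omega
      have hSbound : S.card ≤ (2 * (D - 1) ^ 2 + 1) * (S \ cov M4).card := by
        have hpos : 1 ≤ (S \ cov M4).card := by
          obtain ⟨x, hx, hxc⟩ := hM4ne
          exact card_pos.2 ⟨x, mem_sdiff.2 ⟨hx, hxc⟩⟩
        obtain ⟨u, hu⟩ := hloc.hRne
        by_cases hR1 : R = {u}
        · exact (case1 hloc hR1).trans (by
            calc 2 * (D - 1) ^ 2 + 1 = (2 * (D - 1) ^ 2 + 1) * 1 := by ring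
              _ ≤ _ := Nat.mul_le_mul_left _ hpos)
        · obtain ⟨v, hv, hvu⟩ : ∃ v ∈ R, v ≠ u := by
            by_contra hcon
            push Not at hcon
            apply hR1
            ext w
            rw [mem_singleton]
            exact ⟨hcon w, fun h1 => h1 ▸ hu⟩
          exact case2 hloc hv hu hvu hM4 hM4S hM4i hRM4 hM4ne hM4opt
      -- induction on L
      have hLlt : L.card < n := by
        rw [← hXn]
        exact card_lt_card ⟨hLX, fun h1 => ((hmemS y).1 hyS).2 (h1 hyX)⟩
      rcases ih L.card hLlt L rfl hLne hLconn with ⟨ML, hML, hLb⟩ | ⟨hLd', -⟩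
      · have hdisj : Disjoint (cov M4) (cov ML) := by
          rw [disjoint_left]
          intro v hv hv'
          exact ((hmemS v).1 (hM4S hv)).2 (hML.sub hv')
        refine ⟨M4 ∪ ML, ⟨hM4.union hML.isM hdisj, ?_, ?_⟩, ?_⟩
        · rw [cov_union]
          exact union_subset (hM4S.trans sdiff_subset) (hML.sub.trans hLX)
        · intro a ha b hb hac hbc hab
          rw [cov_union, mem_union] at hac hbc
          push Not at hac hbc
          by_cases haL : a ∈ L <;> by_cases hbL : b ∈ L
          · exact hML.max a haL b hbL hac.2 hbc.2 hab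
          · have hbR : b ∈ R := (hmemR b).2 ⟨(hmemS b).2 ⟨hb, hbL⟩, a, haL, hab.symm⟩
            exact hbc.1 (hRM4 hbR)
          · have haR : a ∈ R := (hmemR a).2 ⟨(hmemS a).2 ⟨ha, haL⟩, b, hbL, hab⟩
            exact hac.1 (hRM4 haR)
          · exact hM4i a ((hmemS a).2 ⟨ha, haL⟩) b ((hmemS b).2 ⟨hb, hbL⟩) hac.1 hbc.1 hab
        · have h1 : (S \ cov M4).card + (L \ cov ML).card ≤ (X \ cov (M4 ∪ ML)).card := by
            rw [← card_union_of_disjoint]
            · apply card_le_card
              intro v hv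
              rw [mem_sdiff, cov_union, mem_union]
              rcases mem_union.1 hv with hv | hv
              · have hv1 := mem_sdiff.1 hv
                refine ⟨((hmemS v).1 hv1.1).1, ?_⟩
                rintro (h2 | h2)
                · exact hv1.2 h2
                · exact ((hmemS v).1 hv1.1).2 (hML.sub h2)
              · have hv1 := mem_sdiff.1 hv
                refine ⟨hLX hv1.1, ?_⟩
                rintro (h2 | h2)
                · exact ((hmemS v).1 (hM4S h2)).2 hv1.1
                · exact hv1.2 h2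
            · rw [disjoint_left]
              intro v hv hv'
              exact ((hmemS v).1 (mem_sdiff.1 hv).1).2 (mem_sdiff.1 hv').1
          have h2 : S.card + L.card = X.card := card_sdiff_add_card_eq_card hLX
          have h3 := Nat.mul_le_mul_left (2 * (D - 1) ^ 2 + 1) h1
          rw [mul_add] at h3
          omega
      · exfalso
        obtain ⟨b, hb⟩ := hloc.hRne
        obtain ⟨hbS, l, hl, hbl⟩ := (hmemR b).1 hb
        have h1 : insert b (nb G L l) ⊆ nb G univ l := by
          intro w hw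
          rcases mem_insert.1 hw with rfl | hw
          · exact mem_nb.2 ⟨mem_univ _, hbl.symm⟩
          · exact mem_nb.2 ⟨mem_univ _, (mem_nb.1 hw).2⟩
        have h2 := card_le_card h1
        rw [card_insert_of_notMem (fun h3 => ((hmemS b).1 hbS).2 (mem_nb.1 h3).1)] at h2
        have h3 := hLd' l hl
        have h4 := hdeg l
        omega

end Pool.Agent.Lib_helper55.F4
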