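import Pool.Agent.Lib_helper55.F4Defs
import Pool.Agent.Lib_helper55.F4Upper

set_option autoImplicit false
set_option linter.unusedSectionVars false
set_option linter.unusedVariables false
set_option linter.unusedSimpArgs false

namespace Pool.Agent.Lib_helper55.F4

open Finset

theorem card_cov {V : Type*} [Fintype V] [DecidableEq V] {G : SimpleGraph V}
    {M : Finset (Sym2 V)} (hM : IsM G M) : (cov M).card = 2 * M.card := by
  classical
  have h1 : cov M = M.biUnion (fun e => univ.filter (fun v => v ∈ e)) := by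
    ext v
    simp [mem_cov, mem_biUnion]
  rw [h1, card_biUnion]
  · rw [sum_congr rfl (fun e he => ?_), sum_const, smul_eq_mul, mul_comm]
    -- each edge has two vertices
    induction e using Sym2.inductionOn with
    | hf a b =>
      have hab : a ≠ b := hM.ne he
      have : (univ.filter (fun v => v ∈ s(a, b))) = {a, b} := by
        ext v; simp [Sym2.mem_iff]
      rw [this, card_pair hab]
  · intro e he f hf hef
    rw [Function.onFun, disjoint_left]
    intro v hv hv'
    rw [mem_filter] at hv hv'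
    exact hef (hM.disj e he f hf v hv.2 hv'.2)

theorem hasDisjoint_of_matching {V : Type} [Fintype V] [DecidableEq V] {G : SimpleGraph V}
    {M : Finset (Sym2 V)} (hM : MaxM G univ M) {s : ℕ}
    (hs : s ≤ (univ \ cov M).card + M.card) : HasDisjoint G s := by
  classical
  let g : {e // e ∈ M} → V ⊕ G.edgeSet := fun e => Sum.inr ⟨e.1, hM.isM.sub e.1 e.2⟩
  have hg : Function.Injective g := by
    intro e f hef
    simp only [g, Sum.inr.injEq, Subtype.mk.injEq] at hef
    exact Subtype.ext hef
  let T : Finset (V ⊕ G.edgeSet) := (univ \ cov M).image Sum.inl ∪ M.attach.image g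
  have hT : T.card = (univ \ cov M).card + M.card := by
    rw [card_union_of_disjoint, card_image_of_injective _ Sum.inl_injective,
      card_image_of_injective _ hg, card_attach]
    rw [disjoint_left]
    intro x hx hx'
    obtain ⟨a, -, rfl⟩ := mem_image.1 hx
    obtain ⟨b, -, hb⟩ := mem_image.1 hx'
    simp [g] at hb
  have hdis : ∀ x ∈ T, ∀ y ∈ T, x ≠ y → ¬ Joint G x y := by
    intro x hx y hy hxy
    rcases mem_union.1 hx with hx | hx <;> rcases mem_union.1 hy with hy | hy
    · obtain ⟨a, ha, rfl⟩ := mem_image.1 hx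
      obtain ⟨b, hb, rfl⟩ := mem_image.1 hy
      exact hM.max a (mem_univ _) b (mem_univ _) (mem_sdiff.1 ha).2 (mem_sdiff.1 hb).2
    · obtain ⟨a, ha, rfl⟩ := mem_image.1 hx
      obtain ⟨e, -, rfl⟩ := mem_image.1 hy
      intro hj
      exact (mem_sdiff.1 ha).2 (mem_cov.2 ⟨e.1, e.2, hj⟩)
    · obtain ⟨e, -, rfl⟩ := mem_image.1 hx
      obtain ⟨a, ha, rfl⟩ := mem_image.1 hy
      intro hj
      exact (mem_sdiff.1 ha).2 (mem_cov.2 ⟨e.1, e.2, hj⟩)
    · obtain ⟨e, -, rfl⟩ := mem_image.1 hx
      obtain ⟨f, -, rfl⟩ := mem_image.1 hy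
      rintro ⟨hne, v, hv, hv'⟩
      apply hne
      apply Subtype.ext
      exact hM.isM.disj e.1 e.2 f.1 f.2 v hv hv'
  obtain ⟨T', hT'T, hT'⟩ := exists_subset_card_eq (s := T) (n := s) (by rw [hT]; exact hs)
  exact ⟨T', hT', fun x hx y hy => hdis x (hT'T hx) y (hT'T hy)⟩

theorem hasJoint_of_degree {V : Type} [Fintype V] [DecidableEq V] {G : SimpleGraph V} {v : V}
    {r : ℕ} (hr : r ≤ (nb G univ v).card + 1) : HasJoint G r := by
  classical
  let g : {w // w ∈ nb G univ v} → V ⊕ G.edgeSet := fun w => Sum.inr ⟨s(v, w.1), (mem_nb.1 w.2).2⟩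
  have hg : Function.Injective g := by
    intro e f hef
    simp only [g, Sum.inr.injEq, Subtype.mk.injEq] at hef
    apply Subtype.ext
    rcases Sym2.eq_iff.1 hef with ⟨-, h1⟩ | ⟨h1, h2⟩
    · exact h1
    · rw [h2, ← h1]
  let T : Finset (V ⊕ G.edgeSet) := insert (Sum.inl v) ((nb G univ v).attach.image g)
  have hT : T.card = (nb G univ v).card + 1 := by
    rw [card_insert_of_notMem, card_image_of_injective _ hg, card_attach]
    intro h1
    obtain ⟨b, -, hb⟩ := mem_image.1 h1
    simp [g] at hb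
  have hj : ∀ x ∈ T, ∀ y ∈ T, x ≠ y → Joint G x y := by
    intro x hx y hy hxy
    rcases mem_insert.1 hx with rfl | hx <;> rcases mem_insert.1 hy with rfl | hy
    · exact absurd rfl hxy
    · obtain ⟨e, -, rfl⟩ := mem_image.1 hy
      exact Sym2.mem_mk_left _ _
    · obtain ⟨e, -, rfl⟩ := mem_image.1 hx
      exact Sym2.mem_mk_left _ _
    · obtain ⟨e, -, rfl⟩ := mem_image.1 hx
      obtain ⟨f, -, rfl⟩ := mem_image.1 hy
      refine ⟨?_, v, Sym2.mem_mk_left _ _, Sym2.mem_mk_left _ _⟩
      intro h1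
      exact hxy (by rw [show g e = Sum.inr _ from rfl, show g f = Sum.inr _ from rfl, h1])
  obtain ⟨T', hT'T, hT'⟩ := exists_subset_card_eq (s := T) (n := r) (by rw [hT]; exact hr)
  exact ⟨T', hT', fun x hx y hy => hj x (hT'T hx) y (hT'T hy)⟩

theorem conn_univ {V : Type*} [Fintype V] [DecidableEq V] {G : SimpleGraph V}
    (hG : G.Connected) : Conn G (univ : Finset V) := by
  classical
  intro Y _ hne hY
  obtain ⟨a, ha⟩ := hne
  obtain ⟨b, hb⟩ : ∃ b, b ∉ Y := by
    by_contra hcon
    push Not at hcon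
    exact hY (eq_univ_iff_forall.2 hcon)
  obtain ⟨p⟩ := hG.preconnected a b
  obtain ⟨d, -, hd1, hd2⟩ := p.exists_boundary_dart (↑Y : Set V) (by simpa using ha)
    (by simpa using hb)
  exact ⟨d.fst, by simpa using hd1, d.snd, mem_univ _, by simpa using hd2, d.adj⟩

/-- Upper bound: `p = 2 s - 1 - k` forces. -/
theorem forces_upper {m k s : ℕ} (hm : 2 ≤ m) (hk : 1 ≤ k) (hs : m + 3 ≤ s)
    (h1 : (k - 1) * (m ^ 2 + 1) + m + 2 ≤ s) : Forces (m + 3) s (2 * s - 1 - k) := by
  classical
  intro V _ G hcard hG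
  by_cases hdeg : ∃ v, m + 2 ≤ (nb G univ v).card
  · obtain ⟨v, hv⟩ := hdeg
    exact Or.inl (hasJoint_of_degree (v := v) (by omega))
  · right
    push Not at hdeg
    have hD : ∀ v, (nb G univ v).card ≤ m + 1 := fun v => by have := hdeg v; omega
    obtain ⟨j, rfl⟩ : ∃ j, k = j + 1 := ⟨k - 1, by omega⟩
    rw [Nat.add_sub_cancel] at h1
    have hp : 2 * (m + 1) + 2 ≤ Fintype.card V := by
      rw [hcard]
      have : j * 5 ≤ j * (m ^ 2 + 1) := Nat.mul_le_mul_left j (by nlinarith)
      omega
    have hne : (univ : Finset V).Nonempty := by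
      rw [univ_nonempty_iff]
      exact Fintype.card_pos_iff.1 (by omega)
    rcases upper G (D := m + 1) (by omega) hD _ univ rfl hne (conn_univ hG) with ⟨M, hM, hb⟩ | h2
    · apply hasDisjoint_of_matching hM
      rw [card_univ, Nat.add_sub_cancel] at hb
      have h3 : (univ \ cov M).card + (cov M).card = Fintype.card V := by
        rw [card_sdiff_add_card_eq_card (subset_univ _), card_univ]
      have h4 := card_cov hM.isM
      rw [hcard] at h3 hb
      set a := (univ \ cov M).card with ha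
      -- a + 2 |M| = 2 s - 1 - (j + 1)
      by_contra hcon
      push Not at hcon
      have h5 : a ≤ j := by omega
      have h6 : (2 * m ^ 2 + 1) * a ≤ (2 * m ^ 2 + 1) * j := Nat.mul_le_mul_left _ h5
      have h7 : 2 * s ≤ (2 * m ^ 2 + 1) * j + 2 * m + 1 + (j + 1) := by omega
      have h8 : j * (m ^ 2 + 1) = j * m ^ 2 + j := by ring
      have h9 : (2 * m ^ 2 + 1) * j = 2 * (j * m ^ 2) + j := by ring
      omega
    · exfalso
      have := h2.2
      rw [card_univ] at this
      omega

end Pool.Agent.Lib_helper55.F4
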