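import Pool.Agent.Lib_helper55.F4Elem

set_option autoImplicit false
set_option linter.unusedSectionVars false
set_option linter.unusedVariables false
set_option linter.unusedSimpArgs false

namespace Pool.Agent.Lib_helper55.F4

open Finset

/-- A family of at least four pairwise intersecting edges is a star. -/
theorem star_of_intersecting {V : Type*} [DecidableEq V] (P : Finset (Sym2 V))
    (hnd : ∀ e ∈ P, ¬ e.IsDiag) (hint : ∀ e ∈ P, ∀ f ∈ P, ∃ v, v ∈ e ∧ v ∈ f)
    (h4 : 4 ≤ P.card) : ∃ v, ∀ e ∈ P, v ∈ e := by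
  classical
  by_contra hcon
  push Not at hcon
  obtain ⟨e, he⟩ : P.Nonempty := card_pos.1 (by omega)
  induction e using Sym2.inductionOn with
  | hf a b =>
    have hab : a ≠ b := by
      have := hnd _ he
      rwa [Sym2.mk_isDiag_iff] at this
    obtain ⟨f, hf, haf⟩ := hcon a
    obtain ⟨g, hg, hbg⟩ := hcon b
    have hbf : b ∈ f := by
      obtain ⟨v, hv, hv'⟩ := hint _ he f hf
      rcases Sym2.mem_iff.1 hv with rfl | rfl
      · exact absurd hv' haf
      · exact hv'
    have hag : a ∈ g := by
      obtain ⟨v, hv, hv'⟩ := hint _ he g hg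
      rcases Sym2.mem_iff.1 hv with rfl | rfl
      · exact hv'
      · exact absurd hv' hbg
    obtain ⟨c, rfl⟩ := Sym2.mem_iff_exists.1 hbf
    obtain ⟨d, rfl⟩ := Sym2.mem_iff_exists.1 hag
    have hbc : b ≠ c := by
      have := hnd _ hf
      rwa [Sym2.mk_isDiag_iff] at this
    have had : a ≠ d := by
      have := hnd _ hg
      rwa [Sym2.mk_isDiag_iff] at this
    have hcd : c = d := by
      obtain ⟨v, hv, hv'⟩ := hint _ hf _ hg
      rcases Sym2.mem_iff.1 hv with rfl | rfl
      · exact absurd hv' hbg
      · rcases Sym2.mem_iff.1 hv' with rfl | rfl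
        · exact absurd (Sym2.mem_mk_right _ _) haf
        · rfl
    subst hcd
    have hac : a ≠ c := had
    -- every member of P is one of the three
    have hsub : P ⊆ {s(a, b), s(b, c), s(a, c)} := by
      intro h hh
      simp only [mem_insert, mem_singleton]
      obtain ⟨v1, h1, h1'⟩ := hint _ he _ hh
      obtain ⟨v2, h2, h2'⟩ := hint _ hf _ hh
      obtain ⟨v3, h3, h3'⟩ := hint _ hg _ hh
      rw [Sym2.mem_iff] at h1 h2 h3
      have key : ∀ x y, x ≠ y → x ∈ h → y ∈ h → h = s(x, y) := by
        intro x y hxy hx hy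
        exact ((Sym2.mem_and_mem_iff hxy).1 ⟨hx, hy⟩)
      rcases h1 with rfl | rfl
      · rcases h2 with rfl | rfl
        · exact Or.inl (key _ _ hab h1' h2')
        · exact Or.inr (Or.inr (key _ _ hac h1' h2'))
      · rcases h3 with rfl | rfl
        · exact Or.inl (key _ _ hab h3' h1')
        · exact Or.inr (Or.inl (key _ _ hbc h1' h3'))
    have := card_le_card hsub
    have h3 : ({s(a, b), s(b, c), s(a, c)} : Finset (Sym2 V)).card ≤ 3 := card_le_three
    omega

theorem not_hasJoint {V : Type} [Fintype V] [DecidableEq V] {G : SimpleGraph V} {D : ℕ}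
    (hD : 3 ≤ D) (hdeg : ∀ v, (nb G univ v).card ≤ D) : ¬ HasJoint G (D + 2) := by
  classical
  rintro ⟨T, hT, hj⟩
  set TV : Finset V := univ.filter (fun v => Sum.inl v ∈ T) with hTV
  set TE : Finset (Sym2 V) := univ.filter (fun e => ∃ h : e ∈ G.edgeSet, Sum.inr ⟨e, h⟩ ∈ T) with hTE
  have hmemV : ∀ v, v ∈ TV ↔ Sum.inl v ∈ T := by intro v; simp [hTV]
  have hmemE : ∀ e, e ∈ TE ↔ ∃ h : e ∈ G.edgeSet, Sum.inr ⟨e, h⟩ ∈ T := by intro e; simp [hTE]
  have hcard : T.card ≤ TV.card + TE.card := by
    have h1 : T ⊆ TV.image Sum.inl ∪ (univ.filter (fun e : G.edgeSet => Sum.inr e ∈ T)).image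
        Sum.inr := by
      intro x hx
      rw [mem_union]
      rcases x with v | e
      · exact Or.inl (mem_image.2 ⟨v, (hmemV v).2 hx, rfl⟩)
      · exact Or.inr (mem_image.2 ⟨e, mem_filter.2 ⟨mem_univ _, hx⟩, rfl⟩)
    have h2 := card_le_card h1
    have h3 := card_union_le (TV.image (Sum.inl : V → V ⊕ G.edgeSet))
      ((univ.filter (fun e : G.edgeSet => Sum.inr e ∈ T)).image Sum.inr)
    have h4 : (TV.image (Sum.inl : V → V ⊕ G.edgeSet)).card ≤ TV.card := card_image_le
    have h5 : ((univ.filter (fun e : G.edgeSet => (Sum.inr e : V ⊕ G.edgeSet) ∈ T)).image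
        (Sum.inr : G.edgeSet → V ⊕ G.edgeSet)).card ≤
        (univ.filter (fun e : G.edgeSet => (Sum.inr e : V ⊕ G.edgeSet) ∈ T)).card := card_image_le
    have h6 : (univ.filter (fun e : G.edgeSet => (Sum.inr e : V ⊕ G.edgeSet) ∈ T)).card ≤
        TE.card := by
      apply card_le_card_of_injOn (fun e => e.1)
      · intro e he
        rw [mem_coe, mem_filter] at he
        exact (hmemE _).2 ⟨e.2, he.2⟩
      · intro e _ f _ hef
        exact Subtype.ext hef
    omega
  have hVV : ∀ u ∈ TV, ∀ v ∈ TV, u ≠ v → G.Adj u v := by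
    intro u hu v hv huv
    exact hj _ ((hmemV u).1 hu) _ ((hmemV v).1 hv) (fun h => huv (Sum.inl.inj h))
  have hVE : ∀ u ∈ TV, ∀ e ∈ TE, u ∈ e := by
    intro u hu e he
    obtain ⟨h, he'⟩ := (hmemE e).1 he
    exact hj _ ((hmemV u).1 hu) _ he' (by simp)
  have hEE : ∀ e ∈ TE, ∀ f ∈ TE, ∃ v, v ∈ e ∧ v ∈ f := by
    intro e he f hf
    obtain ⟨h, he'⟩ := (hmemE e).1 he
    obtain ⟨h', hf'⟩ := (hmemE f).1 hf
    by_cases hef : e = f
    · subst hef
      induction e using Sym2.inductionOn with
      | hf a b => exact ⟨a, Sym2.mem_mk_left _ _, Sym2.mem_mk_left _ _⟩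
    · exact (hj _ he' _ hf' (by simpa using hef)).2
  have hEedge : ∀ e ∈ TE, e ∈ G.edgeSet := fun e he => ((hmemE e).1 he).1
  -- bound on edges through a vertex
  have hstar : ∀ v, (∀ e ∈ TE, v ∈ e) → TE.card ≤ D := by
    intro v hv
    refine le_trans ?_ (hdeg v)
    apply Finset.card_le_card_of_forall_subsingleton (fun e w => e = s(v, w))
    · intro e he
      obtain ⟨w, hw⟩ := Sym2.mem_iff_exists.1 (hv e he)
      refine ⟨w, mem_nb.2 ⟨mem_univ _, ?_⟩, hw⟩
      have := hEedge e he
      rw [hw] at this
      exact this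
    · intro w _ e he f hf
      have h1 : e = s(v, w) := he.2
      have h2 : f = s(v, w) := hf.2
      rw [h1, h2]
  by_cases h0 : TV.card = 0
  · have h4 : 4 ≤ TE.card := by omega
    obtain ⟨v, hv⟩ := star_of_intersecting TE (fun e he => G.not_isDiag_of_mem_edgeSet
      (hEedge e he)) hEE h4
    have := hstar v hv
    omega
  · obtain ⟨v, hv⟩ : TV.Nonempty := card_pos.1 (by omega)
    by_cases h1 : TV.card = 1
    · have := hstar v (fun e he => hVE v hv e he)
      omega
    · by_cases h2 : TE.card ≤ 1 ∧ TV.card ≤ 2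
      · omega
      · -- many vertices: a clique
        have hTV : TV.card ≤ D + 1 := by
          have h3 : TV.erase v ⊆ nb G univ v := by
            intro w hw
            rw [mem_erase] at hw
            exact mem_nb.2 ⟨mem_univ _, hVV v hv w hw.2 hw.1.symm⟩
          have h4 := card_le_card h3
          rw [card_erase_of_mem hv] at h4
          have := hdeg v
          omega
        obtain ⟨w, hw⟩ : (TV.erase v).Nonempty := card_pos.1 (by
          rw [card_erase_of_mem hv]; omega)
        rw [mem_erase] at hw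
        have hE1 : TE ⊆ {s(v, w)} := by
          intro e he
          rw [mem_singleton]
          exact ((Sym2.mem_and_mem_iff hw.1.symm).1 ⟨hVE v hv e he, hVE w hw.2 e he⟩)
        have hE1c : TE.card ≤ 1 := by
          have := card_le_card hE1
          rwa [card_singleton] at this
        by_cases h3 : 3 ≤ TV.card
        · -- then no edges
          have hE0 : TE = ∅ := by
            rw [eq_empty_iff_forall_notMem]
            intro e he
            obtain ⟨x, hx⟩ : ((TV.erase v).erase w).Nonempty := card_pos.1 (by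
              rw [card_erase_of_mem (mem_erase.2 hw), card_erase_of_mem hv]; omega)
            rw [mem_erase, mem_erase] at hx
            have h5 : e = s(v, w) := mem_singleton.1 (hE1 he)
            have h6 := hVE x hx.2.2 e he
            rw [h5, Sym2.mem_iff] at h6
            rcases h6 with h6 | h6
            · exact hx.2.1 h6
            · exact hx.1 h6
          rw [hE0, card_empty] at hcard
          omega
        · omega

/-- A mutually disjoint set of elements is at most as large as any vertex cover containing its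
vertices. -/
theorem disjoint_le_cover {V : Type} [Fintype V] [DecidableEq V] {G : SimpleGraph V}
    (T : Finset (V ⊕ G.edgeSet)) (hT : ∀ x ∈ T, ∀ y ∈ T, x ≠ y → ¬ Joint G x y)
    (U : Finset V) (hU : ∀ a b, G.Adj a b → a ∈ U ∨ b ∈ U)
    (hV : ∀ v, Sum.inl v ∈ T → v ∈ U) : T.card ≤ U.card := by
  classical
  apply Finset.card_le_card_of_forall_subsingleton
    (fun (x : V ⊕ G.edgeSet) v => match x with
      | Sum.inl u => u = v
      | Sum.inr e => v ∈ (e : Sym2 V))
  · intro x hx
    rcases x with u | e
    · exact ⟨u, hV u hx, rfl⟩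
    · obtain ⟨e, he⟩ := e
      induction e using Sym2.inductionOn with
      | hf a b =>
        rcases hU a b he with h | h
        · exact ⟨a, h, Sym2.mem_mk_left _ _⟩
        · exact ⟨b, h, Sym2.mem_mk_right _ _⟩
  · intro v hv x hx y hy
    by_contra hne
    have h1 := hT x hx.1 y hy.1 hne
    have hx2 := hx.2
    have hy2 := hy.2
    rcases x with u | e <;> rcases y with w | f
    · simp only at hx2 hy2
      exact hne (by rw [hx2, hy2])
    · simp only at hx2 hy2
      subst hx2
      exact h1 hy2
    · simp only at hx2 hy2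
      subst hy2
      exact h1 hx2
    · simp only at hx2 hy2
      exact h1 ⟨fun h => hne (by rw [h]), v, hx2, hy2⟩

end Pool.Agent.Lib_helper55.F4
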