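import Pool.Agent.Lib_helper55.F4Lower1

set_option autoImplicit false
set_option linter.unusedSectionVars false
set_option linter.unusedVariables false
set_option linter.unusedSimpArgs false

namespace Pool.Agent.Lib_helper55.F4

open Finset

/-- Transport of elements along a graph embedding. -/
def elemMap {V W : Type} {G : SimpleGraph V} {H : SimpleGraph W} (φ : G ↪g H) :
    V ⊕ G.edgeSet → W ⊕ H.edgeSet
  | Sum.inl v => Sum.inl (φ v)
  | Sum.inr e => Sum.inr (φ.mapEdgeSet e)

theorem elemMap_injective {V W : Type} {G : SimpleGraph V} {H : SimpleGraph W} (φ : G ↪g H) :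
    Function.Injective (elemMap φ) := by
  intro x y hxy
  rcases x with x | x <;> rcases y with y | y
  · simp only [elemMap, Sum.inl.injEq] at hxy
    rw [φ.injective hxy]
  · simp [elemMap] at hxy
  · simp [elemMap] at hxy
  · simp only [elemMap, Sum.inr.injEq] at hxy
    rw [φ.mapEdgeSet.injective hxy]

theorem mem_mapEdgeSet {V W : Type} {G : SimpleGraph V} {H : SimpleGraph W} (φ : G ↪g H)
    (u : V) (e : G.edgeSet) : φ u ∈ (φ.mapEdgeSet e : Sym2 W) ↔ u ∈ (e : Sym2 V) := by
  obtain ⟨e, he⟩ := e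
  induction e using Sym2.inductionOn with
  | hf a b =>
    change φ u ∈ Sym2.map φ s(a, b) ↔ _
    rw [Sym2.map_mk, Sym2.mem_iff, Sym2.mem_iff]
    simp [φ.injective.eq_iff]

theorem joint_elemMap {V W : Type} {G : SimpleGraph V} {H : SimpleGraph W} (φ : G ↪g H)
    (x y : V ⊕ G.edgeSet) : Joint H (elemMap φ x) (elemMap φ y) ↔ Joint G x y := by
  rcases x with x | x <;> rcases y with y | y
  · exact φ.map_adj_iff
  · exact mem_mapEdgeSet φ x y
  · exact mem_mapEdgeSet φ y x
  · change (φ.mapEdgeSet x ≠ φ.mapEdgeSet y ∧ ∃ v, v ∈ (φ.mapEdgeSet x : Sym2 W) ∧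
      v ∈ (φ.mapEdgeSet y : Sym2 W)) ↔ (x ≠ y ∧ ∃ v, v ∈ (x : Sym2 V) ∧ v ∈ (y : Sym2 V))
    constructor
    · rintro ⟨h1, v, h2, h3⟩
      refine ⟨fun h => h1 (by rw [h]), ?_⟩
      have h4 : ∃ u, φ u = v := by
        obtain ⟨e, he⟩ := x
        induction e using Sym2.inductionOn with
        | hf a b =>
          change v ∈ Sym2.map φ s(a, b) at h2
          rw [Sym2.map_mk, Sym2.mem_iff] at h2
          rcases h2 with rfl | rfl
          · exact ⟨a, rfl⟩
          · exact ⟨b, rfl⟩
      obtain ⟨u, rfl⟩ := h4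
      exact ⟨u, (mem_mapEdgeSet φ u x).1 h2, (mem_mapEdgeSet φ u y).1 h3⟩
    · rintro ⟨h1, v, h2, h3⟩
      exact ⟨fun h => h1 (φ.mapEdgeSet.injective h), φ v, (mem_mapEdgeSet φ v x).2 h2,
        (mem_mapEdgeSet φ v y).2 h3⟩

theorem hasJoint_embedding {V W : Type} {G : SimpleGraph V} {H : SimpleGraph W} (φ : G ↪g H)
    {r : ℕ} (h : HasJoint G r) : HasJoint H r := by
  classical
  obtain ⟨T, hT, hj⟩ := h
  refine ⟨T.image (elemMap φ), ?_, ?_⟩
  · rw [card_image_of_injective _ (elemMap_injective φ), hT]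
  · intro x hx y hy hxy
    obtain ⟨x', hx', rfl⟩ := mem_image.1 hx
    obtain ⟨y', hy', rfl⟩ := mem_image.1 hy
    exact (joint_elemMap φ x' y').2 (hj x' hx' y' hy' (fun h => hxy (by rw [h])))

theorem hasDisjoint_embedding {V W : Type} {G : SimpleGraph V} {H : SimpleGraph W} (φ : G ↪g H)
    {r : ℕ} (h : HasDisjoint G r) : HasDisjoint H r := by
  classical
  obtain ⟨T, hT, hj⟩ := h
  refine ⟨T.image (elemMap φ), ?_, ?_⟩
  · rw [card_image_of_injective _ (elemMap_injective φ), hT]
  · intro x hx y hy hxy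
    obtain ⟨x', hx', rfl⟩ := mem_image.1 hx
    obtain ⟨y', hy', rfl⟩ := mem_image.1 hy
    exact fun h => hj x' hx' y' hy' (fun h => hxy (by rw [h])) ((joint_elemMap φ x' y').1 h)

theorem not_forces_mono {r s n : ℕ} (hn : 1 ≤ n) (h : ¬ Forces r s (n + 1)) :
    ¬ Forces r s n := by
  classical
  intro hf
  apply h
  intro V _ G hcard hG
  have : Nontrivial V := by
    rw [← Fintype.one_lt_card_iff_nontrivial, hcard]; omega
  obtain ⟨v, hv⟩ := hG.exists_connected_induce_compl_singleton_of_finite_nontrivial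
  have hc : Fintype.card (({v}ᶜ : Set V)) = n := by
    rw [Fintype.card_compl_set, hcard]
    simp
  rcases hf _ (G.induce {v}ᶜ) hc hv with h1 | h1
  · exact Or.inl (hasJoint_embedding (SimpleGraph.Embedding.induce _) h1)
  · exact Or.inr (hasDisjoint_embedding (SimpleGraph.Embedding.induce _) h1)

theorem not_forces_le {r s n : ℕ} (h : ¬ Forces r s n) : ∀ p, 1 ≤ p → p ≤ n → ¬ Forces r s p := by
  intro p hp hpn
  obtain ⟨d, rfl⟩ := Nat.exists_eq_add_of_le hpn
  clear hpn
  induction d with
  | zero => exact h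
  | succ d ih => exact ih (not_forces_mono (by omega) h)

/-- The relation between the link vertices and the block vertices. -/
def cAdj {k m : ℕ} {a : Fin (k * m + 1) → ℕ} (j : Fin k)
    (x : Σ i : Fin (k * m + 1), Fin (a i) × Bool) : Prop :=
  x.2.1.val = 0 ∧ ((x.2.2 = false ∧ j.val * m < x.1.val ∧ x.1.val ≤ j.val * m + m) ∨
    (x.2.2 = true ∧ x.1.val = j.val * m))

/-- The extremal graphs. -/
def ext (k m : ℕ) (a : Fin (k * m + 1) → ℕ) :
    SimpleGraph (Fin k ⊕ (Σ i : Fin (k * m + 1), Fin (a i) × Bool)) where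
  Adj x y := match x, y with
    | Sum.inl _, Sum.inl _ => False
    | Sum.inl j, Sum.inr x => cAdj j x
    | Sum.inr x, Sum.inl j => cAdj j x
    | Sum.inr x, Sum.inr y => x.1 = y.1 ∧ x.2.2 ≠ y.2.2
  symm := ⟨by
    intro x y h
    rcases x with x | x <;> rcases y with y | y
    · exact h
    · exact h
    · exact h
    · exact ⟨h.1.symm, h.2.symm⟩⟩
  loopless := ⟨by
    intro x h
    rcases x with x | x
    · exact h
    · exact h.2 rfl⟩

theorem cAdj_inj {k m : ℕ} {a : Fin (k * m + 1) → ℕ} (hm : 1 ≤ m) {j j' : Fin k}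
    {x : Σ i : Fin (k * m + 1), Fin (a i) × Bool} (h : cAdj j x) (h' : cAdj j' x) : j = j' := by
  apply Fin.ext
  obtain ⟨-, h1⟩ := h
  obtain ⟨-, h2⟩ := h'
  rcases h1 with ⟨h1, h3, h4⟩ | ⟨h1, h3⟩ <;> rcases h2 with ⟨h2, h5, h6⟩ | ⟨h2, h5⟩
  · have h7 : j.val * m < (j'.val + 1) * m := by rw [add_mul, one_mul]; omega
    have h8 : j'.val * m < (j.val + 1) * m := by rw [add_mul, one_mul]; omega
    have h9 := Nat.lt_of_mul_lt_mul_right h7
    have h10 := Nat.lt_of_mul_lt_mul_right h8
    omega
  · rw [h1] at h2; exact absurd h2 (by simp)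
  · rw [h1] at h2; exact absurd h2 (by simp)
  · rw [h3] at h5
    exact Nat.eq_of_mul_eq_mul_right (by omega) h5

theorem ext_degree {k m : ℕ} {a : Fin (k * m + 1) → ℕ} (hm : 1 ≤ m) (ha : ∀ i, a i ≤ m)
    (v : Fin k ⊕ (Σ i : Fin (k * m + 1), Fin (a i) × Bool)) :
    (nb (ext k m a) univ v).card ≤ m + 1 := by
  classical
  rcases v with j | v
  · -- link vertex
    have h1 : (nb (ext k m a) univ (Sum.inl j)).card ≤ (Icc (j.val * m) (j.val * m + m)).card := by
      apply card_le_card_of_injOn (fun x => match x with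
        | Sum.inl _ => 0
        | Sum.inr x => x.1.val)
      · intro x hx
        rw [mem_coe, mem_nb] at hx
        rcases x with x | x
        · exact absurd hx.2 (by simp [ext])
        · have h2 : cAdj j x := hx.2
          rw [mem_coe, mem_Icc]
          rcases h2.2 with ⟨-, h3, h4⟩ | ⟨-, h3⟩
          · exact ⟨h3.le, h4⟩
          · exact ⟨h3.ge, by simp only [h3]; omega⟩
      · intro x hx y hy hxy
        rw [mem_coe, mem_nb] at hx hy
        rcases x with x | x
        · exact absurd hx.2 (by simp [ext])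
        · rcases y with y | y
          · exact absurd hy.2 (by simp [ext])
          · have h2 : cAdj j x := hx.2
            have h3 : cAdj j y := hy.2
            simp only at hxy
            obtain ⟨i, x1, x2⟩ := x
            obtain ⟨i', y1, y2⟩ := y
            have hi : i = i' := Fin.ext hxy
            subst hi
            have h4 : x1 = y1 := Fin.ext (h2.1.trans h3.1.symm)
            subst h4
            obtain ⟨-, h2⟩ := h2
            obtain ⟨-, h3⟩ := h3
            simp only at h2 h3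
            have h5 : x2 = y2 := by
              rcases h2 with ⟨h2, h4, h5⟩ | ⟨h2, h4⟩ <;> rcases h3 with ⟨h3, h6, h7⟩ | ⟨h3, h6⟩
              · rw [h2, h3]
              · omega
              · omega
              · rw [h2, h3]
            subst h5
            rfl
    rw [Nat.card_Icc] at h1
    omega
  · obtain ⟨i, x, b⟩ := v
    have h1 : nb (ext k m a) univ (Sum.inr ⟨i, x, b⟩) ⊆
        (univ.image (fun y : Fin (a i) => (Sum.inr ⟨i, y, !b⟩ : Fin k ⊕
          (Σ i : Fin (k * m + 1), Fin (a i) × Bool)))) ∪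
        (univ.filter (fun j : Fin k => cAdj (a := a) j ⟨i, x, b⟩)).image Sum.inl := by
      intro y hy
      rw [mem_nb] at hy
      rw [mem_union]
      rcases y with j | ⟨i', y, b'⟩
      · right
        exact mem_image.2 ⟨j, mem_filter.2 ⟨mem_univ _, hy.2⟩, rfl⟩
      · left
        obtain ⟨h2, h3⟩ := hy.2
        simp only at h2 h3
        subst h2
        refine mem_image.2 ⟨y, mem_univ _, ?_⟩
        have : b' = !b := by
          cases b <;> cases b' <;> simp_all
        rw [this]
    have h2 := card_le_card h1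
    have h3 := card_union_le (univ.image (fun y : Fin (a i) => (Sum.inr ⟨i, y, !b⟩ : Fin k ⊕
          (Σ i : Fin (k * m + 1), Fin (a i) × Bool))))
        ((univ.filter (fun j : Fin k => cAdj (a := a) j ⟨i, x, b⟩)).image Sum.inl)
    have h4 : (univ.image (fun y : Fin (a i) => (Sum.inr ⟨i, y, !b⟩ : Fin k ⊕
          (Σ i : Fin (k * m + 1), Fin (a i) × Bool)))).card ≤ a i := by
      refine card_image_le.trans ?_
      simp
    have h5 : ((univ.filter (fun j : Fin k => cAdj (a := a) j ⟨i, x, b⟩)).image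
        (Sum.inl : Fin k → Fin k ⊕ (Σ i : Fin (k * m + 1), Fin (a i) × Bool))).card ≤ 1 := by
      refine card_image_le.trans ?_
      rw [card_le_one]
      intro j hj j' hj'
      rw [mem_filter] at hj hj'
      exact cAdj_inj hm hj.2 hj'.2
    have := ha i
    omega

theorem ext_not_hasDisjoint {k m : ℕ} {a : Fin (k * m + 1) → ℕ} {s : ℕ}
    (hs : k + ∑ i, a i < s) : ¬ HasDisjoint (ext k m a) s := by
  classical
  rintro ⟨T, hT, hd⟩
  let σ : Fin (k * m + 1) → Bool := fun i => decide (∃ y : Fin (a i), Sum.inl (Sum.inr ⟨i, y, true⟩) ∈ T)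
  let g : Fin k ⊕ (Σ i : Fin (k * m + 1), Fin (a i)) → Fin k ⊕ (Σ i : Fin (k * m + 1), Fin (a i) × Bool) :=
    fun x => match x with
      | Sum.inl j => Sum.inl j
      | Sum.inr ⟨i, y⟩ => Sum.inr ⟨i, y, σ i⟩
  let U : Finset (Fin k ⊕ (Σ i : Fin (k * m + 1), Fin (a i) × Bool)) := univ.image g
  have hUin : ∀ j, Sum.inl j ∈ U := fun j => mem_image.2 ⟨Sum.inl j, mem_univ _, rfl⟩
  have hUin2 : ∀ i (y : Fin (a i)) b, b = σ i → Sum.inr ⟨i, y, b⟩ ∈ U := by
    intro i y b hb
    exact mem_image.2 ⟨Sum.inr ⟨i, y⟩, mem_univ _, by rw [hb]⟩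
  have hUcard : U.card ≤ k + ∑ i, a i := by
    refine card_image_le.trans ?_
    rw [card_univ, Fintype.card_sum, Fintype.card_sigma]
    simp
  have h1 := disjoint_le_cover T hd U (by
    intro x y hxy
    rcases x with j | ⟨i, x, b⟩
    · exact Or.inl (hUin j)
    · rcases y with j | ⟨i', y, b'⟩
      · exact Or.inr (hUin j)
      · obtain ⟨h2, h3⟩ := hxy
        simp only at h2 h3
        subst h2
        by_cases hb : b = σ i
        · exact Or.inl (hUin2 i x b hb)
        · refine Or.inr (hUin2 i y b' ?_)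
          cases h4 : σ i <;> rw [h4] at hb <;> cases b <;> cases b' <;> simp_all) (by
    intro v hv
    rcases v with j | ⟨i, x, b⟩
    · exact hUin j
    · apply hUin2
      cases b
      · symm
        simp only [σ, decide_eq_false_iff_not]
        rintro ⟨y, hy⟩
        apply hd _ hv _ hy
        · intro h2
          simp at h2
        · exact ⟨rfl, by simp⟩
      · symm
        simp only [σ, decide_eq_true_eq]
        exact ⟨x, hv⟩)
  omega

theorem ext_connected {k m : ℕ} {a : Fin (k * m + 1) → ℕ} (hk : 1 ≤ k) (hm : 1 ≤ m)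
    (ha : ∀ i, 1 ≤ a i) : (ext k m a).Connected := by
  classical
  let root : Fin k ⊕ (Σ i : Fin (k * m + 1), Fin (a i) × Bool) := Sum.inl ⟨0, hk⟩
  -- the base point of each block
  let base : ∀ (i : Fin (k * m + 1)) (b : Bool), Fin k ⊕ (Σ i : Fin (k * m + 1), Fin (a i) × Bool) :=
    fun i b => Sum.inr ⟨i, ⟨0, ha i⟩, b⟩
  have hbase : ∀ i, (ext k m a).Adj (base i false) (base i true) := fun i => ⟨rfl, by simp⟩
  -- link vertices are connected to the root
  have hlink : ∀ (j : ℕ) (hj : j < k), (ext k m a).Reachable root (Sum.inl ⟨j, hj⟩) := by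
    intro j
    induction j with
    | zero => intro hj; exact SimpleGraph.Reachable.refl _
    | succ j ih =>
      intro hj
      have hjk : j < k := by omega
      have hi : (j + 1) * m < k * m + 1 := by
        have := Nat.mul_le_mul_right m (show j + 1 ≤ k by omega)
        omega
      have h1 : (ext k m a).Adj (Sum.inl ⟨j, hjk⟩) (base ⟨(j + 1) * m, hi⟩ false) := by
        refine ⟨rfl, Or.inl ⟨rfl, ?_, ?_⟩⟩
        · simp only [add_mul, one_mul]; omega
        · simp only [add_mul, one_mul]; omega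
      have h2 : (ext k m a).Adj (Sum.inl ⟨j + 1, hj⟩) (base ⟨(j + 1) * m, hi⟩ true) :=
        ⟨rfl, Or.inr ⟨rfl, rfl⟩⟩
      exact (ih hjk).trans (h1.reachable.trans ((hbase _).reachable.trans h2.symm.reachable))
  -- base points are connected to the root
  have hb0 : ∀ i b, (ext k m a).Reachable root (base i b) := by
    intro i b
    have h1 : ∃ b', (ext k m a).Reachable root (base i b') := by
      by_cases hi : i.val = 0
      · refine ⟨true, ?_⟩
        have : (ext k m a).Adj (Sum.inl ⟨0, hk⟩) (base i true) :=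
          ⟨rfl, Or.inr ⟨rfl, by simp [hi]⟩⟩
        exact this.reachable
      · refine ⟨false, ?_⟩
        have hi' := i.2
        have hj : (i.val - 1) / m < k := by
          rw [Nat.div_lt_iff_lt_mul (by omega)]
          omega
        have hdm := Nat.div_add_mod (i.val - 1) m
        have hmod := Nat.mod_lt (i.val - 1) (show 0 < m by omega)
        have h2 : (ext k m a).Adj (Sum.inl ⟨(i.val - 1) / m, hj⟩) (base i false) := by
          have hmc : (i.val - 1) / m * m = m * ((i.val - 1) / m) := mul_comm _ _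
          refine ⟨rfl, Or.inl ⟨rfl, ?_, ?_⟩⟩
          · simp only [base]
            omega
          · simp only [base]
            omega
        exact (hlink _ hj).trans h2.reachable
    obtain ⟨b', hb'⟩ := h1
    by_cases hbb : b = b'
    · rw [hbb]; exact hb'
    · cases b <;> cases b'
      · exact absurd rfl hbb
      · exact hb'.trans (hbase i).symm.reachable
      · exact hb'.trans (hbase i).reachable
      · exact absurd rfl hbb
  have hall : ∀ v, (ext k m a).Reachable root v := by
    intro v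
    rcases v with j | ⟨i, x, b⟩
    · exact hlink j.1 j.2
    · have h1 : (ext k m a).Adj (base i (!b)) (Sum.inr ⟨i, x, b⟩) := ⟨rfl, by simp [base]⟩
      exact (hb0 i (!b)).trans h1.reachable
  have : Nonempty (Fin k ⊕ (Σ i : Fin (k * m + 1), Fin (a i) × Bool)) := ⟨root⟩
  exact SimpleGraph.Connected.mk (fun u v => (hall u).symm.trans (hall v))

theorem exists_sizes (m : ℕ) (hm : 1 ≤ m) : ∀ n t : ℕ, n ≤ t → t ≤ m * n →
    ∃ a : Fin n → ℕ, (∀ i, 1 ≤ a i ∧ a i ≤ m) ∧ ∑ i, a i = t := by
  intro n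
  induction n with
  | zero =>
    intro t h1 h2
    exact ⟨Fin.elim0, fun i => i.elim0, by simp at h2 ⊢; omega⟩
  | succ n ih =>
    intro t h1 h2
    have h3 : m * (n + 1) = m * n + m := by ring
    have h4 : n ≤ m * n := Nat.le_mul_of_pos_left n (by omega)
    obtain ⟨c, hc1, hc2, hc3, hc4⟩ : ∃ c, 1 ≤ c ∧ c ≤ m ∧ n ≤ t - c ∧ t - c ≤ m * n ∧ c ≤ t := by
      by_cases h5 : t ≤ m * n + 1
      · exact ⟨1, le_refl _, hm, by omega, by omega, by omega⟩
      · exact ⟨t - m * n, by omega, by omega, by omega, by omega, by omega⟩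
    obtain ⟨a, ha, hsum⟩ := ih (t - c) hc3 hc4.1
    refine ⟨Fin.cons c a, ?_, ?_⟩
    · intro i
      refine Fin.cases ?_ ?_ i
      · simp only [Fin.cons_zero]; exact ⟨hc1, hc2⟩
      · intro j; simp only [Fin.cons_succ]; exact ha j
    · rw [Fin.sum_univ_succ]
      simp only [Fin.cons_zero, Fin.cons_succ]
      rw [hsum]
      have := hc4.2
      omega

theorem not_forces_lower {m k s : ℕ} (hm : 2 ≤ m) (hk : 1 ≤ k) (hs : m + 3 ≤ s)
    (h1 : (k - 1) * (m ^ 2 + 1) + m + 2 ≤ s) (h2 : s ≤ m + 1 + k * (m ^ 2 + 1)) :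
    ¬ Forces (m + 3) s (2 * s - 2 - k) := by
  classical
  intro hf
  have h3 : k * m + 1 ≤ s - 1 - k := by
    obtain ⟨j, rfl⟩ : ∃ j, k = j + 1 := ⟨k - 1, by omega⟩
    rw [Nat.add_sub_cancel] at h1
    rcases Nat.eq_zero_or_pos j with rfl | hj
    · simp; omega
    · have h4 : j * (m ^ 2 + 1) ≥ j * (m + 1) + 1 := by
        have h5 : m + 3 ≤ m ^ 2 + 1 := by nlinarith
        have h6 := Nat.mul_le_mul_left j h5
        have h7 : j * (m + 3) = j * (m + 1) + 2 * j := by ring
        omega
      have h8 : (j + 1) * m + 1 + 1 + (j + 1) = j * (m + 1) + m + 3 := by ring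
      omega
  have h4 : s - 1 - k ≤ m * (k * m + 1) := by
    have : m * (k * m + 1) + k + 1 = m + 1 + k * (m ^ 2 + 1) := by ring
    omega
  obtain ⟨a, ha, hsum⟩ := exists_sizes m (by omega) (k * m + 1) (s - 1 - k) h3 h4
  have hcard : Fintype.card (Fin k ⊕ (Σ i : Fin (k * m + 1), Fin (a i) × Bool)) = 2 * s - 2 - k := by
    rw [Fintype.card_sum, Fintype.card_sigma]
    simp only [Fintype.card_prod, Fintype.card_fin, Fintype.card_bool]
    rw [← sum_mul, hsum]
    omega
  rcases hf _ (ext k m a) hcard (ext_connected hk (by omega) (fun i => (ha i).1)) with h5 | h5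
  · exact not_hasJoint (D := m + 1) (by omega) (ext_degree (by omega) (fun i => (ha i).2)) h5
  · exact ext_not_hasDisjoint (by rw [hsum]; omega) h5

end Pool.Agent.Lib_helper55.F4
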