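import Pool.Agent.Lib_helper55.F4Basic

set_option autoImplicit false
set_option linter.unusedSectionVars false
set_option linter.unusedVariables false
set_option linter.unusedSimpArgs false

namespace Pool.Agent.Lib_helper55.F4

open Finset

variable {V : Type*} [Fintype V] [DecidableEq V] {G : SimpleGraph V}

/-- Neighbours of `c` inside `X`. -/
noncomputable def nb (G : SimpleGraph V) (X : Finset V) (c : V) : Finset V :=
  @Finset.filter V (fun w => G.Adj c w) (Classical.decPred _) X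

theorem mem_nb {X : Finset V} {c w : V} : w ∈ nb G X c ↔ w ∈ X ∧ G.Adj c w := by
  simp [nb]

theorem nb_mono {X Y : Finset V} (h : X ⊆ Y) (c : V) : nb G X c ⊆ nb G Y c := by
  intro w hw
  rw [mem_nb] at hw ⊢
  exact ⟨h hw.1, hw.2⟩

theorem swap2 {M : Finset (Sym2 V)} (hM : IsM G M) {a a' b b' : V} (ha : s(a, a') ∈ M)
    (hb : s(b, b') ∈ M) (hne : s(a, a') ≠ s(b, b')) (hadj : G.Adj a' b') :
    ∃ M', IsM G M' ∧ (∀ v, v ∈ cov M' ↔ v ∈ cov M ∧ v ≠ a ∧ v ≠ b) ∧
      (∀ e, e ∈ M' ↔ e = s(a', b') ∨ (e ∈ M ∧ e ≠ s(a, a') ∧ e ≠ s(b, b'))) := by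
  have hM1 : IsM G (M.erase s(a, a')) := hM.erase _
  have hb1 : s(b, b') ∈ M.erase s(a, a') := mem_erase.2 ⟨hne.symm, hb⟩
  have hM2 : IsM G ((M.erase s(a, a')).erase s(b, b')) := hM1.erase _
  have hc2 : ∀ v, v ∈ cov ((M.erase s(a, a')).erase s(b, b')) ↔
      v ∈ cov M ∧ v ≠ a ∧ v ≠ a' ∧ v ≠ b ∧ v ≠ b' := by
    intro v
    rw [cov_erase hM1 hb1, cov_erase hM ha]
    simp only [mem_erase]
    tauto
  have ha' : a' ∉ cov ((M.erase s(a, a')).erase s(b, b')) := by rw [hc2]; tauto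
  have hb' : b' ∉ cov ((M.erase s(a, a')).erase s(b, b')) := by rw [hc2]; tauto
  refine ⟨insert s(a', b') ((M.erase s(a, a')).erase s(b, b')), hM2.insert hadj ha' hb', ?_, ?_⟩
  · have h1 : a ≠ a' := hM.ne ha
    have h2 : b ≠ b' := hM.ne hb
    have h3 : a ≠ b' := by
      rintro rfl
      apply hne
      have := hM.uniq (a := a) ha (by rw [Sym2.eq_swap]; exact hb)
      rw [this]
      exact Sym2.eq_swap
    have h4 : b ≠ a' := by
      rintro rfl
      apply hne
      have := hM.uniq (a := b) hb (by rw [Sym2.eq_swap]; exact ha)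
      rw [this]
      exact Sym2.eq_swap
    intro v
    rw [cov_insert]
    simp only [mem_insert, hc2]
    constructor
    · rintro (rfl | rfl | h)
      · exact ⟨right_mem_cov ha, h1.symm, h4.symm⟩
      · exact ⟨right_mem_cov hb, h3.symm, h2.symm⟩
      · exact ⟨h.1, h.2.1, h.2.2.2.1⟩
    · rintro ⟨h5, h6, h7⟩
      by_cases h8 : v = a'
      · exact Or.inl h8
      · by_cases h9 : v = b'
        · exact Or.inr (Or.inl h9)
        · exact Or.inr (Or.inr ⟨h5, h6, h8, h7, h9⟩)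
  · intro e
    simp only [mem_insert, mem_erase]
    tauto

theorem swap3 {M : Finset (Sym2 V)} (hM : IsM G M) {a a' e e' b b' : V} (ha : s(a, a') ∈ M)
    (he : s(e, e') ∈ M) (hb : s(b, b') ∈ M) (hae : s(a, a') ≠ s(e, e'))
    (hab : s(a, a') ≠ s(b, b')) (heb : s(e, e') ≠ s(b, b')) (h1 : G.Adj a' e)
    (h2 : G.Adj e' b') :
    ∃ M', IsM G M' ∧ (∀ v, v ∈ cov M' ↔ v ∈ cov M ∧ v ≠ a ∧ v ≠ b) := by
  have he' : s(e', e) ∈ M := by rw [Sym2.eq_swap]; exact he
  have hae' : s(a, a') ≠ s(e', e) := by rw [Sym2.eq_swap (a := e')]; exact hae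
  obtain ⟨M1, hM1, hc1, hm1⟩ := swap2 hM ha he' hae' h1
  have hb1 : s(b, b') ∈ M1 := by
    rw [hm1]
    refine Or.inr ⟨hb, hab.symm, ?_⟩
    rw [Sym2.eq_swap (a := e')]; exact heb.symm
  have hM2 : IsM G (M1.erase s(b, b')) := hM1.erase _
  have hc2 : ∀ v, v ∈ cov (M1.erase s(b, b')) ↔
      v ∈ cov M ∧ v ≠ a ∧ v ≠ e' ∧ v ≠ b ∧ v ≠ b' := by
    intro v
    rw [cov_erase hM1 hb1]
    simp only [mem_erase, hc1]
    tauto
  have x1 : e' ∉ cov (M1.erase s(b, b')) := by rw [hc2]; tauto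
  have x2 : b' ∉ cov (M1.erase s(b, b')) := by rw [hc2]; tauto
  refine ⟨insert s(e', b') (M1.erase s(b, b')), hM2.insert h2 x1 x2, ?_⟩
  have h3 : a ≠ e' := by
    rintro rfl
    apply hae
    have := hM.uniq (a := a) ha he'
    rw [this]; exact Sym2.eq_swap
  have h4 : a ≠ b' := by
    rintro rfl
    apply hab
    have := hM.uniq (a := a) ha (by rw [Sym2.eq_swap]; exact hb)
    rw [this]; exact Sym2.eq_swap
  have h5 : b ≠ e' := by
    rintro rfl
    apply heb
    have := hM.uniq (a := b) hb he'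
    rw [this]; exact Sym2.eq_swap
  have h6 : b ≠ b' := hM.ne hb
  intro v
  rw [cov_insert]
  simp only [mem_insert, hc2]
  constructor
  · rintro (rfl | rfl | h)
    · exact ⟨left_mem_cov he', h3.symm, h5.symm⟩
    · exact ⟨right_mem_cov hb, h4.symm, h6.symm⟩
    · exact ⟨h.1, h.2.1, h.2.2.2.1⟩
  · rintro ⟨h7, h8, h9⟩
    by_cases h10 : v = e'
    · exact Or.inl h10
    · by_cases h11 : v = b'
      · exact Or.inr (Or.inl h11)
      · exact Or.inr (Or.inr ⟨h7, h8, h10, h9, h11⟩)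

/-- Switching along `x - e' - e - c`: the new uncovered vertex is `c'`. -/
theorem switch {M : Finset (Sym2 V)} (hM : IsM G M) {c c' e e' x : V} (hc : s(c', c) ∈ M)
    (he : s(e', e) ∈ M) (hne : s(c', c) ≠ s(e', e)) (h1 : G.Adj c e) (h2 : G.Adj e' x)
    (hx : x ∉ cov M) :
    ∃ M', IsM G M' ∧ (∀ v, v ∈ cov M' ↔ (v ∈ cov M ∧ v ≠ c') ∨ v = x) ∧
      (∀ f, f ∈ M' ↔ f = s(e', x) ∨ f = s(c, e) ∨ (f ∈ M ∧ f ≠ s(c', c) ∧ f ≠ s(e', e))) := by
  obtain ⟨M1, hM1, hc1, hm1⟩ := swap2 hM hc he hne h1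
  have x1 : e' ∉ cov M1 := by rw [hc1]; tauto
  have x2 : x ∉ cov M1 := by rw [hc1]; tauto
  have h3 : c' ≠ e' := by
    rintro rfl
    apply hne
    rw [hM.uniq (a := c') hc he]
  refine ⟨insert s(e', x) M1, hM1.insert h2 x1 x2, ?_, ?_⟩
  · intro v
    rw [cov_insert]
    simp only [mem_insert, hc1]
    constructor
    · rintro (rfl | rfl | h)
      · exact Or.inl ⟨left_mem_cov he, h3.symm⟩
      · exact Or.inr rfl
      · exact Or.inl ⟨h.1, h.2.1⟩
    · rintro (⟨h4, h5⟩ | rfl)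
      · by_cases h6 : v = e'
        · exact Or.inl h6
        · exact Or.inr (Or.inr ⟨h4, h5, h6⟩)
      · exact Or.inr (Or.inl rfl)
  · intro f
    simp only [mem_insert, hm1]

/-- If every maximal matching of the connected set `F` is perfect then every vertex of `F`
has at least `|F| / 2` neighbours in `F`. -/
theorem sumner {F : Finset V} (hF : Conn G F) (ht : ∀ M, MaxM G F M → cov M = F) {c : V}
    (hc : c ∈ F) : F.card ≤ 2 * (nb G F c).card := by
  classical
  obtain ⟨M, -, hMax⟩ := exists_maxM F isM_empty (by rw [cov_empty]; exact empty_subset _)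
  have hcov := ht M hMax
  have hM := hMax.isM
  have hpart : ∀ v ∈ F, ∃ w, s(v, w) ∈ M := by
    intro v hv
    rw [← hcov] at hv
    exact mem_cov'.1 hv
  -- closure properties
  have hcl2 : ∀ a a' b b', s(a, a') ∈ M → s(b, b') ∈ M → s(a, a') ≠ s(b, b') → G.Adj a' b' →
      G.Adj a b := by
    intro a a' b b' ha hb hne hadj
    by_contra hab
    obtain ⟨M', hM', hc', -⟩ := swap2 hM ha hb hne hadj
    have hmax' : MaxM G F M' := by
      refine ⟨hM', ?_, ?_⟩
      · intro v hv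
        rw [hc', hcov] at hv
        exact hv.1
      · intro u hu v hv hu' hv' huv
        rw [hc', hcov] at hu' hv'
        have h1 : u = a ∨ u = b := by tauto
        have h2 : v = a ∨ v = b := by tauto
        rcases h1 with rfl | rfl <;> rcases h2 with rfl | rfl
        · exact huv.ne rfl
        · exact hab huv
        · exact hab huv.symm
        · exact huv.ne rfl
    have h3 := ht M' hmax'
    have h4 : a ∈ cov M' := by
      rw [h3, ← hcov]; exact left_mem_cov ha
    rw [hc'] at h4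
    exact h4.2.1 rfl
  have hcl3 : ∀ a a' e e' b b', s(a, a') ∈ M → s(e, e') ∈ M → s(b, b') ∈ M →
      s(a, a') ≠ s(e, e') → s(a, a') ≠ s(b, b') → s(e, e') ≠ s(b, b') → G.Adj a' e →
      G.Adj e' b' → G.Adj a b := by
    intro a a' e e' b b' ha he hb h1 h2 h3 h4 h5
    by_contra hab
    obtain ⟨M', hM', hc'⟩ := swap3 hM ha he hb h1 h2 h3 h4 h5
    have hmax' : MaxM G F M' := by
      refine ⟨hM', ?_, ?_⟩
      · intro v hv
        rw [hc', hcov] at hv
        exact hv.1
      · intro u hu v hv hu' hv' huv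
        rw [hc', hcov] at hu' hv'
        have h1 : u = a ∨ u = b := by tauto
        have h2 : v = a ∨ v = b := by tauto
        rcases h1 with rfl | rfl <;> rcases h2 with rfl | rfl
        · exact huv.ne rfl
        · exact hab huv
        · exact hab huv.symm
        · exact huv.ne rfl
    have h3 := ht M' hmax'
    have h4 : a ∈ cov M' := by
      rw [h3, ← hcov]; exact left_mem_cov ha
    rw [hc'] at h4
    exact h4.2.1 rfl
  obtain ⟨c', hcc'⟩ := hpart c hc
  have hcc'' : s(c', c) ∈ M := by rw [Sym2.eq_swap]; exact hcc'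
  let T : Finset V := F.filter (fun v => ∃ w, s(v, w) ∈ M ∧ (G.Adj c v ∨ G.Adj c w))
  have hT : ∀ v, v ∈ T ↔ v ∈ F ∧ ∃ w, s(v, w) ∈ M ∧ (G.Adj c v ∨ G.Adj c w) := by
    intro v; simp [T]
  have hTF : T = F := by
    by_contra hne
    have hcT : c ∈ T := (hT c).2 ⟨hc, c', hcc', Or.inr (hM.adj hcc')⟩
    obtain ⟨a, ha, b, hb, hbT, hab⟩ := hF T (filter_subset _ _) ⟨c, hcT⟩ hne
    obtain ⟨haF, a', haa', hca⟩ := (hT a).1 ha
    obtain ⟨b', hbb'⟩ := hpart b hb
    have hcb : ¬ G.Adj c b := fun h => hbT ((hT b).2 ⟨hb, b', hbb', Or.inl h⟩)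
    have hcb' : ¬ G.Adj c b' := fun h => hbT ((hT b).2 ⟨hb, b', hbb', Or.inr h⟩)
    have hbb'' : s(b', b) ∈ M := by rw [Sym2.eq_swap]; exact hbb'
    have haa'' : s(a', a) ∈ M := by rw [Sym2.eq_swap]; exact haa'
    have hne_ab : s(a, a') ≠ s(b, b') := by
      intro h
      rcases Sym2.eq_iff.1 h with ⟨h1, h2⟩ | ⟨h1, h2⟩
      · exact hab.ne h1
      · subst h1; subst h2
        rcases hca with h | h
        · exact hcb' h
        · exact hcb h
    have hne_cb : s(c, c') ≠ s(b, b') := by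
      intro h
      have hadj := hM.adj hcc'
      rcases Sym2.eq_iff.1 h with ⟨h1, h2⟩ | ⟨h1, h2⟩
      · subst h2; exact hcb' hadj
      · subst h2; exact hcb hadj
    by_cases hac : s(a, a') = s(c, c')
    · rcases Sym2.eq_iff.1 hac with ⟨h1, h2⟩ | ⟨h1, h2⟩
      · subst h1; exact hcb hab
      · subst h1
        exact hcb' (hcl2 c a b' b hcc' hbb'' (by rw [Sym2.eq_swap (a := b')]; exact hne_cb) hab)
    · rcases hca with h | h
      · have h1 : G.Adj c' a' := hcl2 c' c a' a hcc'' haa'' (by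
          rw [Sym2.eq_swap (a := c'), Sym2.eq_swap (a := a')]; exact fun h => hac h.symm) h
        exact hcb' (hcl3 c c' a' a b' b hcc' haa'' hbb'' (by
          rw [Sym2.eq_swap (a := a')]; exact fun h => hac h.symm) (by
          rw [Sym2.eq_swap (a := b')]; exact hne_cb) (by
          rw [Sym2.eq_swap (a := a'), Sym2.eq_swap (a := b')]; exact hne_ab) h1 hab)
      · have h1 : G.Adj c' a := hcl2 c' c a a' hcc'' haa' (by
          rw [Sym2.eq_swap (a := c')]; exact fun h => hac h.symm) h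
        have h2 : G.Adj a' b' := hcl2 a' a b' b haa'' hbb'' (by
          rw [Sym2.eq_swap (a := a'), Sym2.eq_swap (a := b')]; exact hne_ab) hab
        exact hcb (hcl3 c c' a a' b b' hcc' haa' hbb' (fun h => hac h.symm) hne_cb hne_ab h1 h2)
  -- counting
  have hcount : (F \ nb G F c).card ≤ (nb G F c).card := by
    apply Finset.card_le_card_of_forall_subsingleton (fun v w => s(v, w) ∈ M)
    · intro v hv
      rw [mem_sdiff, mem_nb] at hv
      have hvT : v ∈ T := by rw [hTF]; exact hv.1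
      obtain ⟨hvF, w, hvw, h⟩ := (hT v).1 hvT
      have hw : G.Adj c w := by
        rcases h with h | h
        · exact absurd ⟨hv.1, h⟩ hv.2
        · exact h
      refine ⟨w, mem_nb.2 ⟨?_, hw⟩, hvw⟩
      rw [← hcov]; exact right_mem_cov hvw
    · intro w hw v hv v' hv'
      simp only [Set.mem_setOf_eq] at hv hv'
      have h1 : s(w, v) ∈ M := by rw [Sym2.eq_swap]; exact hv.2
      have h2 : s(w, v') ∈ M := by rw [Sym2.eq_swap]; exact hv'.2
      exact hM.uniq h1 h2
  have hsub : nb G F c ⊆ F := by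
    intro w hw
    exact (mem_nb.1 hw).1
  have := card_sdiff_add_card_eq_card hsub
  omega

end Pool.Agent.Lib_helper55.F4
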