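import Mathlib

/-!
# 4-polytopes with many non-simplex facets having two vertices in a plane

Planar points `W k`, the vertices of a polygonal path circumscribed about the unit circle, with
tangents at the angles `T j` (blocks of `q` close angles), and the points `X s` inside the circle.
-/

set_option autoImplicit false

namespace SharpPlane

open Real

/-! ### the angles -/

/-- the numbers `(i + 1) / (q + 1)` -/
noncomputable def tt (q i : ℕ) : ℝ := (i + 1) / (q + 1)

/-- the angles in a block -/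
noncomputable def dl (η : ℝ) (q i : ℕ) : ℝ := arccos (1 - (1 - cos η) * tt q i)

/-- the angles of the tangents -/
noncomputable def T (η : ℝ) (q : ℕ) : ℕ → ℝ
  | 0 => -1
  | j + 1 => 3 * η * (j / q : ℕ) + dl η q (j % q)

lemma tt_pos (q i : ℕ) : 0 < tt q i := by unfold tt; positivity

lemma tt_lt {q i : ℕ} (h : i < q) : tt q i < 1 := by
  unfold tt
  rw [div_lt_one (by positivity)]
  have : (i : ℝ) < q := by exact_mod_cast h
  linarith

lemma tt_mono {q i i' : ℕ} (h : i < i') : tt q i < tt q i' := by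
  unfold tt
  have : (i : ℝ) < i' := by exact_mod_cast h
  gcongr

variable {η : ℝ} {q : ℕ}

lemma mu_pos (h0 : 0 < η) (h1 : η ≤ 1) : 0 < 1 - cos η := by
  have h2 : cos η < cos 0 := by
    apply cos_lt_cos_of_nonneg_of_le_pi (le_refl _) _ h0
    linarith [pi_gt_three]
  rw [cos_zero] at h2
  linarith

lemma mu_lt (h0 : 0 < η) (h1 : η ≤ 1) : 1 - cos η < 1 := by
  have : 0 < cos η := cos_pos_of_mem_Ioo ⟨by linarith [pi_gt_three], by linarith [pi_gt_three]⟩
  linarith

lemma cos_dl (h0 : 0 < η) (h1 : η ≤ 1) {i : ℕ} (h : i < q) :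
    cos (dl η q i) = 1 - (1 - cos η) * tt q i := by
  have h2 := mu_pos h0 h1
  have h3 := mu_lt h0 h1
  have h4 := tt_pos q i
  have h5 := tt_lt h
  unfold dl
  rw [cos_arccos] <;> nlinarith

lemma dl_nonneg (i : ℕ) : 0 ≤ dl η q i := arccos_nonneg _

lemma dl_pos (h0 : 0 < η) (h1 : η ≤ 1) (i : ℕ) : 0 < dl η q i := by
  unfold dl
  rw [arccos_pos]
  have h2 := mu_pos h0 h1
  have h4 := tt_pos q i
  nlinarith

lemma dl_lt (h0 : 0 < η) (h1 : η ≤ 1) {i : ℕ} (h : i < q) : dl η q i < η := by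
  have h2 := mu_pos h0 h1
  have h3 := mu_lt h0 h1
  have h4 := tt_pos q i
  have h5 := tt_lt h
  have h6 : arccos (cos η) = η := arccos_cos h0.le (by linarith [pi_gt_three])
  unfold dl
  nth_rewrite 2 [← h6]
  apply arccos_lt_arccos <;> nlinarith

lemma dl_mono (h0 : 0 < η) (h1 : η ≤ 1) {i i' : ℕ} (h : i' < q) (h' : i < i') :
    dl η q i < dl η q i' := by
  have h2 := mu_pos h0 h1
  have h3 := mu_lt h0 h1
  have h4 := tt_pos q i
  have h5 := tt_lt h
  have h6 := tt_mono (q := q) h'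
  unfold dl
  apply arccos_lt_arccos <;> nlinarith

lemma T_succ_lt (h0 : 0 < η) (h1 : η ≤ 1) (hq : 0 < q) (j : ℕ) : T η q j < T η q (j + 1) := by
  rcases j with _ | j
  · have : 0 ≤ T η q 1 := by
      have := dl_nonneg (η := η) (q := q) (0 % q)
      show 0 ≤ 3 * η * ((0 / q : ℕ) : ℝ) + dl η q (0 % q)
      positivity
    have h : T η q 0 = -1 := rfl
    rw [h]
    linarith
  · show 3 * η * ((j / q : ℕ) : ℝ) + dl η q (j % q) <
      3 * η * (((j + 1) / q : ℕ) : ℝ) + dl η q ((j + 1) % q)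
    have hm := Nat.mod_lt j hq
    by_cases hlt : j % q + 1 < q
    · have e1 : (j + 1) % q = j % q + 1 := by
        rw [Nat.add_mod, Nat.mod_eq_of_lt (show 1 < q by omega), Nat.mod_eq_of_lt hlt]
      have e2 : (j + 1) / q = j / q := by
        apply Nat.div_eq_of_lt_le
        · have := Nat.div_mul_le_self j q
          omega
        · have := Nat.div_add_mod j q
          rw [Nat.add_mul, one_mul, mul_comm]
          omega
      rw [e1, e2]
      have := dl_mono h0 h1 (q := q) hlt (Nat.lt_succ_self (j % q))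
      linarith
    · have e3 : j % q + 1 = q := by omega
      have e2 : (j + 1) / q = j / q + 1 := by
        have h2 := Nat.div_add_mod j q
        have h3 : j + 1 = (j / q + 1) * q := by
          rw [Nat.add_mul, one_mul, mul_comm (j / q) q]
          omega
        rw [h3, Nat.mul_div_cancel _ hq]
      have h4 := dl_lt h0 h1 hm
      have h5 := dl_nonneg (η := η) (q := q) ((j + 1) % q)
      rw [e2]
      push_cast
      nlinarith

lemma T_strictMono (h0 : 0 < η) (h1 : η ≤ 1) (hq : 0 < q) : StrictMono (T η q) :=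
  strictMono_nat_of_lt_succ (T_succ_lt h0 h1 hq)

lemma T_le {M : ℕ} (h0 : 0 < η) (hM : η * (3 * M + 1) ≤ 1) (hq : 0 < q) {j : ℕ}
    (hj : j ≤ M + 1) : T η q j ≤ 1 := by
  have h1 : η ≤ 1 := by
    have : (0 : ℝ) ≤ M := Nat.cast_nonneg _
    nlinarith
  rcases j with _ | j
  · show (-1 : ℝ) ≤ 1
    norm_num
  · show 3 * η * ((j / q : ℕ) : ℝ) + dl η q (j % q) ≤ 1
    have h2 := dl_lt h0 h1 (Nat.mod_lt j hq)
    have h3 : ((j / q : ℕ) : ℝ) ≤ M := by
      have : j / q ≤ j := Nat.div_le_self j q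
      exact_mod_cast (by omega : j / q ≤ M)
    nlinarith

lemma T_ge (h0 : 0 < η) (h1 : η ≤ 1) (hq : 0 < q) (j : ℕ) : -1 ≤ T η q j :=
  (T_strictMono h0 h1 hq).monotone (Nat.zero_le j)

/-! ### the planar points -/

/-- the linear functional with the angle `θ` -/
noncomputable def dp (θ : ℝ) (x : ℝ × ℝ) : ℝ := cos θ * x.1 + sin θ * x.2

/-- the vertex between the tangents `T k` and `T (k + 1)` -/
noncomputable def W (η : ℝ) (q k : ℕ) : ℝ × ℝ :=
  (cos ((T η q k + T η q (k + 1)) / 2) / cos ((T η q (k + 1) - T η q k) / 2),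
    sin ((T η q k + T η q (k + 1)) / 2) / cos ((T η q (k + 1) - T η q k) / 2))

/-- the inner points -/
noncomputable def X (η : ℝ) (s : ℕ) : ℝ × ℝ :=
  (cos (3 * η * s) / (1 + cos η), sin (3 * η * s) / (1 + cos η))

lemma dp_W (θ : ℝ) (k : ℕ) : dp θ (W η q k) =
    cos (θ - (T η q k + T η q (k + 1)) / 2) / cos ((T η q (k + 1) - T η q k) / 2) := by
  unfold dp W
  rw [cos_sub]
  ring

lemma dp_X (θ : ℝ) (s : ℕ) : dp θ (X η s) = cos (θ - 3 * η * s) / (1 + cos η) := by
  unfold dp X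
  rw [cos_sub]
  ring

section

variable {M : ℕ}

lemma dp_W_eq (h0 : 0 < η) (hM : η * (3 * M + 1) ≤ 1) (hq : 0 < q) {k : ℕ} (hk : k ≤ M) {j : ℕ}
    (hj : j = k ∨ j = k + 1) : dp (T η q j) (W η q k) = 1 := by
  have h1 : η ≤ 1 := by
    have : (0 : ℝ) ≤ M := Nat.cast_nonneg _
    nlinarith
  have hc : 0 < cos ((T η q (k + 1) - T η q k) / 2) := by
    have h2 := T_succ_lt h0 h1 hq k
    have h3 := T_le h0 hM hq (show k + 1 ≤ M + 1 by omega)
    have h4 := T_ge h0 h1 hq k
    apply cos_pos_of_mem_Ioo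
    constructor <;> linarith [pi_gt_three]
  rw [dp_W, div_eq_one_iff_eq hc.ne']
  rcases hj with rfl | rfl
  · rw [← cos_neg]
    congr 1
    ring
  · congr 1
    ring

lemma dp_W_lt (h0 : 0 < η) (hM : η * (3 * M + 1) ≤ 1) (hq : 0 < q) {k : ℕ} (hk : k ≤ M) {j : ℕ}
    (hjM : j ≤ M + 1) (hj : ¬ (j = k ∨ j = k + 1)) : dp (T η q j) (W η q k) < 1 := by
  have h1 : η ≤ 1 := by
    have : (0 : ℝ) ≤ M := Nat.cast_nonneg _
    nlinarith
  have h2 := T_succ_lt h0 h1 hq k
  have h3 := T_le h0 hM hq (show k + 1 ≤ M + 1 by omega)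
  have h4 := T_ge h0 h1 hq k
  have h5 := T_le h0 hM hq hjM
  have h6 := T_ge h0 h1 hq j
  have hc : 0 < cos ((T η q (k + 1) - T η q k) / 2) := by
    apply cos_pos_of_mem_Ioo
    constructor <;> linarith [pi_gt_three]
  rw [dp_W, div_lt_one hc]
  rcases lt_or_gt_of_ne (show j ≠ k by omega) with h | h
  · have h7 := T_strictMono h0 h1 hq h
    rw [← cos_neg (T η q j - (T η q k + T η q (k + 1)) / 2)]
    apply cos_lt_cos_of_nonneg_of_le_pi <;> linarith [pi_gt_three]
  · have h7 := T_strictMono h0 h1 hq (show k + 1 < j by omega)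
    apply cos_lt_cos_of_nonneg_of_le_pi <;> linarith [pi_gt_three]

lemma dp_W_le (h0 : 0 < η) (hM : η * (3 * M + 1) ≤ 1) (hq : 0 < q) {k : ℕ} (hk : k ≤ M) {j : ℕ}
    (hjM : j ≤ M + 1) : dp (T η q j) (W η q k) ≤ 1 := by
  by_cases hj : j = k ∨ j = k + 1
  · exact (dp_W_eq h0 hM hq hk hj).le
  · exact (dp_W_lt h0 hM hq hk hjM hj).le

lemma one_add_cos (h0 : 0 < η) (h1 : η ≤ 1) : 1 < 1 + cos η := by
  have := mu_lt h0 h1
  linarith

/-- the value at the point of the block -/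
lemma dp_X_same (h0 : 0 < η) (h1 : η ≤ 1) (s : ℕ) {i : ℕ} (hi : i < q) :
    dp (T η q (s * q + i + 1)) (X η s) = (1 - (1 - cos η) * tt q i) / (1 + cos η) := by
  rw [dp_X]
  have hq : 0 < q := by omega
  have e1 : (s * q + i) / q = s := by
    rw [mul_comm, Nat.mul_add_div hq, Nat.div_eq_of_lt hi, add_zero]
  have e2 : (s * q + i) % q = i := by
    rw [mul_comm, Nat.mul_add_mod, Nat.mod_eq_of_lt hi]
  have e3 : T η q (s * q + i + 1) = 3 * η * s + dl η q i := by
    show 3 * η * (((s * q + i) / q : ℕ) : ℝ) + dl η q ((s * q + i) % q) = _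
    rw [e1, e2]
  rw [e3, ← cos_dl h0 h1 hi]
  congr 2
  ring

/-- the value at the points of the other blocks -/
lemma dp_X_other (h0 : 0 < η) (hM : η * (3 * M + 1) ≤ 1) {s s' : ℕ} (hs : s ≤ M) (hs' : s' ≤ M)
    (hne : s ≠ s') {i : ℕ} (hi : i < q) :
    dp (T η q (s * q + i + 1)) (X η s') < cos η / (1 + cos η) := by
  have h1 : η ≤ 1 := by
    have : (0 : ℝ) ≤ M := Nat.cast_nonneg _
    nlinarith
  rw [dp_X]
  have hq : 0 < q := by omega
  have e1 : (s * q + i) / q = s := by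
    rw [mul_comm, Nat.mul_add_div hq, Nat.div_eq_of_lt hi, add_zero]
  have e2 : (s * q + i) % q = i := by
    rw [mul_comm, Nat.mul_add_mod, Nat.mod_eq_of_lt hi]
  have e3 : T η q (s * q + i + 1) = 3 * η * s + dl η q i := by
    show 3 * η * (((s * q + i) / q : ℕ) : ℝ) + dl η q ((s * q + i) % q) = _
    rw [e1, e2]
  rw [e3]
  have hpos := one_add_cos h0 h1
  have h2 := dl_lt h0 h1 hi
  have h3 := dl_pos h0 h1 (q := q) i
  have h4 : (s : ℝ) ≤ M := by exact_mod_cast hs
  have h5 : (s' : ℝ) ≤ M := by exact_mod_cast hs'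
  have h6 : (0 : ℝ) ≤ s := Nat.cast_nonneg _
  have h7 : (0 : ℝ) ≤ s' := Nat.cast_nonneg _
  apply div_lt_div_of_pos_right _ (by linarith)
  rcases lt_or_gt_of_ne hne with h | h
  · have h8 : (s : ℝ) + 1 ≤ s' := by exact_mod_cast h
    rw [← cos_neg]
    apply cos_lt_cos_of_nonneg_of_le_pi h0.le
    · nlinarith [pi_gt_three]
    · nlinarith
  · have h8 : (s' : ℝ) + 1 ≤ s := by exact_mod_cast h
    apply cos_lt_cos_of_nonneg_of_le_pi h0.le
    · nlinarith [pi_gt_three]
    · nlinarith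

lemma dp_X_lt (h0 : 0 < η) (h1 : η ≤ 1) (θ : ℝ) (s : ℕ) : dp θ (X η s) < 1 := by
  rw [dp_X]
  have hpos := one_add_cos h0 h1
  rw [div_lt_one (by linarith)]
  exact lt_of_le_of_lt (cos_le_one _) hpos

end

end SharpPlane
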