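import Pool.Agent.Lib_helper55.SharpPlane

/-!
# Faces of polytopes given by points and functionals
-/

set_option autoImplicit false

namespace SharpPlane

open Module

section general

variable {E : Type*} [AddCommGroup E] [Module ℝ E] [TopologicalSpace E]

lemma le_of_mem_hull {S : Finset E} {f : E →L[ℝ] ℝ} {c : ℝ} (h : ∀ v ∈ S, f v ≤ c) {x : E}
    (hx : x ∈ convexHull ℝ (S : Set E)) : f x ≤ c := by
  have h1 : convexHull ℝ (S : Set E) ⊆ {y | f y ≤ c} := by
    apply convexHull_min
    · intro v hv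
      exact h v hv
    · exact convex_halfSpace_le f.toLinearMap.isLinear c
  exact h1 hx

lemma face {S : Finset E} {f : E →L[ℝ] ℝ} {c : ℝ} (h : ∀ v ∈ S, f v ≤ c) :
    {x | x ∈ convexHull ℝ (S : Set E) ∧ f x = c} =
      convexHull ℝ ((S.filter (fun v => f v = c) : Finset E) : Set E) := by
  classical
  apply Set.Subset.antisymm
  · rintro x ⟨hx, hfx⟩
    rw [Finset.mem_convexHull'] at hx
    obtain ⟨w, hw0, hw1, rfl⟩ := hx
    rw [map_sum] at hfx
    simp only [map_smul, smul_eq_mul] at hfx
    have h2 : ∑ v ∈ S, w v * (c - f v) = 0 := by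
      simp only [mul_sub, Finset.sum_sub_distrib, ← Finset.sum_mul, hw1, hfx]
      ring
    have h3 : ∀ v ∈ S, w v * (c - f v) = 0 :=
      (Finset.sum_eq_zero_iff_of_nonneg
        (fun v hv => mul_nonneg (hw0 v hv) (sub_nonneg.2 (h v hv)))).1 h2
    have h4 : ∀ v ∈ S, ¬ f v = c → w v = 0 := by
      intro v hv hne
      rcases mul_eq_zero.1 (h3 v hv) with h5 | h5
      · exact h5
      · exact absurd (sub_eq_zero.1 h5).symm hne
    rw [Finset.mem_convexHull']
    refine ⟨w, fun v hv => hw0 v (Finset.mem_filter.1 hv).1, ?_, ?_⟩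
    · rw [Finset.sum_filter, ← hw1]
      refine Finset.sum_congr rfl fun v hv => ?_
      split_ifs with h5
      · rfl
      · exact (h4 v hv h5).symm
    · rw [Finset.sum_filter]
      refine Finset.sum_congr rfl fun v hv => ?_
      split_ifs with h5
      · rfl
      · rw [h4 v hv h5, zero_smul]
  · apply convexHull_min
    · intro v hv
      rw [Finset.mem_coe, Finset.mem_filter] at hv
      exact ⟨subset_convexHull ℝ _ hv.1, hv.2⟩
    · exact (convex_convexHull ℝ _).inter (convex_hyperplane f.toLinearMap.isLinear c)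

/-- every point is the unique maximum of a functional on the set -/
def Expd (S : Finset E) : Prop := ∀ v ∈ S, ∃ f : E →L[ℝ] ℝ, ∀ w ∈ S, w ≠ v → f w < f v

lemma Expd.mono {S S' : Finset E} (h : Expd S) (h' : S' ⊆ S) : Expd S' := by
  intro v hv
  obtain ⟨f, hf⟩ := h v (h' hv)
  exact ⟨f, fun w hw => hf w (h' hw)⟩

lemma ext_eq {S : Finset E} (h : Expd S) :
    (convexHull ℝ (S : Set E)).extremePoints ℝ = (S : Set E) := by
  classical
  apply Set.Subset.antisymm
  · exact extremePoints_convexHull_subset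
  · intro v hv
    obtain ⟨f, hf⟩ := h v hv
    have hle : ∀ w ∈ S, f w ≤ f v := by
      intro w hw
      by_cases hwv : w = v
      · rw [hwv]
      · exact (hf w hw hwv).le
    refine ⟨subset_convexHull ℝ _ hv, ?_⟩
    have key : ∀ x ∈ convexHull ℝ (S : Set E), f x = f v → x = v := by
      intro x hx hfx
      have h1 : x ∈ {x | x ∈ convexHull ℝ (S : Set E) ∧ f x = f v} := ⟨hx, hfx⟩
      rw [face hle] at h1
      have h2 : S.filter (fun w => f w = f v) = {v} := by
        ext w
        rw [Finset.mem_filter, Finset.mem_singleton]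
        constructor
        · rintro ⟨hw, hw2⟩
          by_contra hne
          exact (hf w hw hne).ne hw2
        · rintro rfl
          exact ⟨hv, rfl⟩
      rw [h2, Finset.coe_singleton, convexHull_singleton] at h1
      exact h1
    intro x hx y hy hxy
    have hfx := le_of_mem_hull hle hx
    have hfy := le_of_mem_hull hle hy
    obtain ⟨a, b, ha, hb, hab, hv2⟩ := hxy
    have h3 : a * f x + b * f y = f v := by
      rw [← hv2, map_add, map_smul, map_smul, smul_eq_mul, smul_eq_mul]
    apply key x hx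
    by_contra hne
    have hlt : f x < f v := lt_of_le_of_ne hfx hne
    have h4 : a * f x < a * f v := mul_lt_mul_of_pos_left hlt ha
    have h5 : b * f y ≤ b * f v := mul_le_mul_of_nonneg_left hfy hb.le
    have h6 : a * f v + b * f v = f v := by rw [← add_mul, hab, one_mul]
    linarith

lemma exposed {S : Finset E} {f : E →L[ℝ] ℝ} {c : ℝ} (h : ∀ v ∈ S, f v ≤ c) {v₀ : E}
    (hv₀ : v₀ ∈ S) (h₀ : f v₀ = c) :
    IsExposed ℝ (convexHull ℝ (S : Set E)) {x | x ∈ convexHull ℝ (S : Set E) ∧ f x = c} := by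
  intro _
  refine ⟨f, ?_⟩
  ext x
  constructor
  · rintro ⟨hx, hfx⟩
    refine ⟨hx, fun y hy => ?_⟩
    rw [hfx]
    exact le_of_mem_hull h hy
  · rintro ⟨hx, hmax⟩
    refine ⟨hx, le_antisymm (le_of_mem_hull h hx) ?_⟩
    rw [← h₀]
    exact hmax v₀ (subset_convexHull ℝ _ hv₀)

end general

section four

variable {E : Type*} [NormedAddCommGroup E] [NormedSpace ℝ E] [FiniteDimensional ℝ E]

lemma finrank_ker (h4 : finrank ℝ E = 4) {f : E →L[ℝ] ℝ} {v : E} (hv : f v = 1) :
    finrank ℝ (LinearMap.ker f.toLinearMap) = 3 := by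
  have h1 := LinearMap.finrank_range_add_finrank_ker f.toLinearMap
  have h2 : LinearMap.range f.toLinearMap = ⊤ := by
    rw [LinearMap.range_eq_top]
    intro c
    refine ⟨c • v, ?_⟩
    show f (c • v) = c
    rw [map_smul, hv, smul_eq_mul, mul_one]
  rw [h2, finrank_top, finrank_self, h4] at h1
  omega

omit [FiniteDimensional ℝ E] in
lemma vectorSpan_le_ker {G : Set E} {f : E →L[ℝ] ℝ} (h : ∀ v ∈ G, f v = 1) :
    vectorSpan ℝ G ≤ LinearMap.ker f.toLinearMap := by
  rw [vectorSpan_def, Submodule.span_le]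
  rintro _ ⟨x, hx, y, hy, rfl⟩
  show f (x - y) = 0
  rw [map_sub, h x hx, h y hy, sub_self]

lemma finrank_face (h4 : finrank ℝ E = 4) {G : Set E} {f : E →L[ℝ] ℝ} (h : ∀ v ∈ G, f v = 1)
    (hs : Submodule.span ℝ G = ⊤) : finrank ℝ (vectorSpan ℝ G) = 3 := by
  have hne : G.Nonempty := by
    by_contra hne
    rw [Set.not_nonempty_iff_eq_empty] at hne
    rw [hne, Submodule.span_empty] at hs
    have h1 : finrank ℝ (⊤ : Submodule ℝ E) = 0 := by rw [← hs, finrank_bot]
    rw [finrank_top, h4] at h1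
    omega
  obtain ⟨a, ha⟩ := hne
  have hle : finrank ℝ (vectorSpan ℝ G) ≤ 3 := by
    rw [← finrank_ker h4 (h a ha)]
    exact Submodule.finrank_mono (vectorSpan_le_ker h)
  have hge : 4 ≤ finrank ℝ (vectorSpan ℝ G) + 1 := by
    have h1 : Submodule.span ℝ G ≤ vectorSpan ℝ G ⊔ Submodule.span ℝ {a} := by
      rw [Submodule.span_le]
      intro v hv
      have h2 : v - a ∈ vectorSpan ℝ G := vsub_mem_vectorSpan ℝ hv ha
      have h3 : v = (v - a) + a := by rw [sub_add_cancel]
      rw [h3]
      exact Submodule.add_mem_sup h2 (Submodule.mem_span_singleton_self a)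
    have h2 := Submodule.finrank_mono h1
    rw [hs, finrank_top, h4] at h2
    have h3 := Submodule.finrank_add_le_finrank_add_finrank (vectorSpan ℝ G)
      (Submodule.span ℝ {a})
    have h5 : finrank ℝ (Submodule.span ℝ {a}) ≤ 1 :=
      (finrank_span_le_card ({a} : Set E)).trans (by simp)
    omega
  omega

lemma span_top (h4 : finrank ℝ E = 4) {S : Finset E} {f : E →L[ℝ] ℝ}
    (hs : Submodule.span ℝ ((S.filter (fun v => f v = 1) : Finset E) : Set E) = ⊤)
    {v₁ : E} (hv₁ : v₁ ∈ S) (h₁ : f v₁ ≠ 1) : affineSpan ℝ (S : Set E) = ⊤ := by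
  have h : ∀ v ∈ ((S.filter (fun v => f v = 1) : Finset E) : Set E), f v = 1 := by
    intro v hv
    exact (Finset.mem_filter.1 hv).2
  have h3 := finrank_face h4 h hs
  have hsub : ((S.filter (fun v => f v = 1) : Finset E) : Set E) ⊆ (S : Set E) := by
    intro v hv
    exact (Finset.mem_filter.1 hv).1
  obtain ⟨a, ha⟩ : ((S.filter (fun v => f v = 1) : Finset E) : Set E).Nonempty := by
    by_contra hne
    rw [Set.not_nonempty_iff_eq_empty] at hne
    rw [hne, vectorSpan_empty, finrank_bot] at h3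
    omega
  have hlt : vectorSpan ℝ ((S.filter (fun v => f v = 1) : Finset E) : Set E) <
      vectorSpan ℝ (S : Set E) := by
    refine lt_of_le_of_ne (vectorSpan_mono ℝ hsub) ?_
    intro heq
    have h5 : v₁ - a ∈ vectorSpan ℝ (S : Set E) := vsub_mem_vectorSpan ℝ hv₁ (hsub ha)
    rw [← heq] at h5
    have h6 : f (v₁ - a) = 0 := vectorSpan_le_ker h h5
    rw [map_sub, h a ha] at h6
    exact h₁ (by linarith)
  have h5 := Submodule.finrank_lt_finrank_of_lt hlt
  have h6 : vectorSpan ℝ (S : Set E) = ⊤ := by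
    apply Submodule.eq_top_of_finrank_eq
    have h7 := Submodule.finrank_le (vectorSpan ℝ (S : Set E))
    omega
  rw [AffineSubspace.affineSpan_eq_top_iff_vectorSpan_eq_top_of_nonempty ℝ E E ⟨a, hsub ha⟩]
  exact h6

end four

end SharpPlane
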