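import Pool.Agent.Lib_helper55.SharpPlane2

/-!
# The 4-polytopes

The points `pA k = (W k, 0)`, `pB k = (0, W k)`, `pC s t = (X s, X t)` of `ℝ⁴`.
-/

set_option autoImplicit false

namespace SharpPlane

open Real Module

/-- The space `ℝ⁴`. -/
abbrev E4 : Type := EuclideanSpace ℝ (Fin 4)

/-- the point `(x, y)` of `ℝ² × ℝ² = ℝ⁴` -/
def mk (x y : ℝ × ℝ) : E4 := !₂[x.1, x.2, y.1, y.2]

/-- the linear functional with coefficients `(a, b)` -/
noncomputable def lf (a b : ℝ × ℝ) : E4 →L[ℝ] ℝ :=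
  a.1 • EuclideanSpace.proj (0 : Fin 4) + a.2 • EuclideanSpace.proj (1 : Fin 4) +
    b.1 • EuclideanSpace.proj (2 : Fin 4) + b.2 • EuclideanSpace.proj (3 : Fin 4)

lemma lf_mk (a b x y : ℝ × ℝ) :
    lf a b (mk x y) = (a.1 * x.1 + a.2 * x.2) + (b.1 * y.1 + b.2 * y.2) := by
  simp [lf, mk]
  ring

/-- the direction of the angle -/
noncomputable def uu (θ : ℝ) : ℝ × ℝ := (cos θ, sin θ)

lemma lf_uu (θ θ' : ℝ) (x y : ℝ × ℝ) : lf (uu θ) (uu θ') (mk x y) = dp θ x + dp θ' y := by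
  rw [lf_mk]
  rfl

lemma lf_uu_left (θ θ' : ℝ) (x y : ℝ × ℝ) :
    lf (uu θ + uu θ') 0 (mk x y) = dp θ x + dp θ' x := by
  rw [lf_mk]
  simp [uu, dp]
  ring

lemma lf_uu_right (θ θ' : ℝ) (x y : ℝ × ℝ) :
    lf 0 (uu θ + uu θ') (mk x y) = dp θ y + dp θ' y := by
  rw [lf_mk]
  simp [uu, dp]
  ring

lemma dp_zero (θ : ℝ) : dp θ 0 = 0 := by simp [dp]

lemma mk_inj {x y x' y' : ℝ × ℝ} (h : mk x y = mk x' y') : x = x' ∧ y = y' := by
  have h0 := congrFun (congrArg (fun v : E4 => v.ofLp) h) 0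
  have h1 := congrFun (congrArg (fun v : E4 => v.ofLp) h) 1
  have h2 := congrFun (congrArg (fun v : E4 => v.ofLp) h) 2
  have h3 := congrFun (congrArg (fun v : E4 => v.ofLp) h) 3
  simp [mk] at h0 h1 h2 h3
  exact ⟨Prod.ext h0 h1, Prod.ext h2 h3⟩

/-- the coordinate plane -/
def Qs : Submodule ℝ E4 where
  carrier := {v | v 2 = 0 ∧ v 3 = 0}
  zero_mem' := by simp
  add_mem' := by
    rintro a b ⟨h1, h2⟩ ⟨h3, h4⟩
    simp [h1, h2, h3, h4]
  smul_mem' := by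
    rintro c a ⟨h1, h2⟩
    simp [h1, h2]

lemma mk_mem {x y : ℝ × ℝ} : mk x y ∈ Qs ↔ y = 0 := by
  have h : mk x y ∈ Qs ↔ y.1 = 0 ∧ y.2 = 0 := by
    show (mk x y) 2 = 0 ∧ (mk x y) 3 = 0 ↔ _
    simp [mk]
  rw [h, Prod.ext_iff]
  rfl

/-- the map to the last two coordinates -/
def l23 : E4 →ₗ[ℝ] ℝ × ℝ where
  toFun v := (v 2, v 3)
  map_add' a b := by simp
  map_smul' c a := by simp

lemma finrank_Qs : finrank ℝ Qs = 2 := by
  have h1 := LinearMap.finrank_range_add_finrank_ker l23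
  have h2 : LinearMap.range l23 = ⊤ := by
    rw [LinearMap.range_eq_top]
    rintro ⟨a, b⟩
    refine ⟨mk 0 (a, b), ?_⟩
    show ((mk 0 (a, b)) 2, (mk 0 (a, b)) 3) = (a, b)
    simp [mk]
  have h3 : LinearMap.ker l23 = Qs := by
    ext v
    rw [LinearMap.mem_ker]
    show (v 2, v 3) = (0, 0) ↔ _
    rw [Prod.mk.injEq]
    exact Iff.rfl
  rw [h2, h3, finrank_top] at h1
  simp at h1
  omega

/-- two independent vectors in each of the two coordinate planes span -/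
lemma span_eq_top {G : Set E4} {x x' y y' : ℝ × ℝ} (hx : mk x 0 ∈ G) (hx' : mk x' 0 ∈ G)
    (hy : mk 0 y ∈ G) (hy' : mk 0 y' ∈ G) (hD : x.1 * x'.2 - x.2 * x'.1 ≠ 0)
    (hD' : y.1 * y'.2 - y.2 * y'.1 ≠ 0) : Submodule.span ℝ G = ⊤ := by
  rw [eq_top_iff]
  intro v _
  have h : v = ((v 0 * x'.2 - v 1 * x'.1) / (x.1 * x'.2 - x.2 * x'.1)) • mk x 0 +
      ((x.1 * v 1 - x.2 * v 0) / (x.1 * x'.2 - x.2 * x'.1)) • mk x' 0 +
      (((v 2 * y'.2 - v 3 * y'.1) / (y.1 * y'.2 - y.2 * y'.1)) • mk 0 y +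
      ((y.1 * v 3 - y.2 * v 2) / (y.1 * y'.2 - y.2 * y'.1)) • mk 0 y') := by
    ext i
    fin_cases i <;> simp only [mk, PiLp.add_apply, PiLp.smul_apply, smul_eq_mul] <;> simp
    · rw [div_mul_eq_mul_div, div_mul_eq_mul_div, ← add_div, eq_div_iff hD]
      ring
    · rw [div_mul_eq_mul_div, div_mul_eq_mul_div, ← add_div, eq_div_iff hD]
      ring
    · rw [div_mul_eq_mul_div, div_mul_eq_mul_div, ← add_div, eq_div_iff hD']
      ring
    · rw [div_mul_eq_mul_div, div_mul_eq_mul_div, ← add_div, eq_div_iff hD']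
      ring
  rw [h]
  refine Submodule.add_mem _ (Submodule.add_mem _ ?_ ?_) (Submodule.add_mem _ ?_ ?_)
  · exact Submodule.smul_mem _ _ (Submodule.subset_span hx)
  · exact Submodule.smul_mem _ _ (Submodule.subset_span hx')
  · exact Submodule.smul_mem _ _ (Submodule.subset_span hy)
  · exact Submodule.smul_mem _ _ (Submodule.subset_span hy')

lemma det_ne {θ : ℝ} {x y : ℝ × ℝ} (hx : dp θ x = 1) (hy : dp θ y = 1) (hne : x ≠ y) :
    x.1 * y.2 - x.2 * y.1 ≠ 0 := by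
  intro hD
  apply hne
  unfold dp at hx hy
  apply Prod.ext
  · linear_combination (-x.1) * hy + y.1 * hx + (sin θ) * hD
  · linear_combination (-x.2) * hy + y.2 * hx - (cos θ) * hD

end SharpPlane
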