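import Pool.Agent.Lib_helper55.SharpPlane3

/-!
# The 4-polytopes: vertices and facets
-/

set_option autoImplicit false

namespace SharpPlane

open Real Module

/-- the vertices in the first plane -/
noncomputable def pA (η : ℝ) (q k : ℕ) : E4 := mk (W η q k) 0
/-- the vertices in the second plane -/
noncomputable def pB (η : ℝ) (q k : ℕ) : E4 := mk 0 (W η q k)
/-- the other vertices -/
noncomputable def pC (η : ℝ) (s : ℕ × ℕ) : E4 := mk (X η s.1) (X η s.2)

open Classical in
/-- the set of the vertices -/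
noncomputable def VV (η : ℝ) (q r m l : ℕ) : Finset E4 :=
  (Finset.range m).image (pA η q) ∪ ((Finset.range l).image (pB η q) ∪
    (Finset.range q ×ˢ Finset.range r).image (pC η))

section

variable {η : ℝ} {q r m l M : ℕ}

lemma mem_VV {v : E4} : v ∈ VV η q r m l ↔ (∃ k, k < m ∧ pA η q k = v) ∨
    (∃ k, k < l ∧ pB η q k = v) ∨ ∃ s t, s < q ∧ t < r ∧ pC η (s, t) = v := by
  unfold VV
  simp only [Finset.mem_union, Finset.mem_image, Finset.mem_range, Finset.mem_product,
    Prod.exists, and_assoc]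

/-- the assumptions -/
structure Ok (η : ℝ) (q r m l M : ℕ) : Prop where
  h0 : 0 < η
  hM : η * (3 * M + 1) ≤ 1
  hq : 2 ≤ q
  hm : q * q < m
  hl : r * q < l
  hmM : m ≤ M
  hlM : l ≤ M

lemma Ok.h1 (h : Ok η q r m l M) : η ≤ 1 := by
  have h2 := h.hM
  have h3 := h.h0
  have : (0 : ℝ) ≤ M := Nat.cast_nonneg _
  nlinarith

lemma Ok.qM (h : Ok η q r m l M) {s : ℕ} (hs : s < q) : s ≤ M := by
  have := h.hm
  have := h.hmM
  nlinarith

lemma Ok.rM (h : Ok η q r m l M) {s : ℕ} (hs : s < r) : s ≤ M := by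
  have := h.hl
  have := h.hlM
  have := h.hq
  nlinarith

lemma dpW_two (h : Ok η q r m l M) {k k' : ℕ} (hk : k ≤ M) (hk' : k' ≤ M) (hne : k' ≠ k) :
    dp (T η q k) (W η q k') + dp (T η q (k + 1)) (W η q k') < 2 := by
  have hq : 0 < q := by have := h.hq; omega
  have a1 := dp_W_le h.h0 h.hM hq hk' (show k ≤ M + 1 by omega)
  have a2 := dp_W_le h.h0 h.hM hq hk' (show k + 1 ≤ M + 1 by omega)
  by_cases h1 : k = k' ∨ k = k' + 1
  · have h2 : ¬ (k + 1 = k' ∨ k + 1 = k' + 1) := by omega
    have := dp_W_lt h.h0 h.hM hq hk' (show k + 1 ≤ M + 1 by omega) h2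
    linarith
  · have := dp_W_lt h.h0 h.hM hq hk' (show k ≤ M + 1 by omega) h1
    linarith

lemma dpW_self (h : Ok η q r m l M) {k : ℕ} (hk : k ≤ M) :
    dp (T η q k) (W η q k) + dp (T η q (k + 1)) (W η q k) = 2 := by
  have hq : 0 < q := by have := h.hq; omega
  rw [dp_W_eq h.h0 h.hM hq hk (Or.inl rfl), dp_W_eq h.h0 h.hM hq hk (Or.inr rfl)]
  norm_num

/-- the value of the functional of a facet at the points `pC` -/
lemma fC_eq (h : Ok η q r m l M) {s t i : ℕ} (hi : i < q) :
    dp (T η q (s * q + i + 1)) (X η s) + dp (T η q (t * q + (q - 1 - i) + 1)) (X η t) = 1 := by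
  have h2 := one_add_cos h.h0 h.h1
  rw [dp_X_same h.h0 h.h1 s hi, dp_X_same h.h0 h.h1 t (show q - 1 - i < q by omega), ← add_div,
    div_eq_one_iff_eq (by linarith)]
  have h3 : tt q i + tt q (q - 1 - i) = 1 := by
    unfold tt
    have h4 : ((q - 1 - i : ℕ) : ℝ) = q - 1 - i := by
      rw [Nat.cast_sub (by omega), Nat.cast_sub (by omega), Nat.cast_one]
    rw [h4]
    have h5 : (q : ℝ) + 1 ≠ 0 := by positivity
    field_simp
    ring
  linear_combination (-(1 - cos η)) * h3

lemma dp_X_le (h : Ok η q r m l M) (θ : ℝ) (s : ℕ) : dp θ (X η s) ≤ 1 / (1 + cos η) := by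
  have h2 := one_add_cos h.h0 h.h1
  rw [dp_X]
  exact div_le_div_of_nonneg_right (cos_le_one _) (by linarith)

lemma fC_lt (h : Ok η q r m l M) {s t i j s' t' : ℕ} (hi : i < q) (hj : j < q) (hs : s ≤ M)
    (ht : t ≤ M) (hs' : s' ≤ M) (ht' : t' ≤ M) (hne : ¬ (s' = s ∧ t' = t)) :
    dp (T η q (s * q + i + 1)) (X η s') + dp (T η q (t * q + j + 1)) (X η t') < 1 := by
  have h2 := one_add_cos h.h0 h.h1
  have h3 : cos η / (1 + cos η) + 1 / (1 + cos η) = 1 := by
    rw [← add_div, add_comm, div_self (by linarith)]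
  by_cases h4 : s' = s
  · have h5 := dp_X_other h.h0 h.hM ht ht' (show t ≠ t' by tauto) hj
    have h6 := dp_X_le h (T η q (s * q + i + 1)) s'
    linarith
  · have h5 := dp_X_other h.h0 h.hM hs hs' (Ne.symm h4) hi
    have h6 := dp_X_le h (T η q (t * q + j + 1)) t'
    linarith

/-- the value at the point `pC` of the first functional of a block -/
lemma fC_gt (h : Ok η q r m l M) (s t : ℕ) :
    1 < dp (T η q (s * q + 0 + 1)) (X η s) + dp (T η q (t * q + 0 + 1)) (X η t) := by
  have hq := h.hq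
  have h2 := one_add_cos h.h0 h.h1
  rw [dp_X_same h.h0 h.h1 s (show 0 < q by omega), dp_X_same h.h0 h.h1 t (show 0 < q by omega),
    ← add_div, lt_div_iff₀ (by linarith)]
  have h3 : tt q 0 < 1 / 2 := by
    unfold tt
    rw [div_lt_div_iff₀ (by positivity) (by norm_num)]
    have : (2 : ℝ) ≤ q := by exact_mod_cast hq
    push_cast
    linarith
  have h4 := mu_pos h.h0 h.h1
  nlinarith

lemma expd (h : Ok η q r m l M) : Expd (VV η q r m l) := by
  have hmM := h.hmM
  have hlM := h.hlM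
  have hq := h.hq
  have hq0 : 0 < q := by omega
  intro v hv
  rw [mem_VV] at hv
  rcases hv with ⟨k, hk, rfl⟩ | ⟨k, hk, rfl⟩ | ⟨s, t, hs, ht, rfl⟩
  · refine ⟨lf (uu (T η q k) + uu (T η q (k + 1))) 0, ?_⟩
    intro w hw hne
    unfold pA
    rw [lf_uu_left, dpW_self h (by omega)]
    rw [mem_VV] at hw
    rcases hw with ⟨k', hk', rfl⟩ | ⟨k', hk', rfl⟩ | ⟨s', t', hs', ht', rfl⟩
    · unfold pA
      rw [lf_uu_left]
      exact dpW_two h (by omega) (by omega) (fun hc => hne (by rw [hc]))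
    · unfold pB
      rw [lf_uu_left, dp_zero, dp_zero]
      norm_num
    · unfold pC
      rw [lf_uu_left]
      have h2 := dp_X_lt h.h0 h.h1 (T η q k) s'
      have h3 := dp_X_lt h.h0 h.h1 (T η q (k + 1)) s'
      linarith
  · refine ⟨lf 0 (uu (T η q k) + uu (T η q (k + 1))), ?_⟩
    intro w hw hne
    unfold pB
    rw [lf_uu_right, dpW_self h (by omega)]
    rw [mem_VV] at hw
    rcases hw with ⟨k', hk', rfl⟩ | ⟨k', hk', rfl⟩ | ⟨s', t', hs', ht', rfl⟩
    · unfold pA
      rw [lf_uu_right, dp_zero, dp_zero]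
      norm_num
    · unfold pB
      rw [lf_uu_right]
      exact dpW_two h (by omega) (by omega) (fun hc => hne (by rw [hc]))
    · unfold pC
      rw [lf_uu_right]
      have h2 := dp_X_lt h.h0 h.h1 (T η q k) t'
      have h3 := dp_X_lt h.h0 h.h1 (T η q (k + 1)) t'
      linarith
  · refine ⟨lf (uu (T η q (s * q + 0 + 1))) (uu (T η q (t * q + 0 + 1))), ?_⟩
    intro w hw hne
    have hsM := h.qM hs
    have htM := h.rM ht
    have hsq : s * q + 0 + 1 ≤ M + 1 := by
      have : s * q ≤ q * q := Nat.mul_le_mul_right q hs.le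
      have := h.hm
      omega
    have htq : t * q + 0 + 1 ≤ M + 1 := by
      have : t * q ≤ r * q := Nat.mul_le_mul_right q ht.le
      have := h.hl
      omega
    have hgt := fC_gt h s t
    unfold pC
    rw [lf_uu]
    refine lt_of_le_of_lt ?_ hgt
    rw [mem_VV] at hw
    rcases hw with ⟨k', hk', rfl⟩ | ⟨k', hk', rfl⟩ | ⟨s', t', hs', ht', rfl⟩
    · unfold pA
      rw [lf_uu, dp_zero, add_zero]
      exact dp_W_le h.h0 h.hM hq0 (by omega) hsq
    · unfold pB
      rw [lf_uu, dp_zero, zero_add]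
      exact dp_W_le h.h0 h.hM hq0 (by omega) htq
    · unfold pC
      rw [lf_uu]
      have hne' : ¬ (s' = s ∧ t' = t) := by
        rintro ⟨rfl, rfl⟩
        exact hne rfl
      exact (fC_lt (i := 0) (j := 0) h hq0 hq0 hsM htM (h.qM hs') (h.rM ht') hne').le

lemma W_inj (h : Ok η q r m l M) {k k' : ℕ} (hk : k ≤ M) (hk' : k' ≤ M)
    (he : W η q k = W η q k') : k = k' := by
  by_contra hne
  have h1 := dpW_two h hk hk' (Ne.symm hne)
  have h2 := dpW_self h hk
  rw [← he, h2] at h1
  norm_num at h1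

lemma X_inj (h : Ok η q r m l M) {s s' : ℕ} (hs : s ≤ M) (hs' : s' ≤ M)
    (he : X η s = X η s') : s = s' := by
  by_contra hne
  have hq := h.hq
  have h1 := dp_X_other h.h0 h.hM hs hs' hne (show 0 < q by omega)
  have h2 := dp_X_same h.h0 h.h1 s (show 0 < q by omega)
  rw [← he, h2] at h1
  have h3 := one_add_cos h.h0 h.h1
  rw [div_lt_div_iff_of_pos_right (by linarith)] at h1
  have h4 := mu_pos h.h0 h.h1
  have h5 := tt_lt (show 0 < q by omega)
  nlinarith

lemma W_ne_zero (h : Ok η q r m l M) {k : ℕ} (hk : k ≤ M) : W η q k ≠ 0 := by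
  intro h0
  have h1 := dpW_self h hk
  rw [h0, dp_zero, dp_zero] at h1
  norm_num at h1

lemma X_ne_zero (h : Ok η q r m l M) (s : ℕ) : X η s ≠ 0 := by
  intro h0
  have hq := h.hq
  have h2 := dp_X_same h.h0 h.h1 s (show 0 < q by omega)
  rw [h0, dp_zero] at h2
  have h3 := one_add_cos h.h0 h.h1
  rw [eq_comm, div_eq_zero_iff] at h2
  have h4 := mu_pos h.h0 h.h1
  have h5 := tt_lt (show 0 < q by omega)
  have h6 := mu_lt h.h0 h.h1
  rcases h2 with h2 | h2
  · nlinarith
  · linarith

lemma card_VV (h : Ok η q r m l M) : (VV η q r m l).card = m + (l + q * r) := by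
  classical
  have hmM := h.hmM
  have hlM := h.hlM
  unfold VV
  rw [Finset.card_union_of_disjoint, Finset.card_union_of_disjoint, Finset.card_image_of_injOn,
    Finset.card_image_of_injOn, Finset.card_image_of_injOn, Finset.card_range,
    Finset.card_range, Finset.card_product, Finset.card_range, Finset.card_range]
  · rintro ⟨s, t⟩ hs ⟨s', t'⟩ hs' he
    rw [Finset.mem_coe, Finset.mem_product, Finset.mem_range, Finset.mem_range] at hs hs'
    have h1 := mk_inj he
    have h2 := X_inj h (h.qM hs.1) (h.qM hs'.1) h1.1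
    have h3 := X_inj h (h.rM hs.2) (h.rM hs'.2) h1.2
    exact Prod.ext h2 h3
  · intro k hk k' hk' he
    rw [Finset.mem_coe, Finset.mem_range] at hk hk'
    exact W_inj h (by omega) (by omega) (mk_inj he).2
  · intro k hk k' hk' he
    rw [Finset.mem_coe, Finset.mem_range] at hk hk'
    exact W_inj h (by omega) (by omega) (mk_inj he).1
  · rw [Finset.disjoint_left]
    intro v hv hv'
    simp only [Finset.mem_image, Finset.mem_range] at hv hv'
    obtain ⟨k, hk, rfl⟩ := hv
    obtain ⟨s, hs, he⟩ := hv'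
    exact X_ne_zero h _ (mk_inj he).1
  · rw [Finset.disjoint_left]
    intro v hv hv'
    simp only [Finset.mem_image, Finset.mem_range, Finset.mem_union] at hv hv'
    obtain ⟨k, hk, rfl⟩ := hv
    rcases hv' with ⟨k', hk', he⟩ | ⟨s, hs, he⟩
    · exact W_ne_zero h (show k ≤ M by omega) (mk_inj he).1.symm
    · exact X_ne_zero h _ (mk_inj he).2

lemma card_plane (h : Ok η q r m l M) :
    ((VV η q r m l : Set E4) ∩ (Qs.toAffineSubspace : Set E4)).encard = m := by
  classical
  have hmM := h.hmM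
  have hlM := h.hlM
  have h1 : (VV η q r m l : Set E4) ∩ (Qs.toAffineSubspace : Set E4) =
      (((Finset.range m).image (pA η q) : Finset E4) : Set E4) := by
    ext v
    rw [Set.mem_inter_iff, Finset.mem_coe, mem_VV, Finset.mem_coe, Finset.mem_image]
    constructor
    · rintro ⟨hv | hv | hv, hQ⟩
      · obtain ⟨k, hk, rfl⟩ := hv
        exact ⟨k, Finset.mem_range.2 hk, rfl⟩
      · obtain ⟨k, hk, rfl⟩ := hv
        exact absurd (mk_mem.1 hQ) (W_ne_zero h (by omega))
      · obtain ⟨s, t, hs, ht, rfl⟩ := hv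
        exact absurd (mk_mem.1 hQ) (X_ne_zero h _)
    · rintro ⟨k, hk, rfl⟩
      exact ⟨Or.inl ⟨k, Finset.mem_range.1 hk, rfl⟩, mk_mem.2 rfl⟩
  rw [h1, Set.encard_coe_eq_coe_finsetCard, Finset.card_image_of_injOn, Finset.card_range]
  intro k hk k' hk' he
  rw [Finset.mem_coe, Finset.mem_range] at hk hk'
  exact W_inj h (by omega) (by omega) (mk_inj he).1

/-- the functional of a facet -/
noncomputable def ff (η : ℝ) (q s t i : ℕ) : E4 →L[ℝ] ℝ :=
  lf (uu (T η q (s * q + i + 1))) (uu (T η q (t * q + (q - 1 - i) + 1)))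

section facet

variable {s t i : ℕ}

lemma ff_A (k : ℕ) : ff η q s t i (pA η q k) = dp (T η q (s * q + i + 1)) (W η q k) := by
  unfold ff pA
  rw [lf_uu, dp_zero, add_zero]

lemma ff_B (k : ℕ) :
    ff η q s t i (pB η q k) = dp (T η q (t * q + (q - 1 - i) + 1)) (W η q k) := by
  unfold ff pB
  rw [lf_uu, dp_zero, zero_add]

lemma idx1 (h : Ok η q r m l M) (hs : s < q) (hi : i < q) : s * q + i + 1 < m := by
  have h1 : s * q + i + 1 ≤ q * q := by
    have : (s + 1) * q ≤ q * q := Nat.mul_le_mul_right q hs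
    nlinarith
  have := h.hm
  omega

lemma idx2 (h : Ok η q r m l M) (ht : t < r) (hi : i < q) : t * q + i + 1 < l := by
  have h1 : t * q + i + 1 ≤ r * q := by
    have : (t + 1) * q ≤ r * q := Nat.mul_le_mul_right q ht
    nlinarith
  have := h.hl
  omega

lemma ff_le (h : Ok η q r m l M) (hs : s < q) (ht : t < r) (hi : i < q) :
    ∀ v ∈ VV η q r m l, ff η q s t i v ≤ 1 := by
  have hmM := h.hmM
  have hlM := h.hlM
  have hq := h.hq
  have a1 := idx1 h hs hi
  have a2 := idx2 h ht (show q - 1 - i < q by omega)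
  intro v hv
  rw [mem_VV] at hv
  rcases hv with ⟨k, hk, rfl⟩ | ⟨k, hk, rfl⟩ | ⟨s', t', hs', ht', rfl⟩
  · rw [ff_A]
    exact dp_W_le h.h0 h.hM (by omega) (by omega) (by omega)
  · rw [ff_B]
    exact dp_W_le h.h0 h.hM (by omega) (by omega) (by omega)
  · unfold ff pC
    rw [lf_uu]
    by_cases he : s' = s ∧ t' = t
    · obtain ⟨rfl, rfl⟩ := he
      exact (fC_eq h hi).le
    · exact (fC_lt h hi (by omega) (h.qM hs) (h.rM ht) (h.qM hs') (h.rM ht') he).le

open Classical in
lemma ff_eq (h : Ok η q r m l M) (hs : s < q) (ht : t < r) (hi : i < q) :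
    (VV η q r m l).filter (fun v => ff η q s t i v = 1) =
      {pA η q (s * q + i), pA η q (s * q + i + 1), pB η q (t * q + (q - 1 - i)),
        pB η q (t * q + (q - 1 - i) + 1), pC η (s, t)} := by
  have hmM := h.hmM
  have hlM := h.hlM
  have hq := h.hq
  have a1 := idx1 h hs hi
  have a2 := idx2 h ht (show q - 1 - i < q by omega)
  ext v
  simp only [Finset.mem_filter, Finset.mem_insert, Finset.mem_singleton]
  constructor
  · rintro ⟨hv, hf⟩
    rw [mem_VV] at hv
    rcases hv with ⟨k, hk, rfl⟩ | ⟨k, hk, rfl⟩ | ⟨s', t', hs', ht', rfl⟩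
    · rw [ff_A] at hf
      by_cases hj : s * q + i + 1 = k ∨ s * q + i + 1 = k + 1
      · rcases hj with hj | hj
        · right; left
          rw [hj]
        · left
          rw [show k = s * q + i by omega]
      · exact absurd hf (dp_W_lt h.h0 h.hM (by omega) (by omega) (by omega) hj).ne
    · rw [ff_B] at hf
      by_cases hj : t * q + (q - 1 - i) + 1 = k ∨ t * q + (q - 1 - i) + 1 = k + 1
      · rcases hj with hj | hj
        · right; right; right; left
          rw [hj]
        · right; right; left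
          rw [show k = t * q + (q - 1 - i) by omega]
      · exact absurd hf (dp_W_lt h.h0 h.hM (by omega) (by omega) (by omega) hj).ne
    · by_cases he : s' = s ∧ t' = t
      · obtain ⟨rfl, rfl⟩ := he
        right; right; right; right
        rfl
      · unfold ff pC at hf
        rw [lf_uu] at hf
        exact absurd hf
          (fC_lt h hi (by omega) (h.qM hs) (h.rM ht) (h.qM hs') (h.rM ht') he).ne
  · rintro (rfl | rfl | rfl | rfl | rfl)
    · refine ⟨mem_VV.2 (Or.inl ⟨_, by omega, rfl⟩), ?_⟩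
      rw [ff_A]
      exact dp_W_eq h.h0 h.hM (by omega) (by omega) (Or.inr rfl)
    · refine ⟨mem_VV.2 (Or.inl ⟨_, by omega, rfl⟩), ?_⟩
      rw [ff_A]
      exact dp_W_eq h.h0 h.hM (by omega) (by omega) (Or.inl rfl)
    · refine ⟨mem_VV.2 (Or.inr (Or.inl ⟨_, by omega, rfl⟩)), ?_⟩
      rw [ff_B]
      exact dp_W_eq h.h0 h.hM (by omega) (by omega) (Or.inr rfl)
    · refine ⟨mem_VV.2 (Or.inr (Or.inl ⟨_, by omega, rfl⟩)), ?_⟩
      rw [ff_B]
      exact dp_W_eq h.h0 h.hM (by omega) (by omega) (Or.inl rfl)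
    · refine ⟨mem_VV.2 (Or.inr (Or.inr ⟨s, t, hs, ht, rfl⟩)), ?_⟩
      unfold ff pC
      rw [lf_uu]
      exact fC_eq h hi

lemma A_ne_B (h : Ok η q r m l M) {k : ℕ} (hk : k ≤ M) (k' : ℕ) : pA η q k ≠ pB η q k' := by
  intro he
  exact W_ne_zero h hk (mk_inj he).1

lemma A_ne_C (h : Ok η q r m l M) (k : ℕ) (z : ℕ × ℕ) : pA η q k ≠ pC η z := by
  intro he
  exact X_ne_zero h _ (mk_inj he).2.symm

lemma B_ne_C (h : Ok η q r m l M) (k : ℕ) (z : ℕ × ℕ) : pB η q k ≠ pC η z := by
  intro he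
  exact X_ne_zero h _ (mk_inj he).1.symm

open Classical in
lemma ff_card (h : Ok η q r m l M) (hs : s < q) (ht : t < r) (hi : i < q) :
    ((VV η q r m l).filter (fun v => ff η q s t i v = 1)).card = 5 := by
  have hmM := h.hmM
  have hlM := h.hlM
  have hq := h.hq
  have a1 := idx1 h hs hi
  have a2 := idx2 h ht (show q - 1 - i < q by omega)
  rw [ff_eq h hs ht hi]
  have b1 : pA η q (s * q + i) ≠ pA η q (s * q + i + 1) := by
    intro he
    have := W_inj h (by omega) (by omega) (mk_inj he).1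
    omega
  have b2 : pB η q (t * q + (q - 1 - i)) ≠ pB η q (t * q + (q - 1 - i) + 1) := by
    intro he
    have := W_inj h (by omega) (by omega) (mk_inj he).2
    omega
  rw [Finset.card_insert_of_notMem, Finset.card_insert_of_notMem, Finset.card_insert_of_notMem,
    Finset.card_insert_of_notMem, Finset.card_singleton]
  · simp [B_ne_C h]
  · simp [B_ne_C h, b2]
  · simp only [Finset.mem_insert, Finset.mem_singleton, not_or]
    exact ⟨A_ne_B h (by omega) _, A_ne_B h (by omega) _, A_ne_C h _ _⟩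
  · simp only [Finset.mem_insert, Finset.mem_singleton, not_or]
    exact ⟨b1, A_ne_B h (by omega) _, A_ne_B h (by omega) _, A_ne_C h _ _⟩

lemma ff_span (h : Ok η q r m l M) (hs : s < q) (ht : t < r) (hi : i < q) :
    Submodule.span ℝ (((VV η q r m l).filter (fun v => ff η q s t i v = 1) : Finset E4) :
      Set E4) = ⊤ := by
  classical
  have hmM := h.hmM
  have hlM := h.hlM
  have hq := h.hq
  have a1 := idx1 h hs hi
  have a2 := idx2 h ht (show q - 1 - i < q by omega)
  have b1 : W η q (s * q + i) ≠ W η q (s * q + i + 1) := by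
    intro he
    have := W_inj h (by omega) (by omega) he
    omega
  have b2 : W η q (t * q + (q - 1 - i)) ≠ W η q (t * q + (q - 1 - i) + 1) := by
    intro he
    have := W_inj h (by omega) (by omega) he
    omega
  refine span_eq_top (x := W η q (s * q + i)) (x' := W η q (s * q + i + 1))
    (y := W η q (t * q + (q - 1 - i))) (y' := W η q (t * q + (q - 1 - i) + 1)) ?_ ?_ ?_ ?_
    (det_ne (dp_W_eq h.h0 h.hM (by omega) (by omega) (Or.inr rfl))
      (dp_W_eq h.h0 h.hM (by omega) (by omega) (Or.inl rfl)) b1)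
    (det_ne (dp_W_eq h.h0 h.hM (by omega) (by omega) (Or.inr rfl))
      (dp_W_eq h.h0 h.hM (by omega) (by omega) (Or.inl rfl)) b2)
  all_goals
    rw [Finset.mem_coe, ff_eq h hs ht hi]
    simp [pA, pB]

end facet

end

end SharpPlane
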